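import Mathlib

/-! Equidistribution of the direction of a function in a disc, by Tonelli's theorem; an averaging
argument over discs of slowly varying radius. -/

set_option autoImplicit false
open Metric MeasureTheory Set Filter Topology

namespace Pool.Agent.K3h79.MA

/-- The angles of the directions in `W`. -/
def angS (W : Set ℂ) : Set ℝ := {θ : ℝ | Complex.exp (θ * Complex.I) ∈ W}

/-- The angular measure of a cone. -/
noncomputable def ang (W : Set ℂ) : ENNReal := volume (angS W ∩ Ioc (-Real.pi) Real.pi)

theorem measurable_angS {W : Set ℂ} (hW : MeasurableSet W) : MeasurableSet (angS W) := by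
  have h : Measurable fun θ : ℝ => Complex.exp (θ * Complex.I) := by fun_prop
  exact h hW

theorem angS_periodic (W : Set ℂ) (θ : ℝ) : θ + 2 * Real.pi ∈ angS W ↔ θ ∈ angS W := by
  unfold angS
  simp only [mem_ofPred_eq]
  have : Complex.exp (((θ + 2 * Real.pi : ℝ) : ℂ) * Complex.I) = Complex.exp (θ * Complex.I) := by
    push_cast
    rw [add_mul, Complex.exp_add, Complex.exp_two_pi_mul_I, mul_one]
  rw [this]

/-- The angular measure does not depend on the window. -/
theorem ang_shift {W : Set ℂ} (hW : MeasurableSet W) (t : ℝ) :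
    volume (angS W ∩ Ioc t (t + 2 * Real.pi)) = ang W := by
  have hm := measurable_angS hW
  have hper : Function.Periodic (indicator (angS W) (fun _ => (1:ℝ))) (2 * Real.pi) := by
    intro θ
    by_cases h : θ ∈ angS W
    · rw [indicator_of_mem h, indicator_of_mem ((angS_periodic W θ).2 h)]
    · rw [indicator_of_notMem h, indicator_of_notMem (fun h' => h ((angS_periodic W θ).1 h'))]
  have h1 := hper.intervalIntegral_add_eq t (-Real.pi)
  have hpi := Real.pi_pos
  have e : -Real.pi + 2 * Real.pi = Real.pi := by ring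
  rw [e] at h1
  rw [intervalIntegral.integral_of_le (by linarith), intervalIntegral.integral_of_le (by linarith),
    setIntegral_indicator hm, setIntegral_indicator hm, setIntegral_const, setIntegral_const,
    smul_eq_mul, smul_eq_mul, mul_one, mul_one] at h1
  unfold ang
  rw [inter_comm, inter_comm (angS W)]
  have h2 : ∀ u v : ℝ, volume (Ioc u v ∩ angS W) ≠ ⊤ := fun u v =>
    measure_ne_top_of_subset inter_subset_left (by simp)
  have h3 := congrArg ENNReal.ofReal h1
  rwa [measureReal_def, measureReal_def, ENNReal.ofReal_toReal (h2 _ _),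
    ENNReal.ofReal_toReal (h2 _ _)] at h3

/-- Rotation invariance of the angular measure, for a cone. -/
theorem ang_rot {W : Set ℂ} (hW : MeasurableSet W)
    (hc : ∀ z ∈ W, ∀ t : ℝ, 0 < t → (t : ℂ) * z ∈ W) {z : ℂ} (hz : z ≠ 0) :
    volume ({θ : ℝ | Complex.exp (θ * Complex.I) * z ∈ W} ∩ Ioc (-Real.pi) Real.pi) = ang W := by
  have hn : 0 < ‖z‖ := norm_pos_iff.2 hz
  have h1 : {θ : ℝ | Complex.exp (θ * Complex.I) * z ∈ W} = (fun θ => θ + z.arg) ⁻¹' angS W := by
    ext θ
    simp only [mem_ofPred_eq, mem_preimage, angS]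
    have e : Complex.exp (θ * Complex.I) * z =
        (‖z‖ : ℂ) * Complex.exp (((θ + z.arg : ℝ) : ℂ) * Complex.I) := by
      conv_lhs => rw [← Complex.norm_mul_exp_arg_mul_I z]
      push_cast
      rw [add_mul, Complex.exp_add]
      ring
    rw [e]
    constructor
    · intro h
      have h2 := hc _ h (‖z‖⁻¹) (by positivity)
      rw [← mul_assoc] at h2
      have : ((‖z‖⁻¹ : ℝ) : ℂ) * (‖z‖ : ℂ) = 1 := by
        rw [← Complex.ofReal_mul, inv_mul_cancel₀ hn.ne', Complex.ofReal_one]
      rwa [this, one_mul] at h2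
    · intro h
      exact hc _ h _ hn
  have h2 : Ioc (-Real.pi) Real.pi = (fun θ => θ + z.arg) ⁻¹'
      Ioc (-Real.pi + z.arg) (-Real.pi + z.arg + 2 * Real.pi) := by
    ext θ
    simp only [mem_Ioc, mem_preimage]
    constructor
    · rintro ⟨h3, h4⟩
      constructor <;> linarith
    · rintro ⟨h3, h4⟩
      constructor <;> linarith
  rw [h1, h2, ← preimage_inter, measure_preimage_add_right, ang_shift hW]

/-- The local estimate. -/
theorem local_tonelli {B B' W W' : Set ℂ} {F : ℂ → ℂ} {s : ℂ} (hB : MeasurableSet B)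
    (hF : Measurable F) (hW' : MeasurableSet W')
    (hc : ∀ z ∈ W', ∀ t : ℝ, 0 < t → (t : ℂ) * z ∈ W') (hF0 : ∀ c ∈ B, F c ≠ 0)
    (h : ∀ c ∈ B, ∀ θ ∈ Ioc (-Real.pi) Real.pi, Complex.exp (θ * Complex.I) * F c ∈ W' →
      F (c + θ * s) ∈ W ∧ c + θ * s ∈ B') :
    volume B * ang W' ≤ ENNReal.ofReal (2 * Real.pi) * volume (F ⁻¹' W ∩ B') := by
  set E : Set (ℂ × ℝ) := {p | Complex.exp (p.2 * Complex.I) * F p.1 ∈ W'} with hE
  have hEm : MeasurableSet E := by
    have h1 : Measurable fun p : ℂ × ℝ => Complex.exp (p.2 * Complex.I) * F p.1 := by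
      fun_prop
    exact h1 hW'
  set μ : Measure ℂ := volume.restrict B with hμ
  set ν : Measure ℝ := volume.restrict (Ioc (-Real.pi) Real.pi) with hν
  have h1 : (μ.prod ν) E = volume B * ang W' := by
    rw [Measure.prod_apply hEm]
    have h2 : ∀ c ∈ B, ν (Prod.mk c ⁻¹' E) = ang W' := by
      intro c hcB
      rw [hν, Measure.restrict_apply (measurable_prodMk_left hEm)]
      exact ang_rot hW' hc (hF0 c hcB)
    rw [hμ, setLIntegral_congr_fun hB h2, lintegral_const, Measure.restrict_apply_univ, mul_comm]
  have h2 : (μ.prod ν) E ≤ ENNReal.ofReal (2 * Real.pi) * volume (F ⁻¹' W ∩ B') := by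
    rw [Measure.prod_apply_symm hEm]
    have h3 : ∀ θ ∈ Ioc (-Real.pi) Real.pi, μ ((fun c => (c, θ)) ⁻¹' E) ≤
        volume (F ⁻¹' W ∩ B') := by
      intro θ hθ
      rw [hμ, Measure.restrict_apply (measurable_prodMk_right hEm)]
      calc volume ((fun c => (c, θ)) ⁻¹' E ∩ B)
          ≤ volume ((fun c : ℂ => c + θ * s) ⁻¹' (F ⁻¹' W ∩ B')) := by
            apply measure_mono
            rintro c ⟨h4, h5⟩
            exact h c h5 θ hθ h4
        _ = _ := measure_preimage_add_right _ _ _
    calc ∫⁻ θ, μ ((fun c => (c, θ)) ⁻¹' E) ∂ν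
        ≤ ∫⁻ θ, volume (F ⁻¹' W ∩ B') ∂ν := by
          rw [hν]
          exact setLIntegral_mono' measurableSet_Ioc h3
      _ = _ := by
          rw [lintegral_const, hν, Measure.restrict_apply_univ, Real.volume_Ioc, mul_comm]
          congr 2
          ring
  rw [← h1]
  exact h2

/-- Averaging over discs of slowly varying radius. -/
theorem avg {P U S : Set ℂ} {ρ : ℂ → ℝ} {κ : ENNReal} {q : ℝ} (hP : MeasurableSet P)
    (hS : MeasurableSet S) (hρ : Measurable ρ) (hq : 1 ≤ q)
    (h : ∀ x ∈ P, 0 < ρ x ∧ closedBall x (ρ x) ⊆ U ∧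
      κ * volume (closedBall x (ρ x)) ≤ volume (S ∩ closedBall x (ρ x)))
    (hs : ∀ x ∈ P, ∀ y ∈ P, dist x y ≤ ρ x + ρ y → ρ x ≤ q * ρ y) :
    κ * volume P ≤ ENNReal.ofReal (q ^ 4) * volume (S ∩ U) := by
  have hq0 : 0 < q := by linarith
  set E : Set (ℂ × ℂ) := {p | p.1 ∈ P ∧ dist p.2 p.1 ≤ ρ p.1} with hE
  have hEm : MeasurableSet E := by
    have h1 : MeasurableSet {p : ℂ × ℂ | dist p.2 p.1 ≤ ρ p.1} := by
      apply measurableSet_le
      · fun_prop
      · exact hρ.comp measurable_fst
    exact (measurable_fst hP).inter h1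
  set w : ℂ → ENNReal := fun x => (volume (closedBall x (ρ x)))⁻¹ with hw
  have hvol : ∀ x, volume (closedBall x (ρ x)) = ENNReal.ofReal (ρ x) ^ 2 * NNReal.pi := by
    intro x
    exact Complex.volume_closedBall x (ρ x)
  have hwm : Measurable w := by
    have : w = fun x => (ENNReal.ofReal (ρ x) ^ 2 * NNReal.pi)⁻¹ := by
      funext x; rw [hw]; simp only; rw [hvol]
    rw [this]
    fun_prop
  set K : ℂ → ℂ → ENNReal := fun x y => indicator E (fun p => w p.1) (x, y) with hK
  have hKm : Measurable (Function.uncurry K) := by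
    have : Function.uncurry K = indicator E (fun p => w p.1) := by
      funext p; rfl
    rw [this]
    exact (hwm.comp measurable_fst).indicator hEm
  -- lower bound
  have h1 : κ * volume P ≤ ∫⁻ x, ∫⁻ y in S, K x y := by
    calc κ * volume P = ∫⁻ x in P, κ := by rw [lintegral_const, Measure.restrict_apply_univ]
      _ ≤ ∫⁻ x in P, ∫⁻ y in S, K x y := by
          apply setLIntegral_mono' hP
          intro x hx
          obtain ⟨h2, h3, h4⟩ := h x hx
          have h5 : ∀ y, K x y = indicator (closedBall x (ρ x)) (fun _ => w x) y := by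
            intro y
            rw [hK]
            simp only
            by_cases hy : y ∈ closedBall x (ρ x)
            · rw [indicator_of_mem hy, indicator_of_mem]
              exact ⟨hx, hy⟩
            · rw [indicator_of_notMem hy, indicator_of_notMem]
              exact fun h' => hy h'.2
          simp only [h5]
          rw [setLIntegral_indicator measurableSet_closedBall, lintegral_const,
            Measure.restrict_apply_univ, inter_comm]
          have h6 : volume (closedBall x (ρ x)) ≠ 0 := (measure_closedBall_pos _ _ h2).ne'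
          have h7 : volume (closedBall x (ρ x)) ≠ ⊤ := measure_closedBall_lt_top.ne
          rw [hw]
          simp only
          calc κ = (volume (closedBall x (ρ x)))⁻¹ * (κ * volume (closedBall x (ρ x))) := by
                rw [mul_comm κ, ← mul_assoc, ENNReal.inv_mul_cancel h6 h7, one_mul]
            _ ≤ _ := by gcongr
      _ ≤ _ := setLIntegral_le_lintegral _ _
  -- upper bound
  have h2 : ∫⁻ x, ∫⁻ y in S, K x y = ∫⁻ y in S, ∫⁻ x, K x y :=
    lintegral_lintegral_swap hKm.aemeasurable
  have h3 : ∀ y, ∫⁻ x, K x y ≤ indicator U (fun _ => ENNReal.ofReal (q ^ 4)) y := by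
    intro y
    by_cases hne : ∃ x₀ ∈ P, dist y x₀ ≤ ρ x₀
    · obtain ⟨x₀, hx₀, hd⟩ := hne
      obtain ⟨g1, g2, g3⟩ := h x₀ hx₀
      rw [indicator_of_mem (g2 (mem_closedBall.2 hd))]
      set r := ρ x₀ with hr
      have h4 : ∀ x, K x y ≤ indicator (closedBall y (q * r))
          (fun _ => (ENNReal.ofReal (r / q) ^ 2 * NNReal.pi)⁻¹) x := by
        intro x
        rw [hK]
        simp only
        by_cases hx : (x, y) ∈ E
        · obtain ⟨h5, h6⟩ := hx
          simp only at h5 h6
          have h7 : dist x x₀ ≤ ρ x + ρ x₀ := by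
            calc dist x x₀ ≤ dist x y + dist y x₀ := dist_triangle _ _ _
              _ ≤ _ := by rw [dist_comm x y]; exact add_le_add h6 hd
          have h8 := hs x h5 x₀ hx₀ h7
          have h9 := hs x₀ hx₀ x h5 (by rw [dist_comm, add_comm]; exact h7)
          have h10 : x ∈ closedBall y (q * r) := by
            rw [mem_closedBall, dist_comm]
            exact h6.trans h8
          rw [indicator_of_mem h10, indicator_of_mem (show (x, y) ∈ E from ⟨h5, h6⟩), hw]
          simp only
          rw [hvol, ENNReal.inv_le_inv]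
          gcongr
          rw [div_le_iff₀ hq0, mul_comm]
          exact h9
        · rw [indicator_of_notMem hx]
          exact zero_le
      calc ∫⁻ x, K x y ≤ ∫⁻ x, indicator (closedBall y (q * r))
            (fun _ => (ENNReal.ofReal (r / q) ^ 2 * NNReal.pi)⁻¹) x := lintegral_mono h4
        _ = (ENNReal.ofReal (r / q) ^ 2 * NNReal.pi)⁻¹ * volume (closedBall y (q * r)) := by
            rw [lintegral_indicator measurableSet_closedBall, lintegral_const,
              Measure.restrict_apply_univ]
        _ ≤ ENNReal.ofReal (q ^ 4) := by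
            rw [Complex.volume_closedBall]
            have hr0 : 0 < r := g1
            have hpi : (0:ℝ) < Real.pi := Real.pi_pos
            have e1 : ENNReal.ofReal (r / q) ^ 2 * NNReal.pi =
                ENNReal.ofReal ((r / q) ^ 2 * Real.pi) := by
              rw [ENNReal.ofReal_mul (by positivity), ENNReal.ofReal_pow (by positivity),
                ← NNReal.coe_real_pi, ENNReal.ofReal_coe_nnreal]
            have e2 : ENNReal.ofReal (q * r) ^ 2 * NNReal.pi =
                ENNReal.ofReal ((q * r) ^ 2 * Real.pi) := by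
              rw [ENNReal.ofReal_mul (p := (q * r) ^ 2) (by positivity),
                ENNReal.ofReal_pow (by positivity),
                ← NNReal.coe_real_pi, ENNReal.ofReal_coe_nnreal]
            rw [e1, e2, ← ENNReal.ofReal_inv_of_pos (by positivity),
              ← ENNReal.ofReal_mul (by positivity)]
            apply ENNReal.ofReal_le_ofReal
            apply le_of_eq
            field_simp
    · push Not at hne
      have h4 : ∀ x, K x y = 0 := by
        intro x
        rw [hK]
        simp only
        apply indicator_of_notMem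
        rintro ⟨h5, h6⟩
        exact absurd h6 (not_le.2 (hne x h5))
      simp only [h4, lintegral_zero]
      exact zero_le
  calc κ * volume P ≤ ∫⁻ x, ∫⁻ y in S, K x y := h1
    _ = ∫⁻ y in S, ∫⁻ x, K x y := h2
    _ ≤ ∫⁻ y in S, indicator U (fun _ => ENNReal.ofReal (q ^ 4)) y := lintegral_mono h3
    _ ≤ ∫⁻ y in U, ENNReal.ofReal (q ^ 4) ∂(volume.restrict S) := lintegral_indicator_le _ _
    _ = ENNReal.ofReal (q ^ 4) * volume (S ∩ U) := by
        rw [lintegral_const, Measure.restrict_apply_univ, Measure.restrict_apply' hS, inter_comm]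

end Pool.Agent.K3h79.MA
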