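import Mathlib
import Pool.Agent.K3h79.MA.Loc
import Pool.Agent.TH363.CD.Stage2

/-! Variation of the orbit at the scale `1 / ‖L (j + 1)‖`. -/

set_option autoImplicit false
open Metric MeasureTheory Set Filter Topology

namespace Pool.Agent.K3h79.MA

open Pool.Agent.W747.MB Pool.Agent.TH363.CD

/-- Moving by `i θ / ω` multiplies the function by `exp (i θ)`, approximately. -/
theorem shift_est {F ℓ : ℂ → ℂ} {c ω : ℂ} {ε θ : ℝ} (hω : ω ≠ 0) (hε0 : 0 < ε) (hε : ε ≤ 1 / 10)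
    (hθ : |θ| ≤ Real.pi)
    (h : ∀ z ∈ closedBall c (Real.pi / ‖ω‖), HasDerivAt F (F z * ℓ z) z ∧
      ‖ℓ z - ω‖ ≤ ε * ‖ω‖) :
    ‖F (c + θ * (Complex.I / ω)) - Complex.exp (θ * Complex.I) * F c‖ ≤ 8 * ε * ‖F c‖ := by
  have hω0 : 0 < ‖ω‖ := norm_pos_iff.2 hω
  have hpi := Real.pi_pos
  have hpi4 : Real.pi < 4 := by linarith [Real.pi_lt_d2]
  set v : ℂ := θ * (Complex.I / ω) with hv
  have hvn : ‖v‖ = |θ| / ‖ω‖ := by
    rw [hv, norm_mul, norm_div, Complex.norm_I, Complex.norm_real, Real.norm_eq_abs]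
    ring
  set γ : ℝ → ℂ := fun t => c + t * v with hγ
  have hγd : ∀ t, HasDerivAt γ v t := by
    intro t
    have h1 : HasDerivAt (fun s : ℝ => (s : ℂ)) 1 t := Complex.ofRealCLM.hasDerivAt
    simpa [hγ] using (h1.mul_const v).const_add c
  have hγm : ∀ t ∈ Icc (0:ℝ) 1, γ t ∈ closedBall c (Real.pi / ‖ω‖) := by
    intro t ht
    rw [mem_closedBall, dist_eq_norm, hγ]
    simp only [add_sub_cancel_left]
    rw [norm_mul, Complex.norm_real, Real.norm_eq_abs, abs_of_nonneg ht.1, hvn]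
    calc t * (|θ| / ‖ω‖) ≤ 1 * (|θ| / ‖ω‖) := by
          apply mul_le_mul_of_nonneg_right ht.2
          positivity
      _ ≤ Real.pi / ‖ω‖ := by
          rw [one_mul]
          gcongr
  set g : ℝ → ℂ := fun t => F (γ t) * Complex.exp (-(t * (θ * Complex.I))) with hg
  have hgd : ∀ t ∈ Icc (0:ℝ) 1, HasDerivAt g (g t * (θ * Complex.I * (ℓ (γ t) / ω - 1))) t := by
    intro t ht
    have h1 := (h _ (hγm t ht)).1
    have h2 : HasDerivAt (fun t => F (γ t)) (F (γ t) * ℓ (γ t) * v) t :=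
      h1.comp_of_eq t (hγd t) rfl
    have h3 : HasDerivAt (fun s : ℝ => (s : ℂ)) 1 t := Complex.ofRealCLM.hasDerivAt
    have h4 : HasDerivAt (fun t : ℝ => Complex.exp (-(t * (θ * Complex.I))))
        (Complex.exp (-(t * (θ * Complex.I))) * (-(1 * (θ * Complex.I)))) t :=
      (h3.mul_const (θ * Complex.I)).neg.cexp
    refine (h2.mul h4).congr_deriv ?_
    simp only [hg, hv]
    field_simp
    ring
  have hgn : ∀ t, ‖g t‖ = ‖F (γ t)‖ := by
    intro t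
    rw [hg]
    simp only
    rw [norm_mul]
    have : ‖Complex.exp (-((t:ℂ) * (θ * Complex.I)))‖ = 1 := by
      have e : -((t:ℂ) * (θ * Complex.I)) = ((-(t * θ) : ℝ) : ℂ) * Complex.I := by
        push_cast; ring
      rw [e, Complex.norm_exp_ofReal_mul_I]
    rw [this, mul_one]
  set K : ℝ := Real.pi * ε with hK
  have hK0 : 0 < K := by positivity
  have hK1 : K ≤ 4 / 10 := by rw [hK]; nlinarith
  have hbound : ∀ t ∈ Ico (0:ℝ) 1,
      ‖g t * (θ * Complex.I * (ℓ (γ t) / ω - 1))‖ ≤ K * ‖g t - g 0‖ + K * ‖g 0‖ := by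
    intro t ht
    have h1 := (h _ (hγm t ⟨ht.1, ht.2.le⟩)).2
    have h2 : ‖ℓ (γ t) / ω - 1‖ ≤ ε := by
      have : ℓ (γ t) / ω - 1 = (ℓ (γ t) - ω) / ω := by field_simp
      rw [this, norm_div, div_le_iff₀ hω0]
      exact h1
    rw [norm_mul (g t), norm_mul ((θ:ℂ) * Complex.I), norm_mul (θ:ℂ), Complex.norm_I,
      Complex.norm_real, Real.norm_eq_abs, mul_one]
    have h3 : ‖g t‖ ≤ ‖g t - g 0‖ + ‖g 0‖ := by
      calc ‖g t‖ = ‖(g t - g 0) + g 0‖ := by congr 1; ring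
        _ ≤ _ := norm_add_le _ _
    calc ‖g t‖ * (|θ| * ‖ℓ (γ t) / ω - 1‖) ≤ (‖g t - g 0‖ + ‖g 0‖) * (Real.pi * ε) := by gcongr
      _ = _ := by rw [hK]; ring
  have hgr := norm_le_gronwallBound_of_norm_deriv_right_le (f := fun t => g t - g 0)
    (f' := fun t => g t * (θ * Complex.I * (ℓ (γ t) / ω - 1))) (δ := 0) (K := K)
    (ε := K * ‖g 0‖) (a := 0) (b := 1)
    (fun t ht => ((hgd t ht).sub_const (g 0)).continuousAt.continuousWithinAt)
    (fun t ht => ((hgd t ⟨ht.1, ht.2.le⟩).sub_const (g 0)).hasDerivWithinAt)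
    (by simp) hbound 1 (right_mem_Icc.2 zero_le_one)
  rw [gronwallBound_of_K_ne_0 hK0.ne'] at hgr
  simp only [zero_mul, zero_add, sub_zero, mul_one] at hgr
  have h5 : K * ‖g 0‖ / K = ‖g 0‖ := by field_simp
  rw [h5] at hgr
  have h6 : Real.exp K - 1 ≤ 2 * K := by
    have h7 := Real.exp_bound' (x := K) hK0.le (by linarith) (n := 2) (by norm_num)
    simp only [Finset.sum_range_succ, Finset.sum_range_zero, Nat.factorial] at h7
    norm_num at h7
    nlinarith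
  have h7 : g 1 - g 0 = Complex.exp (-(θ * Complex.I)) *
      (F (c + v) - Complex.exp (θ * Complex.I) * F c) := by
    have e1 : Complex.exp (-(θ * Complex.I)) * Complex.exp (θ * Complex.I) = 1 := by
      rw [← Complex.exp_add, neg_add_cancel, Complex.exp_zero]
    have e2 : g 1 = F (c + v) * Complex.exp (-(θ * Complex.I)) := by
      simp [hg, hγ]
    have e3 : g 0 = F c := by simp [hg, hγ]
    rw [e2, e3, mul_sub, ← mul_assoc (Complex.exp _) (Complex.exp _) (F c), e1]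
    ring
  have h8 : ‖Complex.exp (-(θ * Complex.I))‖ = 1 := by
    have e : -((θ:ℂ) * Complex.I) = ((-θ : ℝ) : ℂ) * Complex.I := by push_cast; ring
    rw [e, Complex.norm_exp_ofReal_mul_I]
  have h9 : ‖g 0‖ = ‖F c‖ := by
    rw [hgn]
    simp [hγ]
  rw [h7, norm_mul, h8, one_mul, h9] at hgr
  refine hgr.trans ?_
  calc ‖F c‖ * (Real.exp K - 1) ≤ ‖F c‖ * (2 * K) := by gcongr
    _ = 2 * Real.pi * ε * ‖F c‖ := by rw [hK]; ring
    _ ≤ 8 * ε * ‖F c‖ := by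
        gcongr
        linarith

/-- Local control at level `j + 1`. -/
structure LP (n j : ℕ) (R ε Q : ℝ) (x : ℂ) : Prop where
  L0 : L n x (j + 1) ≠ 0
  nz : ∀ c ∈ closedBall x (R / ‖L n x (j + 1)‖), c ≠ 0 ∧ ∀ i < j + 1, A n c i ≠ 0
  Lv : ∀ c ∈ closedBall x (R / ‖L n x (j + 1)‖),
    ‖L n c (j + 1) - L n x (j + 1)‖ ≤ ε * ‖L n x (j + 1)‖
  Xv : ∀ c ∈ closedBall x (R / ‖L n x (j + 1)‖), ∀ i, 1 ≤ i → i ≤ j →
    ‖X n c i - X n x i‖ ≤ ε * ‖X n x i‖
  Yv : ∀ c ∈ closedBall x (R / ‖L n x (j + 1)‖), Y n c ≤ Q * Y n x ∧ Y n x ≤ Q * Y n c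

theorem norm_X1 (n : ℕ) (c : ℂ) : ‖X n c 1‖ = Y n c := by
  rw [Pool.Agent.W216.MB.BAS.X1, norm_mul, norm_pow, Complex.norm_natCast]
  rfl

theorem lp_zero {R ε : ℝ} (hR : 1 ≤ R) (hε : 0 < ε) (hε1 : ε ≤ 1) : ∃ B : ℝ, 1 ≤ B ∧
    ∀ (n : ℕ) (x : ℂ), B ≤ n → x ≠ 0 → LP n 0 R ε (Real.exp (2 * R)) x := by
  refine ⟨4 * R / ε + 2, by
    have : 0 ≤ 4 * R / ε := by positivity
    linarith, ?_⟩
  intro n x hn hx
  have h4 : 4 ≤ 4 * R / ε := by
    rw [le_div_iff₀ hε]; nlinarith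
  have hn6 : (6:ℝ) ≤ n := by linarith
  have hn2 : 2 ≤ n := by
    have : (2:ℝ) ≤ n := by linarith
    exact_mod_cast this
  set N : ℝ := (n:ℝ) - 1 with hN
  have hN0 : 0 < N := by rw [hN]; linarith
  have hcast : ((n - 1 : ℕ) : ℝ) = N := by
    rw [Nat.cast_sub (by omega)]; simp [hN]
  have hx0 : 0 < ‖x‖ := norm_pos_iff.2 hx
  have hLn : ∀ c, ‖L n c 1‖ = N / ‖c‖ := by
    intro c
    rw [Pool.Agent.W216.MB.BAS.L1, norm_div, Pool.Agent.W216.MB.BAS.nm1 hn2]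
  set τ : ℝ := R / N with hτ
  have hτ0 : 0 < τ := by positivity
  have hτe : τ ≤ ε / 4 := by
    rw [hτ, div_le_iff₀ hN0]
    have h5 : 4 * R / ε ≤ N := by rw [hN]; linarith
    rw [div_le_iff₀ hε] at h5
    linarith
  have hτ4 : τ ≤ 1 / 4 := by linarith
  have hrad : R / ‖L n x 1‖ = τ * ‖x‖ := by
    rw [hLn, hτ]; field_simp
  have hb : ∀ c ∈ closedBall x (R / ‖L n x 1‖), ‖c - x‖ ≤ τ * ‖x‖ := by
    intro c hc
    rw [mem_closedBall, dist_eq_norm, hrad] at hc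
    exact hc
  have hlo : ∀ c ∈ closedBall x (R / ‖L n x 1‖), (1 - τ) * ‖x‖ ≤ ‖c‖ := by
    intro c hc
    have h1 := hb c hc
    have h2 : ‖x‖ ≤ ‖c‖ + ‖c - x‖ := by
      calc ‖x‖ = ‖c - (c - x)‖ := by congr 1; ring
        _ ≤ _ := norm_sub_le _ _
    linarith
  have hup : ∀ c ∈ closedBall x (R / ‖L n x 1‖), ‖c‖ ≤ (1 + τ) * ‖x‖ := by
    intro c hc
    have h1 := hb c hc
    have h2 : ‖c‖ ≤ ‖x‖ + ‖c - x‖ := by
      calc ‖c‖ = ‖x + (c - x)‖ := by congr 1; ring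
        _ ≤ _ := norm_add_le _ _
    linarith
  have hcpos : ∀ c ∈ closedBall x (R / ‖L n x 1‖), 0 < ‖c‖ := by
    intro c hc
    refine lt_of_lt_of_le ?_ (hlo c hc)
    have : 0 < 1 - τ := by linarith
    positivity
  refine ⟨?_, ?_, ?_, ?_, ?_⟩
  · rw [zero_add, ← norm_pos_iff, hLn]
    positivity
  · intro c hc
    refine ⟨norm_pos_iff.1 (hcpos c hc), ?_⟩
    intro i hi
    obtain rfl : i = 0 := by omega
    simp [A, X]
  · intro c hc
    rw [zero_add] at hc ⊢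
    have hc0 := hcpos c hc
    have hcne : c ≠ 0 := norm_pos_iff.1 hc0
    have h1 : L n c 1 - L n x 1 = L n x 1 * ((x - c) / c) := by
      rw [Pool.Agent.W216.MB.BAS.L1, Pool.Agent.W216.MB.BAS.L1]
      field_simp
    have h2 : ‖(x - c) / c‖ ≤ ε := by
      rw [norm_div, norm_sub_rev, div_le_iff₀ hc0]
      have h3 := hb c hc
      have h5 := hlo c hc
      have h6 : τ * ‖x‖ ≤ ε * ((1 - τ) * ‖x‖) := by
        have : τ ≤ ε * (1 - τ) := by nlinarith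
        calc τ * ‖x‖ ≤ (ε * (1 - τ)) * ‖x‖ := by gcongr
          _ = _ := by ring
      calc ‖c - x‖ ≤ τ * ‖x‖ := h3
        _ ≤ ε * ((1 - τ) * ‖x‖) := h6
        _ ≤ ε * ‖c‖ := by gcongr
    rw [h1, norm_mul, mul_comm ε]
    gcongr
  · intro c hc i h1 h2
    omega
  · intro c hc
    rw [zero_add] at hc
    have e1 : (1 + τ) ^ (n - 1) ≤ Real.exp (2 * R) := by
      calc (1 + τ) ^ (n - 1) ≤ Real.exp τ ^ (n - 1) := by
            apply pow_le_pow_left₀ (by positivity)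
            have := Real.add_one_le_exp τ
            linarith
        _ = Real.exp R := by
            rw [← Real.exp_nat_mul, hcast]
            congr 1
            rw [hτ]; field_simp
        _ ≤ Real.exp (2 * R) := Real.exp_le_exp.2 (by linarith)
    have e2 : (1 + 2 * τ) ^ (n - 1) ≤ Real.exp (2 * R) := by
      calc (1 + 2 * τ) ^ (n - 1) ≤ Real.exp (2 * τ) ^ (n - 1) := by
            apply pow_le_pow_left₀ (by positivity)
            have := Real.add_one_le_exp (2 * τ)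
            linarith
        _ = Real.exp (2 * R) := by
            rw [← Real.exp_nat_mul, hcast]
            congr 1
            rw [hτ]; field_simp
    have hYd : ∀ z, Y n z = n * ‖z‖ ^ (n - 1) := fun z => rfl
    constructor
    · rw [hYd, hYd]
      calc (n:ℝ) * ‖c‖ ^ (n - 1) ≤ n * ((1 + τ) * ‖x‖) ^ (n - 1) := by
            gcongr
            exact hup c hc
        _ = (1 + τ) ^ (n - 1) * (n * ‖x‖ ^ (n - 1)) := by rw [mul_pow]; ring
        _ ≤ _ := by gcongr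
    · rw [hYd, hYd]
      have h3 : ‖x‖ ≤ (1 + 2 * τ) * ‖c‖ := by
        have h5 := hlo c hc
        have h6 : 1 ≤ (1 + 2 * τ) * (1 - τ) := by nlinarith
        calc ‖x‖ ≤ ((1 + 2 * τ) * (1 - τ)) * ‖x‖ := by nlinarith
          _ = (1 + 2 * τ) * ((1 - τ) * ‖x‖) := by ring
          _ ≤ _ := by gcongr
      calc (n:ℝ) * ‖x‖ ^ (n - 1) ≤ n * ((1 + 2 * τ) * ‖c‖) ^ (n - 1) := by gcongr
        _ = (1 + 2 * τ) ^ (n - 1) * (n * ‖c‖ ^ (n - 1)) := by rw [mul_pow]; ring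
        _ ≤ _ := by gcongr

theorem A_near {n : ℕ} {c : ℂ} {j : ℕ} {q : ℝ} (hn : (0:ℝ) < n) (h : ‖X n c j‖ ≤ q * n) :
    ‖A n c j - 1‖ ≤ q := by
  have h1 : A n c j - 1 = X n c j / n := by unfold A; ring
  rw [h1, norm_div, Complex.norm_natCast, div_le_iff₀ hn]
  exact h

/-- Growth of the logarithmic derivatives. -/
theorem Lgrow {n : ℕ} (hn : 10 ^ 6 ≤ n) {x : ℂ} {i : ℕ} (hg : Geo n x i)
    (h1 : 10 ≤ ‖X n x i‖) (h2 : ‖X n x i‖ ≤ n / 10) :
    ‖X n x i‖ * ‖L n x i‖ / 2 ≤ ‖L n x (i + 1)‖ := by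
  have hn' : (10:ℝ) ^ 6 ≤ n := by exact_mod_cast hn
  have hn0 : (0:ℝ) < n := by linarith
  have hn2 : 2 ≤ n := le_trans (by norm_num) hn
  have hl : 0 < ‖L n x i‖ := norm_pos_iff.2 hg.L0
  have hx : x ∈ DD n x i := mem_closedBall_self (by positivity)
  have hA := A_near (n := n) (c := x) (j := i) (q := 1 / 10) hn0 (by linarith)
  have hA1 : ‖A n x i‖ ≤ 11 / 10 := by
    have h3 : ‖A n x i‖ ≤ ‖A n x i - 1‖ + ‖(1:ℂ)‖ := by
      calc ‖A n x i‖ = ‖(A n x i - 1) + 1‖ := by congr 1; ring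
        _ ≤ _ := norm_add_le _ _
    rw [norm_one] at h3
    linarith
  have hA2 : 9 / 10 ≤ ‖A n x i‖ := by
    have h3 : ‖(1:ℂ)‖ ≤ ‖A n x i‖ + ‖A n x i - 1‖ := by
      calc ‖(1:ℂ)‖ = ‖A n x i - (A n x i - 1)‖ := by congr 1; ring
        _ ≤ _ := norm_sub_le _ _
    rw [norm_one] at h3
    linarith
  have h3 : ‖((n:ℂ) - 1) / x‖ ≤ ‖L n x i‖ := by
    rw [norm_div, Pool.Agent.W216.MB.BAS.nm1 hn2]
    exact hg.big x hx
  have h4 : L n x (i + 1) = (n - 1) / x + X n x i * L n x i / A n x i := rfl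
  have h5 : ‖X n x i * L n x i / A n x i‖ ≤ ‖L n x (i + 1)‖ + ‖((n:ℂ) - 1) / x‖ := by
    calc ‖X n x i * L n x i / A n x i‖ = ‖L n x (i + 1) - ((n:ℂ) - 1) / x‖ := by
          rw [h4]; congr 1; ring
      _ ≤ _ := norm_sub_le _ _
  have h6 : 10 / 11 * (‖X n x i‖ * ‖L n x i‖) ≤ ‖X n x i * L n x i / A n x i‖ := by
    rw [norm_div, norm_mul, le_div_iff₀ (by linarith)]
    have h7 : 0 ≤ ‖X n x i‖ * ‖L n x i‖ := by positivity
    nlinarith
  nlinarith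

/-- The chain of configurations. -/
theorem chain {n : ℕ} (hn : 10 ^ 6 ≤ n) {x : ℂ} {j : ℕ} (hj : 1 ≤ j)
    (hX : ∀ i, 1 ≤ i → i ≤ j → 10 ^ 4 ≤ ‖X n x i‖ ∧ ‖X n x i‖ ≤ n / 10) :
    Geo n x j ∧ ∀ i, 1 ≤ i → i ≤ j → Geo n x i ∧ ‖L n x i‖ ≤ ‖L n x j‖ := by
  have hn' : (10:ℝ) ^ 6 ≤ n := by exact_mod_cast hn
  have hn0 : (0:ℝ) < n := by linarith
  have hn2 : 2 ≤ n := le_trans (by norm_num) hn
  induction j, hj using Nat.le_induction with
  | base =>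
    have h1 := hX 1 le_rfl le_rfl
    rw [norm_X1] at h1
    have h2 := (Pool.Agent.W216.MB.BAS.main n hn2 x (by linarith)).1.geo
    refine ⟨h2, fun i h3 h4 => ?_⟩
    obtain rfl : i = 1 := by omega
    exact ⟨h2, le_rfl⟩
  | succ j hj ih =>
    obtain ⟨h1, h2⟩ := ih fun i h3 h4 => hX i h3 (by omega)
    have hY := hX 1 le_rfl (by omega)
    rw [norm_X1] at hY
    have hXj := hX j hj (by omega)
    have hXj1 := hX (j + 1) (by omega) le_rfl
    have hl : 0 < ‖L n x j‖ := norm_pos_iff.2 h1.L0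
    have h3 := (hStg n hn x x j h1 hXj.1 (by linarith) (by linarith) (by linarith)
      (mem_closedBall_self (by positivity)) (by linarith) (by linarith)).1
    have h4 := Lgrow hn h1 (by linarith) hXj.2
    have h5 : ‖L n x j‖ ≤ ‖L n x (j + 1)‖ := by nlinarith
    refine ⟨h3, fun i h6 h7 => ?_⟩
    rcases Nat.lt_or_ge j i with h8 | h8
    · obtain rfl : i = j + 1 := by omega
      exact ⟨h3, le_rfl⟩
    · exact ⟨(h2 i h6 h8).1, (h2 i h6 h8).2.trans h5⟩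

end Pool.Agent.K3h79.MA
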