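import Mathlib
import Pool.Agent.K3h79.MA.Chain

/-! Local control at level `j + 1`, for `j ≥ 1`. -/

set_option autoImplicit false
open Metric MeasureTheory Set Filter Topology

namespace Pool.Agent.K3h79.MA

open Pool.Agent.W747.MB Pool.Agent.TH363.CD

theorem norm_le_of_sub {a b : ℂ} {t : ℝ} (h : ‖a - b‖ ≤ t) : ‖a‖ ≤ ‖b‖ + t := by
  calc ‖a‖ = ‖b + (a - b)‖ := by congr 1; ring
    _ ≤ ‖b‖ + ‖a - b‖ := norm_add_le _ _
    _ ≤ _ := by linarith

theorem norm_ge_of_sub {a b : ℂ} {t : ℝ} (h : ‖a - b‖ ≤ t) : ‖b‖ - t ≤ ‖a‖ := by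
  have : ‖b‖ ≤ ‖a‖ + ‖a - b‖ := by
    calc ‖b‖ = ‖a - (a - b)‖ := by congr 1; ring
      _ ≤ _ := norm_sub_le _ _
  linarith

theorem lp_pos {R ε : ℝ} (hR : 1 ≤ R) (hε : 0 < ε) (hε1 : ε ≤ 1) : ∃ B : ℝ, 1 ≤ B ∧
    ∀ (n j : ℕ) (x : ℂ), B ≤ n → 1 ≤ j →
      (∀ i, 1 ≤ i → i ≤ j → B ≤ ‖X n x i‖ ∧ ‖X n x i‖ ≤ n / 10) → LP n j R ε 2 x := by
  refine ⟨10 ^ 6 + 1000 * R / ε, by
    have : 0 ≤ 1000 * R / ε := by positivity
    linarith, ?_⟩
  intro n j x hn hj hX
  have hq0 : 0 ≤ 1000 * R / ε := by positivity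
  have hn' : (10:ℝ) ^ 6 ≤ n := by linarith
  have hnN : 10 ^ 6 ≤ n := by exact_mod_cast hn'
  have hn0 : (0:ℝ) < n := by linarith
  have hn2 : 2 ≤ n := le_trans (by norm_num) hnN
  obtain ⟨hgeo, hch⟩ := chain hnN hj (fun i h1 h2 => ⟨by linarith [(hX i h1 h2).1],
    (hX i h1 h2).2⟩)
  obtain ⟨hXj, hXjn⟩ := hX j hj le_rfl
  set l : ℝ := ‖L n x j‖ with hl
  have hl0 : 0 < l := norm_pos_iff.2 hgeo.L0
  set s : ℝ := ‖X n x j‖ with hs
  have hs0 : 0 < s := by linarith
  have hgr := Lgrow hnN hgeo (by linarith) hXjn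
  rw [← hl, ← hs] at hgr
  set l' : ℝ := ‖L n x (j + 1)‖ with hl'
  have hl'0 : 0 < l' := lt_of_lt_of_le (by positivity) hgr
  set r : ℝ := R / l' with hr
  have hr0 : 0 < r := by positivity
  set τ : ℝ := r * l with hτ
  have hτ0 : 0 < τ := by positivity
  have hτs : τ ≤ 2 * R / s := by
    rw [hτ, hr, div_mul_eq_mul_div, div_le_div_iff₀ hl'0 hs0]
    nlinarith
  have hτe : τ ≤ ε / 500 := by
    refine hτs.trans ?_
    rw [div_le_div_iff₀ hs0 (by norm_num)]
    have h1 : 1000 * R / ε ≤ s := by linarith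
    rw [div_le_iff₀ hε] at h1
    linarith
  have hτ5 : τ ≤ 1 / 500 := by linarith
  -- the ball lies in the discs of all levels
  have hsub : ∀ i, 1 ≤ i → i ≤ j → closedBall x r ⊆ DD n x i := by
    intro i h1 h2
    apply closedBall_subset_closedBall
    have h3 := (hch i h1 h2).2
    have h4 : 0 < ‖L n x i‖ := norm_pos_iff.2 (hch i h1 h2).1.L0
    calc r = τ / l := by rw [hτ]; field_simp
      _ ≤ 1 / 100 / ‖L n x i‖ := by
          apply div_le_div₀ (by norm_num) (by linarith) h4 h3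
      _ = _ := by rw [div_div]
  have hball : ∀ c ∈ closedBall x r, ‖c - x‖ ≤ r := by
    intro c hc
    rwa [mem_closedBall, dist_eq_norm] at hc
  have hxb : x ∈ closedBall x r := mem_closedBall_self hr0.le
  -- variation of X
  have hXv : ∀ i, 1 ≤ i → i ≤ j → ∀ c ∈ closedBall x r,
      ‖X n c i - X n x i‖ ≤ 105 / 100 * τ * ‖X n x i‖ := by
    intro i h1 h2 c hc
    have hgi := (hch i h1 h2).1
    have hder : ∀ w ∈ closedBall x r, HasDerivWithinAt (fun c => X n c i)
        (X n w i * L n w i) (closedBall x r) w := fun w hw =>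
      (Pool.Agent.W366.MB.main n hn2 w i (hgi.nz w (hsub i h1 h2 hw)).1
        (hgi.nz w (hsub i h1 h2 hw)).2).1.hasDerivWithinAt
    have hbd : ∀ w ∈ closedBall x r, ‖X n w i * L n w i‖ ≤ 105 / 100 * (‖X n x i‖ * l) := by
      intro w hw
      obtain ⟨v1, v2, -⟩ := hVar n hn2 x i hgi w (hsub i h1 h2 hw)
      have v3 := norm_le_of_sub v1
      have v4 := norm_le_of_sub v2
      have h3 := (hch i h1 h2).2
      rw [norm_mul]
      calc ‖X n w i‖ * ‖L n w i‖ ≤ (51 / 50 * ‖X n x i‖) * (51 / 50 * l) := by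
            gcongr
            · linarith
            · linarith
        _ ≤ _ := by
            have : 0 ≤ ‖X n x i‖ * l := by positivity
            nlinarith
    have h3 := (convex_closedBall x r).norm_image_sub_le_of_norm_hasDerivWithin_le hder hbd hxb hc
    refine h3.trans ?_
    calc 105 / 100 * (‖X n x i‖ * l) * ‖c - x‖ ≤ 105 / 100 * (‖X n x i‖ * l) * r := by
          gcongr
          exact hball c hc
      _ = _ := by rw [hτ]; ring
  -- variation of L
  have hLv : ∀ i, 1 ≤ i → i ≤ j → ∀ c ∈ closedBall x r,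
      ‖L n c i - L n x i‖ ≤ 105 / 100 * τ * l := by
    intro i h1 h2 c hc
    have hgi := (hch i h1 h2).1
    have hder : ∀ w ∈ closedBall x r, HasDerivWithinAt (fun c => L n c i)
        (M n w i) (closedBall x r) w := fun w hw =>
      (Pool.Agent.W366.MB.main n hn2 w i (hgi.nz w (hsub i h1 h2 hw)).1
        (hgi.nz w (hsub i h1 h2 hw)).2).2.hasDerivWithinAt
    have hbd : ∀ w ∈ closedBall x r, ‖M n w i‖ ≤ 105 / 100 * l ^ 2 := by
      intro w hw
      obtain ⟨v1, -, -⟩ := hVar n hn2 x i hgi w (hsub i h1 h2 hw)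
      have v3 := norm_le_of_sub v1
      have h3 := (hch i h1 h2).2
      have h4 : ‖L n w i‖ ≤ 51 / 50 * l := by linarith
      calc ‖M n w i‖ ≤ ‖L n w i‖ ^ 2 := hgi.nu w (hsub i h1 h2 hw)
        _ ≤ (51 / 50 * l) ^ 2 := by gcongr
        _ ≤ _ := by nlinarith [sq_nonneg l]
    have h3 := (convex_closedBall x r).norm_image_sub_le_of_norm_hasDerivWithin_le hder hbd hxb hc
    refine h3.trans ?_
    calc 105 / 100 * l ^ 2 * ‖c - x‖ ≤ 105 / 100 * l ^ 2 * r := by
          gcongr
          exact hball c hc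
      _ = _ := by rw [hτ]; ring
  have hAx := A_near (n := n) (c := x) (j := j) (q := 1 / 10) hn0 (by linarith)
  have hAc : ∀ c ∈ closedBall x r, ‖A n c j - 1‖ ≤ 11 / 100 := by
    intro c hc
    apply A_near hn0
    have h1 := norm_le_of_sub (hXv j hj le_rfl c hc)
    nlinarith
  have hA0 : ∀ c ∈ closedBall x r, 89 / 100 ≤ ‖A n c j‖ := by
    intro c hc
    have h1 := norm_ge_of_sub (hAc c hc)
    rw [norm_one] at h1
    linarith
  have hA1 : ‖A n x j‖ ≤ 11 / 10 := by
    have h1 := norm_le_of_sub hAx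
    rw [norm_one] at h1
    linarith
  refine ⟨norm_pos_iff.1 hl'0, ?_, ?_, ?_, ?_⟩
  · intro c hc
    have h1 := hgeo.nz c (hsub j hj le_rfl hc)
    refine ⟨h1.1, fun i hi => ?_⟩
    rcases Nat.lt_succ_iff_lt_or_eq.1 hi with h | h
    · exact h1.2 i h
    · rw [h]
      have := hA0 c hc
      rw [← norm_pos_iff]
      linarith
  · intro c hc
    have hc' : c ∈ closedBall x r := hc
    have e1 := hXv j hj le_rfl c hc'
    have e2 := hLv j hj le_rfl c hc'
    have e3 := hLv 1 le_rfl hj c hc'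
    rw [Pool.Agent.W216.MB.BAS.L1, Pool.Agent.W216.MB.BAS.L1] at e3
    rw [← hs] at e1
    have a1 := hA0 c hc'
    have a2 := hA0 x hxb
    have hne1 : A n c j ≠ 0 := by rw [← norm_pos_iff]; linarith
    have hne2 : A n x j ≠ 0 := by rw [← norm_pos_iff]; linarith
    have e4 : A n c j - A n x j = (X n c j - X n x j) / n := by unfold A; ring
    have e5 : ‖A n c j - A n x j‖ ≤ 105 / 1000 * τ := by
      rw [e4, norm_div, Complex.norm_natCast, div_le_iff₀ hn0]
      refine e1.trans ?_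
      nlinarith
    have e6 : L n c (j + 1) - L n x (j + 1) = (((n:ℂ) - 1) / c - ((n:ℂ) - 1) / x) +
        ((X n c j - X n x j) * L n c j * A n x j + X n x j * (L n c j - L n x j) * A n x j -
          X n x j * L n x j * (A n c j - A n x j)) / (A n c j * A n x j) := by
      have h1 : L n c (j + 1) = (n - 1) / c + X n c j * L n c j / A n c j := rfl
      have h2 : L n x (j + 1) = (n - 1) / x + X n x j * L n x j / A n x j := rfl
      rw [h1, h2]
      have h3 : X n c j * L n c j / A n c j - X n x j * L n x j / A n x j =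
        ((X n c j - X n x j) * L n c j * A n x j + X n x j * (L n c j - L n x j) * A n x j -
          X n x j * L n x j * (A n c j - A n x j)) / (A n c j * A n x j) := by
        rw [div_sub_div _ _ hne1 hne2]
        congr 1
        ring
      rw [← h3]
      ring
    have hLc : ‖L n c j‖ ≤ 101 / 100 * l := by
      have h1 := norm_le_of_sub e2
      rw [← hl] at h1
      nlinarith
    have e7 : ‖((X n c j - X n x j) * L n c j * A n x j + X n x j * (L n c j - L n x j) * A n x j -
          X n x j * L n x j * (A n c j - A n x j)) / (A n c j * A n x j)‖ ≤ 4 * τ * (s * l) := by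
      rw [norm_div, norm_mul (A n c j)]
      have h1 : 79 / 100 ≤ ‖A n c j‖ * ‖A n x j‖ := by nlinarith
      rw [div_le_iff₀ (by linarith)]
      have h2 : ‖(X n c j - X n x j) * L n c j * A n x j + X n x j * (L n c j - L n x j) * A n x j -
          X n x j * L n x j * (A n c j - A n x j)‖ ≤
          (105 / 100 * τ * s) * (101 / 100 * l) * (11 / 10) +
          s * (105 / 100 * τ * l) * (11 / 10) + s * l * (105 / 1000 * τ) := by
        refine (norm_sub_le _ _).trans (add_le_add ((norm_add_le _ _).trans (add_le_add ?_ ?_)) ?_)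
        · rw [norm_mul, norm_mul]; gcongr
        · rw [norm_mul, norm_mul]; gcongr
        · rw [norm_mul, norm_mul]; gcongr
      refine h2.trans ?_
      have h3 : 0 ≤ τ * (s * l) := by positivity
      nlinarith
    rw [e6]
    refine (norm_add_le _ _).trans ?_
    have h5 : s * l ≤ 2 * l' := by linarith
    have h6 : l ≤ l' := by nlinarith
    calc ‖((n:ℂ) - 1) / c - ((n:ℂ) - 1) / x‖ + _ ≤ 105 / 100 * τ * l + 4 * τ * (s * l) :=
          add_le_add e3 e7
      _ ≤ 105 / 100 * τ * l' + 4 * τ * (2 * l') := by gcongr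
      _ = (905 / 100 * τ) * l' := by ring
      _ ≤ ε * l' := by
          gcongr
          linarith
  · intro c hc i h1 h2
    refine (hXv i h1 h2 c hc).trans ?_
    gcongr
    linarith
  · intro c hc
    have h1 := hXv 1 le_rfl hj c hc
    rw [← norm_X1, ← norm_X1]
    have h2 := norm_le_of_sub h1
    have h3 := norm_ge_of_sub h1
    have h4 := norm_nonneg (X n x 1)
    have h5 : 105 / 100 * τ * ‖X n x 1‖ ≤ 1 / 2 * ‖X n x 1‖ := by
      gcongr
      linarith
    constructor <;> linarith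

end Pool.Agent.K3h79.MA
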