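import Mathlib
import Pool.Agent.K3h79.MA.Lp
import Pool.Agent.TH363.CD.Induct

/-! One stage: the direction of `X (j + 1)` is equidistributed on the sets given by the directions
of `X 1, ..., X j`. -/

set_option autoImplicit false
open Metric MeasureTheory Set Filter Topology

namespace Pool.Agent.K3h79.MA

open Pool.Agent.W747.MB Pool.Agent.TH363.CD

/-- The parameters in an annulus for which `X i` has its direction in `W i`, `1 ≤ i ≤ j`. -/
def GG (n : ℕ) (W : ℕ → Set ℂ) (j : ℕ) (a b : ℝ) : Set ℂ :=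
  {c | a ≤ Y n c ∧ Y n c ≤ b ∧ ∀ i, 1 ≤ i → i ≤ j → X n c i ∈ W i}

theorem measurable_X (n j : ℕ) : Measurable fun c => X n c j := by
  induction j with
  | zero => exact measurable_const
  | succ j ih =>
    show Measurable fun c : ℂ => (n:ℂ) * c ^ (n - 1) * (1 + X n c j / n) ^ n
    fun_prop

theorem measurable_L (n j : ℕ) : Measurable fun c => L n c j := by
  induction j with
  | zero => exact measurable_const
  | succ j ih =>
    have h1 := measurable_X n j
    show Measurable fun c : ℂ => ((n:ℂ) - 1) / c + X n c j * L n c j / (1 + X n c j / n)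
    fun_prop

theorem measurable_Y (n : ℕ) : Measurable fun c => Y n c := by
  show Measurable fun c : ℂ => (n:ℝ) * ‖c‖ ^ (n - 1)
  fun_prop

theorem measurableSet_GG {n : ℕ} {W : ℕ → Set ℂ} (hW : ∀ i, MeasurableSet (W i)) (j : ℕ)
    (a b : ℝ) : MeasurableSet (GG n W j a b) := by
  have h1 : GG n W j a b = {c | a ≤ Y n c} ∩ ({c | Y n c ≤ b} ∩
      ⋂ i ∈ Finset.Icc 1 j, (fun c => X n c i) ⁻¹' W i) := by
    ext c
    simp only [GG, mem_inter_iff, mem_ofPred_eq, mem_iInter, Finset.mem_Icc, mem_preimage,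
      and_imp]
  rw [h1]
  refine (measurableSet_le measurable_const (measurable_Y n)).inter
    ((measurableSet_le (measurable_Y n) measurable_const).inter ?_)
  exact Finset.measurableSet_biInter _ fun i _ => measurable_X n i (hW i)

theorem X_ne {n : ℕ} (hn : 1 ≤ n) {c : ℂ} {j : ℕ} (hc : c ≠ 0) (hA : A n c j ≠ 0) :
    X n c (j + 1) ≠ 0 := by
  have h1 : X n c (j + 1) = n * c ^ (n - 1) * A n c j ^ n := rfl
  rw [h1]
  refine mul_ne_zero (mul_ne_zero ?_ (pow_ne_zero _ hc)) (pow_ne_zero _ hA)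
  have : n ≠ 0 := by omega
  exact_mod_cast this

/-- The modulus does not decrease after a point of the right half-plane. -/
theorem Y_le_X {n : ℕ} (hn : 1 ≤ n) {c : ℂ} {j : ℕ} (h : 0 ≤ (X n c j).re) :
    Y n c ≤ ‖X n c (j + 1)‖ := by
  have hn0 : (0:ℝ) < n := by exact_mod_cast hn
  rw [Pool.Agent.W12.MB.norm_X]
  have h1 : 1 ≤ ‖A n c j‖ := by
    have h2 : (A n c j).re = 1 + (X n c j).re / n := by
      unfold A
      rw [Complex.add_re, Complex.one_re, Complex.div_natCast_re]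
    have h3 : (A n c j).re ≤ ‖A n c j‖ := Complex.re_le_norm _
    have h4 : 0 ≤ (X n c j).re / n := by positivity
    linarith
  have h2 : 1 ≤ ‖A n c j‖ ^ n := one_le_pow₀ h1
  have h3 : 0 ≤ Y n c := by unfold Y; positivity
  nlinarith

theorem X_le_E2 {n : ℕ} (hn : 1 ≤ n) {c : ℂ} {j : ℕ} {t : ℝ} (h1 : ‖X n c j‖ ≤ t)
    (h2 : Y n c ≤ t) : ‖X n c (j + 1)‖ ≤ E2 t := by
  have hn0 : (0:ℝ) < n := by exact_mod_cast hn
  have ht : 0 ≤ t := (norm_nonneg _).trans h1
  rw [Pool.Agent.W12.MB.norm_X]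
  have h3 : ‖A n c j‖ ≤ Real.exp (t / n) := by
    have h2 := Real.add_one_le_exp (t / n)
    have h3 : ‖A n c j‖ ≤ 1 + ‖X n c j‖ / n := by
      unfold A
      refine (norm_add_le _ _).trans ?_
      rw [norm_one, norm_div, Complex.norm_natCast]
    have h4 : ‖X n c j‖ / n ≤ t / n := by gcongr
    linarith
  have h4 : ‖A n c j‖ ^ n ≤ Real.exp t := by
    calc ‖A n c j‖ ^ n ≤ Real.exp (t / n) ^ n := pow_le_pow_left₀ (norm_nonneg _) h3 _
      _ = Real.exp t := by
          rw [← Real.exp_nat_mul]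
          congr 1
          field_simp
  have h5 : t ≤ Real.exp t := by
    have := Real.add_one_le_exp t
    linarith
  calc Y n c * ‖A n c j‖ ^ n ≤ Real.exp t * Real.exp t := by
        apply mul_le_mul (h2.trans h5) h4 (by positivity) (Real.exp_pos _).le
    _ = E2 t := by
        unfold E2
        rw [← Real.exp_add]
        congr 1
        ring

/-- The moduli of `X i` for a parameter of `GG`. -/
theorem X_bounds {n : ℕ} (hn : 1 ≤ n) {W : ℕ → Set ℂ} {j : ℕ} {a b : ℝ}
    (hre : ∀ i, 1 ≤ i → i < j → ∀ z ∈ W i, 0 ≤ z.re) {c : ℂ} (hc : c ∈ GG n W j a b) :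
    ∀ i, 1 ≤ i → i ≤ j → a ≤ ‖X n c i‖ ∧ Y n c ≤ ‖X n c i‖ ∧ ‖X n c i‖ ≤ E2^[i - 1] b := by
  obtain ⟨h1, h2, h3⟩ := hc
  intro i hi
  induction i, hi using Nat.le_induction with
  | base =>
    intro _
    rw [norm_X1]
    exact ⟨h1, le_rfl, h2⟩
  | succ i hi ih =>
    intro hij
    obtain ⟨e1, e2, e3⟩ := ih (by omega)
    have h4 := Y_le_X hn (hre i hi (by omega) _ (h3 i hi (by omega)))
    refine ⟨h1.trans h4, h4, ?_⟩
    have h5 := X_le_E2 hn e3 (h2.trans (le_iter _ _))
    have h6 : i + 1 - 1 = (i - 1) + 1 := by omega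
    rw [h6, Function.iterate_succ_apply']
    exact h5

theorem stage {η κ : ℝ} (hη : 0 < η) (hη1 : η ≤ 1) (hκ : 0 < κ) (hκ1 : κ ≤ 1) :
    ∃ B Q : ℝ, 1 ≤ B ∧ 1 ≤ Q ∧ ∀ (n j : ℕ) (W W' : ℕ → Set ℂ) (a b : ℝ), B ≤ n → B ≤ a →
      (∀ i, 1 ≤ i → i < j → ∀ z ∈ W i, 0 ≤ z.re) →
      (∀ i, MeasurableSet (W i)) → (∀ i, MeasurableSet (W' i)) →
      (∀ z ∈ W' (j + 1), ∀ t : ℝ, 0 < t → (t : ℂ) * z ∈ W' (j + 1)) →
      (∀ i, 1 ≤ i → i ≤ j + 1 → ∀ z ∈ W' i, ∀ w, ‖w - z‖ ≤ κ * ‖z‖ → w ∈ W i) →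
      (∀ i < j, E2^[i] b ≤ n / 10) →
      ENNReal.ofReal (1 - η) * ang (W' (j + 1)) * volume (GG n W' j (Q * a) (b / Q)) ≤
        ENNReal.ofReal (2 * Real.pi) * volume (GG n W (j + 1) a b) := by
  have hpi := Real.pi_pos
  have hpi4 : Real.pi < 4 := by linarith [Real.pi_lt_d2]
  set T : ℝ := 16 / η with hT
  have hT0 : 0 < T := by positivity
  have hT16 : 16 ≤ T := by rw [hT, le_div_iff₀ hη]; nlinarith
  set ε : ℝ := η * κ / 16 with hε
  have hε0 : 0 < ε := by positivity
  have hεη : ε ≤ η / 16 := by rw [hε]; nlinarith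
  have hεκ : ε ≤ κ / 16 := by rw [hε]; nlinarith
  set R : ℝ := 2 * (T + Real.pi) with hR
  have hR1 : 1 ≤ R := by rw [hR]; linarith
  obtain ⟨B0, hB0, h0⟩ := lp_zero hR1 hε0 (by linarith)
  obtain ⟨B1, hB1, h1⟩ := lp_pos hR1 hε0 (by linarith)
  set Q : ℝ := max 2 (Real.exp (2 * R)) with hQ
  have hQ2 : 2 ≤ Q := le_max_left _ _
  have hQ0 : 0 < Q := by linarith
  refine ⟨max B0 (max B1 1), Q, le_max_of_le_right (le_max_right _ _), by linarith, ?_⟩
  intro n j W W' a b hn ha hre hWm hWm' hcone hWW hb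
  have hBn0 : B0 ≤ n := (le_max_left _ _).trans hn
  have hBn1 : B1 ≤ n := ((le_max_left _ _).trans (le_max_right _ _)).trans hn
  have hBa1 : B1 ≤ a := ((le_max_left _ _).trans (le_max_right _ _)).trans ha
  have ha1 : 1 ≤ a := ((le_max_right _ _).trans (le_max_right _ _)).trans ha
  have hn1R : (1:ℝ) ≤ n := ((le_max_right _ _).trans (le_max_right _ _)).trans hn
  have hn1 : 1 ≤ n := by exact_mod_cast hn1R
  have hn2 : 2 ≤ n := by
    -- `B0 ≥ 1` is not enough; use the bound for `n`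
    by_contra h
    have h3 : n = 1 := by omega
    subst h3
    have h4 := (h0 1 1 hBn0 one_ne_zero).L0
    apply h4
    rw [zero_add, Pool.Agent.W216.MB.BAS.L1]
    simp
  have hWW' : ∀ i, 1 ≤ i → i ≤ j + 1 → W' i ⊆ W i := by
    intro i h1 h2 z hz
    refine hWW i h1 h2 z hz z ?_
    rw [sub_self, norm_zero]
    positivity
  set P : Set ℂ := GG n W' j (Q * a) (b / Q) with hP
  set U : Set ℂ := GG n W j a b with hU
  set S : Set ℂ := (fun c => X n c (j + 1)) ⁻¹' W (j + 1) with hS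
  have hSU : S ∩ U = GG n W (j + 1) a b := by
    ext c
    constructor
    · rintro ⟨h2, h3, h4, h5⟩
      refine ⟨h3, h4, fun i h6 h7 => ?_⟩
      rcases Nat.lt_or_ge j i with h8 | h8
      · obtain rfl : i = j + 1 := by omega
        exact h2
      · exact h5 i h6 h8
    · rintro ⟨h3, h4, h5⟩
      exact ⟨h5 (j + 1) (by omega) le_rfl, h3, h4, fun i h6 h7 => h5 i h6 (by omega)⟩
  have hSm : MeasurableSet S := measurable_X n (j + 1) (hWm (j + 1))
  have hPm : MeasurableSet P := measurableSet_GG hWm' j _ _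
  -- the local control
  have hbQ : 0 ≤ b / Q → b / Q ≤ b := by
    intro h
    have : 0 ≤ b := by
      by_contra h3
      push Not at h3
      have := div_neg_of_neg_of_pos h3 hQ0
      linarith
    exact div_le_self this (by linarith)
  have hYpos : ∀ x ∈ P, 1 ≤ Y n x := by
    rintro x ⟨h2, -, -⟩
    nlinarith
  have hPU : ∀ x ∈ P, x ∈ GG n W j a b := by
    intro x hx
    have hY := hYpos x hx
    obtain ⟨h2, h3, h4⟩ := hx
    refine ⟨by nlinarith, h3.trans (hbQ (by linarith)), fun i h5 h6 => hWW' i h5 (by omega)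
      (h4 i h5 h6)⟩
  have hLP : ∀ x ∈ P, LP n j R ε Q x := by
    intro x hx
    have hx0 : x ≠ 0 := by
      rintro rfl
      have h2 := hYpos 0 hx
      unfold Y at h2
      rw [norm_zero, zero_pow (by omega)] at h2
      norm_num at h2
    rcases Nat.eq_zero_or_pos j with rfl | hj
    · have h2 := h0 n x hBn0 hx0
      refine ⟨h2.L0, h2.nz, h2.Lv, h2.Xv, fun c hc => ?_⟩
      obtain ⟨h3, h4⟩ := h2.Yv c hc
      have h5 : 0 ≤ Y n c := by unfold Y; positivity
      have h6 : 0 ≤ Y n x := by unfold Y; positivity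
      exact ⟨h3.trans (by gcongr; exact le_max_right _ _),
        h4.trans (by gcongr; exact le_max_right _ _)⟩
    · have hXb := X_bounds hn1 hre (hPU x hx)
      have h2 := h1 n j x hBn1 hj (fun i h3 h4 => by
        obtain ⟨g1, g2, g3⟩ := hXb i h3 h4
        exact ⟨hBa1.trans g1, g3.trans (hb _ (by omega))⟩)
      refine ⟨h2.L0, h2.nz, h2.Lv, h2.Xv, fun c hc => ?_⟩
      obtain ⟨h3, h4⟩ := h2.Yv c hc
      have h5 : 0 ≤ Y n c := by unfold Y; positivity
      have h6 : 0 ≤ Y n x := by unfold Y; positivity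
      exact ⟨h3.trans (by gcongr), h4.trans (by gcongr)⟩
  set ρ : ℂ → ℝ := fun x => (T + Real.pi) / ‖L n x (j + 1)‖ with hρ
  have hρm : Measurable ρ := by
    have := measurable_L n (j + 1)
    rw [hρ]
    fun_prop
  set κ' : ENNReal := ENNReal.ofReal ((T / (T + Real.pi)) ^ 2) * ang (W' (j + 1)) *
    (ENNReal.ofReal (2 * Real.pi))⁻¹ with hκ'
  have h2pi0 : ENNReal.ofReal (2 * Real.pi) ≠ 0 := by
    rw [Ne, ENNReal.ofReal_eq_zero, not_le]; positivity
  have h2pi1 : ENNReal.ofReal (2 * Real.pi) ≠ ⊤ := ENNReal.ofReal_ne_top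
  have havg := avg (P := P) (U := U) (S := S) (ρ := ρ) (κ := κ') (q := 1 + ε) hPm hSm hρm
    (by linarith) ?_ ?_
  · -- conclusion
    rw [hSU] at havg
    have h3 : ENNReal.ofReal (1 - η) ≤ ENNReal.ofReal ((T / (T + Real.pi)) ^ 2) *
        (ENNReal.ofReal ((1 + ε) ^ 4))⁻¹ := by
      rw [← ENNReal.ofReal_inv_of_pos (by positivity), ← ENNReal.ofReal_mul (by positivity)]
      apply ENNReal.ofReal_le_ofReal
      rw [← div_eq_mul_inv, le_div_iff₀ (by positivity)]
      have h4 : (1 + ε) ^ 4 ≤ 1 + 5 * ε := by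
        have e1 : ε ≤ 1 / 16 := by linarith
        have e2 : ε ^ 2 ≤ ε / 16 := by nlinarith
        have e3 : (1 + ε) ^ 2 = 1 + 2 * ε + ε ^ 2 := by ring
        have e4 : (1 + ε) ^ 2 ≤ 1 + (33 / 16) * ε := by linarith
        have e5 : (1 + ε) ^ 4 = ((1 + ε) ^ 2) ^ 2 := by ring
        rw [e5]
        calc ((1 + ε) ^ 2) ^ 2 ≤ (1 + (33 / 16) * ε) ^ 2 := by gcongr
          _ ≤ 1 + 5 * ε := by nlinarith
      have h5 : 1 - η / 2 ≤ (T / (T + Real.pi)) ^ 2 := by
        have e1 : T / (T + Real.pi) = 1 - Real.pi / (T + Real.pi) := by field_simp; ring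
        have e2 : Real.pi / (T + Real.pi) ≤ η / 4 := by
          rw [div_le_div_iff₀ (by positivity) (by norm_num)]
          have : η * T = 16 := by rw [hT]; field_simp
          nlinarith
        have e3 : 0 ≤ Real.pi / (T + Real.pi) := by positivity
        rw [e1]
        nlinarith
      rcases le_or_gt 0 (1 - η) with h6 | h6
      · calc (1 - η) * (1 + ε) ^ 4 ≤ (1 - η) * (1 + 5 * ε) := by gcongr
          _ ≤ 1 - η / 2 := by nlinarith
          _ ≤ _ := h5
      · have : (1 - η) * (1 + ε) ^ 4 ≤ 0 := by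
          apply mul_nonpos_of_nonpos_of_nonneg h6.le (by positivity)
        refine this.trans (by positivity)
    have hq0 : ENNReal.ofReal ((1 + ε) ^ 4) ≠ 0 := by
      rw [Ne, ENNReal.ofReal_eq_zero, not_le]; positivity
    have hq1 : ENNReal.ofReal ((1 + ε) ^ 4) ≠ ⊤ := ENNReal.ofReal_ne_top
    calc ENNReal.ofReal (1 - η) * ang (W' (j + 1)) * volume P
        ≤ (ENNReal.ofReal ((T / (T + Real.pi)) ^ 2) * (ENNReal.ofReal ((1 + ε) ^ 4))⁻¹) *
          ang (W' (j + 1)) * volume P := by gcongr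
      _ = (ENNReal.ofReal (2 * Real.pi) * (ENNReal.ofReal (2 * Real.pi))⁻¹) *
          ((ENNReal.ofReal ((T / (T + Real.pi)) ^ 2) * (ENNReal.ofReal ((1 + ε) ^ 4))⁻¹) *
          ang (W' (j + 1)) * volume P) := by rw [ENNReal.mul_inv_cancel h2pi0 h2pi1, one_mul]
      _ = ENNReal.ofReal (2 * Real.pi) * (ENNReal.ofReal ((1 + ε) ^ 4))⁻¹ * (κ' * volume P) := by
          rw [hκ']
          ring
      _ ≤ ENNReal.ofReal (2 * Real.pi) * (ENNReal.ofReal ((1 + ε) ^ 4))⁻¹ *
          (ENNReal.ofReal ((1 + ε) ^ 4) * volume (GG n W (j + 1) a b)) := by gcongr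
      _ = ENNReal.ofReal (2 * Real.pi) * ((ENNReal.ofReal ((1 + ε) ^ 4))⁻¹ *
          ENNReal.ofReal ((1 + ε) ^ 4)) * volume (GG n W (j + 1) a b) := by ring
      _ = _ := by rw [ENNReal.inv_mul_cancel hq0 hq1, mul_one]
  · -- the local estimate
    intro x hx
    have lp := hLP x hx
    set ω : ℂ := L n x (j + 1) with hω
    have hω0 : 0 < ‖ω‖ := norm_pos_iff.2 lp.L0
    have hρx : ρ x = (T + Real.pi) / ‖ω‖ := rfl
    have hρ0 : 0 < ρ x := by rw [hρx]; positivity
    have hbig : closedBall x (ρ x) ⊆ closedBall x (R / ‖ω‖) := by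
      apply closedBall_subset_closedBall
      rw [hρx, hR]
      gcongr
      linarith
    have hxPU := hPU x hx
    obtain ⟨p1, p2, p3⟩ := hx
    have hYx : 0 ≤ Y n x := by unfold Y; positivity
    refine ⟨hρ0, ?_, ?_⟩
    · intro c hc
      have hc' := hbig hc
      obtain ⟨y1, y2⟩ := lp.Yv c hc'
      refine ⟨?_, ?_, ?_⟩
      · have h3 : Q * a ≤ Q * Y n c := p1.trans y2
        exact le_of_mul_le_mul_left h3 hQ0
      · rw [le_div_iff₀ hQ0] at p2
        linarith
      · intro i h3 h4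
        refine hWW i h3 (by omega) _ (p3 i h3 h4) _ ?_
        refine (lp.Xv c hc' i h3 h4).trans ?_
        gcongr
        linarith
    · have hnzX : ∀ c ∈ closedBall x (R / ‖ω‖), X n c (j + 1) ≠ 0 := by
        intro c hc
        obtain ⟨h3, h4⟩ := lp.nz c hc
        exact X_ne hn1 h3 (h4 j (by omega))
      have hsmall : closedBall x (T / ‖ω‖) ⊆ closedBall x (R / ‖ω‖) := by
        apply closedBall_subset_closedBall
        rw [hR]
        gcongr
        linarith
      have hloc := local_tonelli (B := closedBall x (T / ‖ω‖)) (B' := closedBall x (ρ x))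
        (W := W (j + 1)) (W' := W' (j + 1)) (F := fun c => X n c (j + 1)) (s := Complex.I / ω)
        measurableSet_closedBall (measurable_X n (j + 1)) (hWm' (j + 1)) hcone
        (fun c hc => hnzX c (hsmall hc)) ?_
      · have hvol : volume (closedBall x (ρ x)) * ENNReal.ofReal ((T / (T + Real.pi)) ^ 2) =
            volume (closedBall x (T / ‖ω‖)) := by
          rw [Complex.volume_closedBall, Complex.volume_closedBall, hρx,
            ENNReal.ofReal_pow (by positivity)]
          have h3 : T / ‖ω‖ = (T + Real.pi) / ‖ω‖ * (T / (T + Real.pi)) := by field_simp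
          rw [h3, ENNReal.ofReal_mul (by positivity)]
          ring
        calc κ' * volume (closedBall x (ρ x))
            = (volume (closedBall x (ρ x)) * ENNReal.ofReal ((T / (T + Real.pi)) ^ 2)) *
              ang (W' (j + 1)) * (ENNReal.ofReal (2 * Real.pi))⁻¹ := by rw [hκ']; ring
          _ = volume (closedBall x (T / ‖ω‖)) * ang (W' (j + 1)) *
              (ENNReal.ofReal (2 * Real.pi))⁻¹ := by rw [hvol]
          _ ≤ (ENNReal.ofReal (2 * Real.pi) * volume (S ∩ closedBall x (ρ x))) *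
              (ENNReal.ofReal (2 * Real.pi))⁻¹ := by gcongr
          _ = (ENNReal.ofReal (2 * Real.pi) * (ENNReal.ofReal (2 * Real.pi))⁻¹) *
              volume (S ∩ closedBall x (ρ x)) := by ring
          _ = _ := by rw [ENNReal.mul_inv_cancel h2pi0 h2pi1, one_mul]
      · intro c hc θ hθ hW
        have hθ' : |θ| ≤ Real.pi := abs_le.2 ⟨hθ.1.le, hθ.2⟩
        have hin : ∀ z ∈ closedBall c (Real.pi / ‖ω‖), z ∈ closedBall x (ρ x) := by
          intro z hz
          rw [mem_closedBall] at hz hc ⊢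
          rw [hρx, add_div, add_comm]
          exact (dist_triangle z c x).trans (add_le_add hz hc)
        constructor
        · refine hWW (j + 1) (by omega) le_rfl _ hW _ ?_
          have hsh := shift_est (F := fun c => X n c (j + 1)) (ℓ := fun c => L n c (j + 1))
            (c := c) (ω := ω) (ε := ε) (θ := θ) lp.L0 hε0 (by linarith) hθ' (fun z hz => by
              have hz' := hbig (hin z hz)
              obtain ⟨h3, h4⟩ := lp.nz z hz'
              exact ⟨(Pool.Agent.W366.MB.main n hn2 z (j + 1) h3 h4).1, lp.Lv z hz'⟩)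
          refine hsh.trans ?_
          have h5 : ‖Complex.exp (θ * Complex.I) * X n c (j + 1)‖ = ‖X n c (j + 1)‖ := by
            rw [norm_mul, Complex.norm_exp_ofReal_mul_I, one_mul]
          rw [h5]
          gcongr
          linarith
        · apply hin
          rw [mem_closedBall, dist_eq_norm, add_sub_cancel_left, norm_mul, norm_div,
            Complex.norm_I, Complex.norm_real, Real.norm_eq_abs]
          calc |θ| * (1 / ‖ω‖) ≤ Real.pi * (1 / ‖ω‖) := by gcongr
            _ = Real.pi / ‖ω‖ := by ring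
  · -- slow variation
    intro x hx y hy hd
    have lpx := hLP x hx
    have lpy := hLP y hy
    have hx0 : 0 < ‖L n x (j + 1)‖ := norm_pos_iff.2 lpx.L0
    have hy0 : 0 < ‖L n y (j + 1)‖ := norm_pos_iff.2 lpy.L0
    have hρx : ρ x = (T + Real.pi) / ‖L n x (j + 1)‖ := rfl
    have hρy : ρ y = (T + Real.pi) / ‖L n y (j + 1)‖ := rfl
    rcases le_total ‖L n x (j + 1)‖ ‖L n y (j + 1)‖ with h3 | h3
    · have h4 : ρ y ≤ ρ x := by rw [hρx, hρy]; gcongr
      have h5 : y ∈ closedBall x (R / ‖L n x (j + 1)‖) := by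
        rw [mem_closedBall, dist_comm]
        have h6 : R / ‖L n x (j + 1)‖ = 2 * ρ x := by rw [hρx, hR]; ring
        rw [h6]
        linarith
      have h6 := norm_le_of_sub (lpx.Lv y h5)
      rw [hρx, hρy, ← mul_div_assoc, div_le_div_iff₀ hx0 hy0]
      have h7 : ‖L n y (j + 1)‖ ≤ (1 + ε) * ‖L n x (j + 1)‖ := by linarith
      calc (T + Real.pi) * ‖L n y (j + 1)‖ ≤ (T + Real.pi) * ((1 + ε) * ‖L n x (j + 1)‖) := by
            gcongr
        _ = _ := by ring
    · have h4 : ρ x ≤ ρ y := by rw [hρx, hρy]; gcongr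
      have h5 : 0 < ρ y := by rw [hρy]; positivity
      nlinarith

end Pool.Agent.K3h79.MA
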