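import Mathlib
import Pool.Agent.K3h79.MA.Stage

/-! Several stages: joint equidistribution of the directions, as a lower bound for open cones. -/

set_option autoImplicit false
open Metric MeasureTheory Set Filter Topology

namespace Pool.Agent.K3h79.MA

open Pool.Agent.W747.MB Pool.Agent.TH363.CD

/-- An open cone. -/
structure OC (V : Set ℂ) : Prop where
  op : IsOpen V
  nz : (0:ℂ) ∉ V
  cone : ∀ z ∈ V, ∀ t : ℝ, 0 < t → (t : ℂ) * z ∈ V

/-- The shrunk cone. -/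
def shr (κ : ℝ) (V : Set ℂ) : Set ℂ := {z | κ * ‖z‖ < infDist z Vᶜ}

theorem OC.ne {V : Set ℂ} (h : OC V) : (Vᶜ).Nonempty := ⟨0, h.nz⟩

theorem shr_sub {κ : ℝ} {V : Set ℂ} {z w : ℂ} (hz : z ∈ shr κ V) (hw : ‖w - z‖ ≤ κ * ‖z‖) :
    w ∈ V := by
  by_contra h
  have h1 : infDist z Vᶜ ≤ dist z w := infDist_le_dist_of_mem h
  rw [dist_comm, dist_eq_norm] at h1
  have h2 : κ * ‖z‖ < infDist z Vᶜ := hz
  linarith

theorem infDist_cone {V : Set ℂ} (h : OC V) {z : ℂ} {t : ℝ} (ht : 0 < t) :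
    t * infDist z Vᶜ ≤ infDist ((t:ℂ) * z) Vᶜ := by
  rw [le_infDist h.ne]
  intro w hw
  have h1 : ((t⁻¹ : ℝ) : ℂ) * w ∈ Vᶜ := by
    intro h2
    apply hw
    have h3 := h.cone _ h2 t ht
    rwa [← mul_assoc, ← Complex.ofReal_mul, mul_inv_cancel₀ ht.ne', Complex.ofReal_one,
      one_mul] at h3
  have h2 : infDist z Vᶜ ≤ dist z (((t⁻¹ : ℝ) : ℂ) * w) := infDist_le_dist_of_mem h1
  have h3 : dist ((t:ℂ) * z) w = t * dist z (((t⁻¹ : ℝ) : ℂ) * w) := by
    rw [dist_eq_norm, dist_eq_norm]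
    have h4 : (t:ℂ) * z - w = (t:ℂ) * (z - ((t⁻¹ : ℝ) : ℂ) * w) := by
      rw [mul_sub, ← mul_assoc, ← Complex.ofReal_mul, mul_inv_cancel₀ ht.ne', Complex.ofReal_one,
        one_mul]
    rw [h4, norm_mul, Complex.norm_real, Real.norm_eq_abs, abs_of_pos ht]
  rw [h3]
  gcongr

theorem shr_OC {κ : ℝ} {V : Set ℂ} (h : OC V) : OC (shr κ V) := by
  refine ⟨?_, ?_, ?_⟩
  · exact isOpen_lt (by fun_prop) (continuous_infDist_pt _)
  · intro h0
    have h1 : κ * ‖(0:ℂ)‖ < infDist (0:ℂ) Vᶜ := h0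
    have h2 : infDist (0:ℂ) Vᶜ = 0 := infDist_zero_of_mem h.nz
    rw [h2] at h1
    simp at h1
  · intro z hz t ht
    have h1 : κ * ‖z‖ < infDist z Vᶜ := hz
    show κ * ‖(t:ℂ) * z‖ < _
    rw [norm_mul, Complex.norm_real, Real.norm_eq_abs, abs_of_pos ht]
    have h2 := infDist_cone h (z := z) ht
    nlinarith

theorem shr_self_sub {κ : ℝ} (hκ : 0 < κ) {V : Set ℂ} : shr κ V ⊆ V := by
  intro z hz
  refine shr_sub hz ?_
  rw [sub_self, norm_zero]
  positivity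

/-- The proportion of directions in a cone. -/
noncomputable def pr (V : Set ℂ) : ℝ := (ang V).toReal / (2 * Real.pi)

theorem ang_le (V : Set ℂ) : ang V ≤ ENNReal.ofReal (2 * Real.pi) := by
  unfold ang
  calc volume (angS V ∩ Ioc (-Real.pi) Real.pi) ≤ volume (Ioc (-Real.pi) Real.pi) :=
        measure_mono inter_subset_right
    _ = _ := by rw [Real.volume_Ioc]; congr 1; ring

theorem ang_ne (V : Set ℂ) : ang V ≠ ⊤ := ne_top_of_le_ne_top ENNReal.ofReal_ne_top (ang_le V)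

theorem pr_nonneg (V : Set ℂ) : 0 ≤ pr V := by
  unfold pr
  have := Real.pi_pos
  positivity

theorem pr_le_one (V : Set ℂ) : pr V ≤ 1 := by
  unfold pr
  have hpi := Real.pi_pos
  rw [div_le_one (by positivity)]
  exact ENNReal.toReal_le_of_le_ofReal (by positivity) (ang_le V)

theorem ang_mono {V W : Set ℂ} (h : V ⊆ W) : ang V ≤ ang W := by
  unfold ang
  apply measure_mono
  rintro θ ⟨h1, h2⟩
  exact ⟨h h1, h2⟩

theorem pr_mono {V W : Set ℂ} (h : V ⊆ W) : pr V ≤ pr W := by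
  unfold pr
  have hpi := Real.pi_pos
  gcongr
  · exact ang_ne W
  · exact ang_mono h

/-- Continuity from below. -/
theorem ang_tendsto {V : Set ℂ} {F : ℕ → Set ℂ} (hF : Monotone F) (hU : ⋃ m, F m = V) :
    Tendsto (fun m => pr (F m)) atTop (𝓝 (pr V)) := by
  unfold pr
  apply Tendsto.div_const
  rw [ENNReal.tendsto_toReal_iff (fun m => ang_ne _) (ang_ne _)]
  unfold ang
  have h1 : angS V ∩ Ioc (-Real.pi) Real.pi = ⋃ m, angS (F m) ∩ Ioc (-Real.pi) Real.pi := by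
    rw [← iUnion_inter]
    congr 1
    ext θ
    unfold angS
    simp only [mem_ofPred_eq, mem_iUnion, ← hU]
  rw [h1]
  refine tendsto_measure_iUnion_atTop ?_
  intro m m' hm θ hθ
  exact ⟨hF hm hθ.1, hθ.2⟩

theorem pr_shr {V : Set ℂ} (h : OC V) {η : ℝ} (hη : 0 < η) :
    ∃ κ₀ : ℝ, 0 < κ₀ ∧ κ₀ ≤ 1 ∧ ∀ κ, 0 < κ → κ ≤ κ₀ → pr V - η ≤ pr (shr κ V) := by
  have h1 : Tendsto (fun m : ℕ => pr (shr (1 / ((m:ℝ) + 1)) V)) atTop (𝓝 (pr V)) := by
    apply ang_tendsto
    · intro m m' hm z hz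
      have h2 : 1 / ((m:ℝ) + 1) * ‖z‖ < infDist z Vᶜ := hz
      show 1 / ((m':ℝ) + 1) * ‖z‖ < infDist z Vᶜ
      refine lt_of_le_of_lt ?_ h2
      gcongr
    · ext z
      rw [mem_iUnion]
      constructor
      · rintro ⟨m, hm⟩
        exact shr_self_sub (by positivity) hm
      · intro hz
        have h2 : 0 < infDist z Vᶜ := by
          rw [← (h.op.isClosed_compl).notMem_iff_infDist_pos h.ne]
          exact fun h' => h' hz
        have hz0 : z ≠ 0 := by
          rintro rfl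
          exact h.nz hz
        obtain ⟨m, hm⟩ := exists_nat_gt (‖z‖ / infDist z Vᶜ)
        refine ⟨m, ?_⟩
        show 1 / ((m:ℝ) + 1) * ‖z‖ < infDist z Vᶜ
        rw [div_lt_iff₀ h2] at hm
        rw [one_div_mul_eq_div, div_lt_iff₀ (by positivity)]
        nlinarith
  have h2 : ∀ᶠ m : ℕ in atTop, pr V - η < pr (shr (1 / ((m:ℝ) + 1)) V) :=
    h1.eventually (lt_mem_nhds (by linarith))
  obtain ⟨m, hm⟩ := h2.exists
  refine ⟨1 / ((m:ℝ) + 1), by positivity, ?_, ?_⟩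
  · rw [div_le_one (by positivity)]
    have : (0:ℝ) ≤ m := Nat.cast_nonneg m
    linarith
  · intro κ h3 h4
    refine hm.le.trans (pr_mono ?_)
    intro z hz
    have h5 : 1 / ((m:ℝ) + 1) * ‖z‖ < infDist z Vᶜ := hz
    show κ * ‖z‖ < infDist z Vᶜ
    refine lt_of_le_of_lt ?_ h5
    gcongr

theorem prod_arith {p p' v v' η : ℝ} (hη : 0 < η) (h1 : p - η / 2 ≤ p') (h2 : v - η / 2 ≤ v')
    (hp0 : 0 ≤ p') (hp1 : p' ≤ 1) (hv0 : 0 ≤ v) (hv1 : v ≤ 1) : p * v - η ≤ p' * v' := by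
  have e : p * v - p' * v' = (p - p') * v + p' * (v - v') := by ring
  nlinarith

/-- All the cones at the same time. -/
theorem pr_shr_prod {V : ℕ → Set ℂ} (h : ∀ i, OC (V i)) (j : ℕ) {η : ℝ} (hη : 0 < η) :
    ∃ κ : ℝ, 0 < κ ∧ κ ≤ 1 ∧
      ∏ i ∈ Finset.Icc 1 j, pr (V i) - η ≤ ∏ i ∈ Finset.Icc 1 j, pr (shr κ (V i)) := by
  have key : ∀ j, ∀ η : ℝ, 0 < η → ∃ κ₀ : ℝ, 0 < κ₀ ∧ κ₀ ≤ 1 ∧ ∀ κ, 0 < κ → κ ≤ κ₀ →
      ∏ i ∈ Finset.Icc 1 j, pr (V i) - η ≤ ∏ i ∈ Finset.Icc 1 j, pr (shr κ (V i)) := by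
    intro j
    induction j with
    | zero =>
      intro η hη
      refine ⟨1, one_pos, le_rfl, fun κ h1 h2 => ?_⟩
      simp
      linarith
    | succ j ih =>
      intro η hη
      obtain ⟨κ₁, h1, h2, h3⟩ := ih (η / 2) (by positivity)
      obtain ⟨κ₂, h4, h5, h6⟩ := pr_shr (h (j + 1)) (η := η / 2) (by positivity)
      refine ⟨min κ₁ κ₂, lt_min h1 h4, (min_le_left _ _).trans h2, fun κ h7 h8 => ?_⟩
      have h9 := h3 κ h7 (h8.trans (min_le_left _ _))
      have h10 := h6 κ h7 (h8.trans (min_le_right _ _))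
      rw [Finset.prod_Icc_succ_top (by omega), Finset.prod_Icc_succ_top (by omega)]
      exact prod_arith hη h9 h10 (Finset.prod_nonneg fun i _ => pr_nonneg _)
        (Finset.prod_le_one (fun i _ => pr_nonneg _) fun i _ => pr_le_one _)
        (pr_nonneg _) (pr_le_one _)
  obtain ⟨κ₀, h1, h2, h3⟩ := key j η hη
  exact ⟨κ₀, h1, h2, h3 κ₀ h1 le_rfl⟩

/-- The annulus. -/
def ann (n : ℕ) (a b : ℝ) : Set ℂ := {c | a ≤ Y n c ∧ Y n c ≤ b}

theorem GG_zero (n : ℕ) (W : ℕ → Set ℂ) (a b : ℝ) : GG n W 0 a b = ann n a b := by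
  ext c
  constructor
  · rintro ⟨h1, h2, -⟩
    exact ⟨h1, h2⟩
  · rintro ⟨h1, h2⟩
    exact ⟨h1, h2, fun i h3 h4 => by omega⟩

theorem ann_finite {n : ℕ} (hn : 2 ≤ n) (a b : ℝ) : volume (ann n a b) ≠ ⊤ := by
  have hn0 : (1:ℝ) ≤ n := by
    have : 1 ≤ n := by omega
    exact_mod_cast this
  have h1 : ann n a b ⊆ closedBall 0 (max 1 b) := by
    rintro c ⟨-, h2⟩
    rw [mem_closedBall, dist_zero_right]
    by_contra h
    push Not at h
    have h3 : 1 < ‖c‖ := lt_of_le_of_lt (le_max_left _ _) h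
    have h4 : b < ‖c‖ := lt_of_le_of_lt (le_max_right _ _) h
    have h5 : ‖c‖ ≤ ‖c‖ ^ (n - 1) := le_self_pow₀ h3.le (by omega)
    have h6 : Y n c = n * ‖c‖ ^ (n - 1) := rfl
    nlinarith
  exact ne_top_of_le_ne_top measure_closedBall_lt_top.ne (measure_mono h1)

theorem GG_sub_ann (n : ℕ) (W : ℕ → Set ℂ) (j : ℕ) (a b : ℝ) : GG n W j a b ⊆ ann n a b :=
  fun _ h => ⟨h.1, h.2.1⟩

/-- Joint equidistribution, lower bound. -/
theorem multi (j : ℕ) : ∀ (V : ℕ → Set ℂ), (∀ i, OC (V i)) →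
    (∀ i, 1 ≤ i → i < j → ∀ z ∈ V i, 0 ≤ z.re) → ∀ η : ℝ, 0 < η →
    ∃ B Q : ℝ, 1 ≤ B ∧ 1 ≤ Q ∧ ∀ (n : ℕ) (a b : ℝ), B ≤ n → B ≤ a →
      (∀ i, i + 1 < j → E2^[i] b ≤ n / 10) →
      (∏ i ∈ Finset.Icc 1 j, pr (V i) - η) * volume.real (ann n (Q * a) (b / Q)) ≤
        volume.real (GG n V j a b) := by
  induction j with
  | zero =>
    intro V hV hre η hη
    refine ⟨2, 1, by norm_num, le_rfl, fun n a b hn ha hb => ?_⟩
    rw [GG_zero, one_mul, div_one]
    simp only [Finset.Icc_eq_empty_of_lt zero_lt_one, Finset.prod_empty]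
    have : 0 ≤ volume.real (ann n a b) := measureReal_nonneg
    nlinarith
  | succ j ih =>
    intro V hV hre η hη
    obtain ⟨κ, hκ0, hκ1, hκ⟩ := pr_shr_prod hV (j + 1) (η := η / 3) (by positivity)
    set V' : ℕ → Set ℂ := fun i => shr κ (V i) with hV'
    have hV'OC : ∀ i, OC (V' i) := fun i => shr_OC (hV i)
    set η' : ℝ := min (η / 3) 1 with hη'
    have hη'0 : 0 < η' := lt_min (by positivity) one_pos
    obtain ⟨B₁, Q₁, hB₁, hQ₁, hst⟩ := stage (η := η') (κ := κ) hη'0 (min_le_right _ _) hκ0 hκ1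
    obtain ⟨B₂, Q₂, hB₂, hQ₂, hih⟩ := ih V' hV'OC
      (fun i h1 h2 z hz => hre i h1 (by omega) z (shr_self_sub hκ0 hz)) (η / 3) (by positivity)
    refine ⟨max 2 (max B₁ B₂), Q₂ * Q₁, le_trans (by norm_num) (le_max_left _ _),
      one_le_mul_of_one_le_of_one_le hQ₂ hQ₁, ?_⟩
    intro n a b hn ha hb
    have hn2R : (2:ℝ) ≤ n := (le_max_left _ _).trans hn
    have hn2 : 2 ≤ n := by exact_mod_cast hn2R
    have hB₁n : B₁ ≤ n := ((le_max_left _ _).trans (le_max_right _ _)).trans hn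
    have hB₂n : B₂ ≤ n := ((le_max_right _ _).trans (le_max_right _ _)).trans hn
    have hB₁a : B₁ ≤ a := ((le_max_left _ _).trans (le_max_right _ _)).trans ha
    have hB₂a : B₂ ≤ a := ((le_max_right _ _).trans (le_max_right _ _)).trans ha
    have ha0 : 0 < a := by linarith
    have h1 := hst n j V V' a b hB₁n hB₁a (fun i h1 h2 => hre i h1 (by omega))
      (fun i => (hV i).op.measurableSet) (fun i => (hV'OC i).op.measurableSet)
      (hV'OC (j + 1)).cone (fun i _ _ z hz w hw => shr_sub hz hw) (fun i hi => hb i (by omega))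
    have hQ1pos : 0 < Q₁ := by linarith
    have h2 := hih n (Q₁ * a) (b / Q₁) hB₂n (by nlinarith) (by
      intro i hi
      have h3 := hb i (by omega)
      rcases le_or_gt 0 b with h4 | h4
      · exact (E2_mono.iterate i (div_le_self h4 hQ₁)).trans h3
      · -- negative `b`
        have h5 : b / Q₁ ≤ 0 := (div_neg_of_neg_of_pos h4 hQ1pos).le
        have h6 := hb (i + 1) (by omega)
        refine le_trans (E2_mono.iterate i h5) (le_trans ?_ h6)
        rw [Function.iterate_succ_apply]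
        apply E2_mono.iterate i
        unfold E2
        positivity)
    have e1 : Q₂ * (Q₁ * a) = Q₂ * Q₁ * a := by ring
    have e2 : b / Q₁ / Q₂ = b / (Q₂ * Q₁) := by rw [div_div, mul_comm Q₁]
    rw [e1, e2] at h2
    set m := volume.real (ann n (Q₂ * Q₁ * a) (b / (Q₂ * Q₁))) with hm
    have hm0 : 0 ≤ m := measureReal_nonneg
    set g := volume.real (GG n V' j (Q₁ * a) (b / Q₁)) with hg
    have hpi := Real.pi_pos
    have hfin1 : volume (GG n V' j (Q₁ * a) (b / Q₁)) ≠ ⊤ :=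
      ne_top_of_le_ne_top (ann_finite hn2 _ _) (measure_mono (GG_sub_ann _ _ _ _ _))
    have hfin2 : volume (GG n V (j + 1) a b) ≠ ⊤ :=
      ne_top_of_le_ne_top (ann_finite hn2 _ _) (measure_mono (GG_sub_ann _ _ _ _ _))
    have h3 : (1 - η') * pr (V' (j + 1)) * g ≤ volume.real (GG n V (j + 1) a b) := by
      have h4 := ENNReal.toReal_mono (ENNReal.mul_ne_top ENNReal.ofReal_ne_top hfin2) h1
      rw [ENNReal.toReal_mul, ENNReal.toReal_mul, ENNReal.toReal_mul,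
        ENNReal.toReal_ofReal (by linarith [min_le_right (η / 3) (1:ℝ)]),
        ENNReal.toReal_ofReal (by positivity)] at h4
      have h5 : (ang (V' (j + 1))).toReal = 2 * Real.pi * pr (V' (j + 1)) := by
        unfold pr; field_simp
      rw [h5] at h4
      have h6 : 2 * Real.pi * ((1 - η') * pr (V' (j + 1)) * g) ≤
          2 * Real.pi * volume.real (GG n V (j + 1) a b) := by
        calc 2 * Real.pi * ((1 - η') * pr (V' (j + 1)) * g)
            = (1 - η') * (2 * Real.pi * pr (V' (j + 1))) * g := by ring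
          _ ≤ _ := h4
      exact le_of_mul_le_mul_left h6 (by positivity)
    refine le_trans ?_ h3
    rw [Finset.prod_Icc_succ_top (by omega), Finset.prod_Icc_succ_top (by omega)] at hκ
    rw [Finset.prod_Icc_succ_top (by omega)]
    set p := ∏ i ∈ Finset.Icc 1 j, pr (V i) with hp
    set p' := ∏ i ∈ Finset.Icc 1 j, pr (V' i) with hp'
    have hp'0 : 0 ≤ p' := Finset.prod_nonneg fun i _ => pr_nonneg _
    have hp'1 : p' ≤ 1 := Finset.prod_le_one (fun i _ => pr_nonneg _) fun i _ => pr_le_one _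
    have q0 := pr_nonneg (V' (j + 1))
    have q1 := pr_le_one (V' (j + 1))
    have hη'1 : η' ≤ 1 := min_le_right _ _
    have hη'3 : η' ≤ η / 3 := min_le_left _ _
    have hg0 : 0 ≤ g := measureReal_nonneg
    have h7 : p * pr (V (j + 1)) - η / 3 ≤ p' * pr (V' (j + 1)) := hκ
    have h8 : (p' - η / 3) * m ≤ g := h2
    have h9 : (1 - η') * pr (V' (j + 1)) * ((p' - η / 3) * m) ≤
        (1 - η') * pr (V' (j + 1)) * g := by
      apply mul_le_mul_of_nonneg_left h8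
      apply mul_nonneg (by linarith) q0
    refine le_trans ?_ h9
    have h10 : p * pr (V (j + 1)) - η ≤ (1 - η') * pr (V' (j + 1)) * (p' - η / 3) := by
      have e3 : (1 - η') * pr (V' (j + 1)) * (p' - η / 3) = p' * pr (V' (j + 1)) -
        η' * (pr (V' (j + 1)) * p') - (1 - η') * pr (V' (j + 1)) * (η / 3) := by ring
      have e4 : η' * (pr (V' (j + 1)) * p') ≤ η / 3 := by
        have : pr (V' (j + 1)) * p' ≤ 1 := mul_le_one₀ q1 hp'0 hp'1
        nlinarith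
      have e5 : (1 - η') * pr (V' (j + 1)) * (η / 3) ≤ η / 3 := by
        have : (1 - η') * pr (V' (j + 1)) ≤ 1 := mul_le_one₀ (by linarith) q0 q1
        nlinarith
      linarith
    calc (p * pr (V (j + 1)) - η) * m ≤ ((1 - η') * pr (V' (j + 1)) * (p' - η / 3)) * m := by
          gcongr
      _ = _ := by ring

end Pool.Agent.K3h79.MA
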