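import Mathlib
import Pool.Agent.K3h79.MA.Multi
import Pool.Agent.TH363.CD.Ann

/-! The area of an annulus, with the exact constant. -/

set_option autoImplicit false
open Metric MeasureTheory Set Filter Topology

namespace Pool.Agent.K3h79.MA

open Pool.Agent.W747.MB Pool.Agent.TH363.CD

theorem disc_eq {n : ℕ} (hn : 2 ≤ n) {b : ℝ} (hb : 0 < b) :
    {c : ℂ | Y n c ≤ b} = closedBall 0 (Real.exp (Real.log (b / n) / ((n:ℝ) - 1))) ∧
    {c : ℂ | Y n c < b} = ball 0 (Real.exp (Real.log (b / n) / ((n:ℝ) - 1))) := by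
  have hn2 : (2:ℝ) ≤ n := by exact_mod_cast hn
  have hn0 : (0 : ℝ) < n := by linarith
  have hn1 : (0 : ℝ) < (n : ℝ) - 1 := by linarith
  have hcast : ((n - 1 : ℕ) : ℝ) = (n : ℝ) - 1 := by
    rw [Nat.cast_sub (by omega), Nat.cast_one]
  set R : ℝ := Real.exp (Real.log (b / n) / ((n:ℝ) - 1)) with hR
  have hR0 : 0 < R := Real.exp_pos _
  have hRp : R ^ (n - 1) = b / n := by
    rw [hR, ← Real.exp_nat_mul, hcast, mul_div_cancel₀ _ hn1.ne', Real.exp_log (by positivity)]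
  have hne : n - 1 ≠ 0 := by omega
  have hYd : ∀ c, Y n c = n * ‖c‖ ^ (n - 1) := fun c => rfl
  constructor
  · ext c
    rw [mem_closedBall, dist_zero_right, mem_ofPred_eq, hYd]
    rw [← pow_le_pow_iff_left₀ (norm_nonneg c) hR0.le hne, hRp, le_div_iff₀ hn0, mul_comm]
  · ext c
    rw [mem_ball, dist_zero_right, mem_ofPred_eq, hYd]
    rw [← pow_lt_pow_iff_left₀ (norm_nonneg c) hR0.le hne, hRp, lt_div_iff₀ hn0, mul_comm]

theorem disc_vol {n : ℕ} (hn : 2 ≤ n) {b : ℝ} (hb : 0 < b) :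
    volume.real {c : ℂ | Y n c ≤ b} = Real.pi * Real.exp (2 * Real.log (b / n) / ((n:ℝ) - 1)) ∧
    volume.real {c : ℂ | Y n c < b} =
      Real.pi * Real.exp (2 * Real.log (b / n) / ((n:ℝ) - 1)) := by
  obtain ⟨h1, h2⟩ := disc_eq hn hb
  have hpi : (0:ℝ) ≤ Real.pi := Real.pi_pos.le
  have e : Real.exp (Real.log (b / n) / ((n:ℝ) - 1)) ^ 2 =
      Real.exp (2 * Real.log (b / n) / ((n:ℝ) - 1)) := by
    rw [← Real.exp_nat_mul]
    congr 1
    push_cast
    ring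
  rw [h1, h2, measureReal_def, measureReal_def, Complex.volume_closedBall, Complex.volume_ball,
    ENNReal.toReal_mul, ENNReal.toReal_pow, ENNReal.toReal_ofReal (Real.exp_pos _).le, e]
  have : ((NNReal.pi : ENNReal)).toReal = Real.pi := by
    rw [ENNReal.coe_toReal, NNReal.coe_real_pi]
  rw [this, mul_comm]
  exact ⟨rfl, rfl⟩

theorem ann_vol {n : ℕ} (hn : 2 ≤ n) {a b : ℝ} (ha : 0 < a) (hab : a ≤ b) :
    volume.real (ann n a b) = Real.pi * Real.exp (2 * Real.log (b / n) / ((n:ℝ) - 1)) -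
      Real.pi * Real.exp (2 * Real.log (a / n) / ((n:ℝ) - 1)) := by
  have hb : 0 < b := ha.trans_le hab
  have h1 : ann n a b = {c : ℂ | Y n c ≤ b} \ {c : ℂ | Y n c < a} := by
    ext c
    simp only [ann, mem_ofPred_eq, Set.mem_sdiff, not_lt]
    tauto
  have hsub : {c : ℂ | Y n c < a} ⊆ {c : ℂ | Y n c ≤ b} := fun c hc =>
    (show Y n c < a from hc).le.trans hab
  have hm : MeasurableSet {c : ℂ | Y n c < a} := by
    rw [(disc_eq hn ha).2]; exact measurableSet_ball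
  rw [h1, measureReal_sdiff hsub hm (by
    rw [(disc_eq hn hb).1]; exact measure_closedBall_lt_top.ne), (disc_vol hn hb).1,
    (disc_vol hn ha).2]

theorem ann_lower (ε : ℝ) (hε : 0 < ε) : ∀ᶠ n : ℕ in atTop, ∀ a b : ℝ, 1 ≤ a → a ≤ b →
    (1 - ε) * (2 * Real.pi * Real.log (b / a) / n) ≤ volume.real (ann n a b) := by
  have hlim : Tendsto (fun n : ℕ => 2 * Real.log (n:ℝ) / (n:ℝ)) atTop (𝓝 0) := by
    have h1 : Tendsto (fun x : ℝ => Real.log x / x) atTop (𝓝 0) := by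
      have := Real.isLittleO_log_id_atTop.tendsto_div_nhds_zero
      simpa using this
    have h2 := (h1.comp tendsto_natCast_atTop_atTop).const_mul 2
    rw [mul_zero] at h2
    refine h2.congr fun n => ?_
    simp only [Function.comp_apply]
    ring
  filter_upwards [hlim.eventually (gt_mem_nhds (show (0:ℝ) < ε / 2 by positivity)),
    eventually_ge_atTop 2] with n h1 h2 a b ha hab
  have hn2 : (2:ℝ) ≤ n := by exact_mod_cast h2
  have hn0 : (0 : ℝ) < n := by linarith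
  have hn1 : (0 : ℝ) < (n : ℝ) - 1 := by linarith
  have ha0 : 0 < a := by linarith
  have hb0 : 0 < b := by linarith
  have hpi := Real.pi_pos
  rw [ann_vol h2 ha0 hab]
  set ℓ := Real.log (b / a) with hℓ
  have hℓ0 : 0 ≤ ℓ := Real.log_nonneg (by rw [le_div_iff₀ ha0]; linarith)
  have e1 : Real.log (b / n) = Real.log (a / n) + ℓ := by
    rw [hℓ, ← Real.log_mul (by positivity) (by positivity)]
    congr 1
    field_simp
  set t := 2 * Real.log (a / n) / ((n:ℝ) - 1) with ht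
  have e2 : 2 * Real.log (b / n) / ((n:ℝ) - 1) = t + 2 * ℓ / ((n:ℝ) - 1) := by
    rw [e1, ht]; ring
  rw [e2, Real.exp_add]
  have h3 : 1 - ε ≤ Real.exp t := by
    have h4 := Real.add_one_le_exp t
    have h5 : -ε ≤ t := by
      rw [ht, le_div_iff₀ hn1, Real.log_div ha0.ne' hn0.ne']
      have h6 : 0 ≤ Real.log a := Real.log_nonneg ha
      rw [div_lt_iff₀ hn0] at h1
      nlinarith
    linarith
  have h4 : 2 * ℓ / ((n:ℝ) - 1) ≤ Real.exp (2 * ℓ / ((n:ℝ) - 1)) - 1 := by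
    have := Real.add_one_le_exp (2 * ℓ / ((n:ℝ) - 1))
    linarith
  have h5 : 2 * ℓ / n ≤ 2 * ℓ / ((n:ℝ) - 1) := by
    gcongr
    linarith
  have h6 : 0 ≤ 2 * ℓ / n := by positivity
  calc (1 - ε) * (2 * Real.pi * ℓ / n) = Real.pi * ((1 - ε) * (2 * ℓ / n)) := by ring
    _ ≤ Real.pi * (Real.exp t * (2 * ℓ / n)) := by gcongr
    _ ≤ Real.pi * (Real.exp t * (Real.exp (2 * ℓ / ((n:ℝ) - 1)) - 1)) := by
        gcongr
        exact h5.trans h4
    _ = _ := by ring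

theorem ann_upper (ε : ℝ) (hε : 0 < ε) : ∀ᶠ n : ℕ in atTop, ∀ a b : ℝ, 0 < a → a ≤ b →
    b ≤ n → volume.real (ann n a b) ≤ (1 + ε) * (2 * Real.pi * Real.log (b / a) / n) := by
  have hlim : Tendsto (fun n : ℕ => (n:ℝ)) atTop atTop := tendsto_natCast_atTop_atTop
  filter_upwards [hlim.eventually_ge_atTop (1 + 1 / ε), eventually_ge_atTop 2] with n h1 h2 a b
    ha0 hab hbn
  have hn2 : (2:ℝ) ≤ n := by exact_mod_cast h2
  have hn0 : (0 : ℝ) < n := by linarith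
  have hn1 : (0 : ℝ) < (n : ℝ) - 1 := by linarith
  have hb0 : 0 < b := by linarith
  have hpi := Real.pi_pos
  rw [ann_vol h2 ha0 hab]
  set ℓ := Real.log (b / a) with hℓ
  have hℓ0 : 0 ≤ ℓ := Real.log_nonneg (by rw [le_div_iff₀ ha0]; linarith)
  have e1 : Real.log (a / n) = Real.log (b / n) - ℓ := by
    rw [hℓ, ← Real.log_div (by positivity) (by positivity)]
    congr 1
    field_simp
  set t := 2 * Real.log (b / n) / ((n:ℝ) - 1) with ht
  have e2 : 2 * Real.log (a / n) / ((n:ℝ) - 1) = t + -(2 * ℓ / ((n:ℝ) - 1)) := by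
    rw [e1, ht]; ring
  rw [e2, Real.exp_add]
  have h3 : Real.exp t ≤ 1 := by
    rw [Real.exp_le_one_iff, ht]
    apply div_nonpos_of_nonpos_of_nonneg _ hn1.le
    have : Real.log (b / n) ≤ 0 := Real.log_nonpos (by positivity) (by rw [div_le_one hn0]; exact hbn)
    linarith
  have h4 : 1 - Real.exp (-(2 * ℓ / ((n:ℝ) - 1))) ≤ 2 * ℓ / ((n:ℝ) - 1) := by
    have := Real.add_one_le_exp (-(2 * ℓ / ((n:ℝ) - 1)))
    linarith
  have h40 : 0 ≤ 1 - Real.exp (-(2 * ℓ / ((n:ℝ) - 1))) := by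
    have : Real.exp (-(2 * ℓ / ((n:ℝ) - 1))) ≤ 1 := by
      rw [Real.exp_le_one_iff, neg_nonpos]
      positivity
    linarith
  have h5 : 2 * ℓ / ((n:ℝ) - 1) ≤ (1 + ε) * (2 * ℓ / n) := by
    rw [← mul_div_assoc, div_le_div_iff₀ hn1 hn0]
    have h6 : 1 / ε ≤ (n:ℝ) - 1 := by linarith
    rw [div_le_iff₀ hε] at h6
    have h7 : (n:ℝ) ≤ (1 + ε) * ((n:ℝ) - 1) := by linarith
    calc 2 * ℓ * n ≤ 2 * ℓ * ((1 + ε) * ((n:ℝ) - 1)) := by gcongr
      _ = _ := by ring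
  calc Real.pi * Real.exp t - Real.pi * (Real.exp t * Real.exp (-(2 * ℓ / ((n:ℝ) - 1))))
      = Real.pi * (Real.exp t * (1 - Real.exp (-(2 * ℓ / ((n:ℝ) - 1))))) := by ring
    _ ≤ Real.pi * (1 * ((1 + ε) * (2 * ℓ / n))) := by
        gcongr
        exact h4.trans h5
    _ = _ := by ring

end Pool.Agent.K3h79.MA
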