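import Mathlib
import Pool.Agent.K3h79.MA.Multi
import Pool.Agent.TH363.CD.Upper3

/-! Criteria for escape and for an attracting cycle of exact period `j + 1`. -/

set_option autoImplicit false
open Metric MeasureTheory Set Filter Topology

namespace Pool.Agent.K3h79.MA

open Pool.Agent.W747.MB Pool.Agent.TH363.CD

/-- Growth in the right half-plane. -/
theorem grow {n : ℕ} (hn : 1 ≤ n) {c : ℂ} {j : ℕ} {δ : ℝ} (hδ : 0 < δ) (hδ1 : δ ≤ 1)
    (h1 : δ * ‖X n c j‖ ≤ (X n c j).re) (h2 : ‖X n c j‖ ≤ n) :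
    Y n c * Real.exp (δ * ‖X n c j‖ / 2) ≤ ‖X n c (j + 1)‖ := by
  have hn0 : (0:ℝ) < n := by exact_mod_cast hn
  rw [Pool.Agent.W12.MB.norm_X]
  have hY : 0 ≤ Y n c := by unfold Y; positivity
  apply mul_le_mul_of_nonneg_left _ hY
  set x : ℝ := δ * ‖X n c j‖ / n with hx
  have hx0 : 0 ≤ x := by positivity
  have hx1 : x ≤ 1 := by
    rw [hx, div_le_one hn0]
    have := norm_nonneg (X n c j)
    nlinarith
  have h3 : 1 + x ≤ ‖A n c j‖ := by
    have h2 : (A n c j).re = 1 + (X n c j).re / n := by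
      unfold A
      rw [Complex.add_re, Complex.one_re, Complex.div_natCast_re]
    have h3 : (A n c j).re ≤ ‖A n c j‖ := Complex.re_le_norm _
    have h4 : x ≤ (X n c j).re / n := by
      rw [hx]; gcongr
    linarith
  have h4 : Real.exp (x / 2) ≤ 1 + x := by
    have h5 := Real.exp_bound' (x := x / 2) (by linarith) (by linarith) (n := 2) (by norm_num)
    simp only [Finset.sum_range_succ, Finset.sum_range_zero, Nat.factorial] at h5
    norm_num at h5
    nlinarith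
  calc Real.exp (δ * ‖X n c j‖ / 2) = Real.exp (x / 2) ^ n := by
        rw [← Real.exp_nat_mul]
        congr 1
        rw [hx]
        field_simp
    _ ≤ ‖A n c j‖ ^ n := pow_le_pow_left₀ (Real.exp_pos _).le (h4.trans h3) n

/-- Escape. -/
theorem escape {n k : ℕ} (hn : 10 ^ 6 ≤ n) (hk : 1 ≤ k) {c : ℂ} {j : ℕ} {δ : ℝ} (hδ : 0 < δ)
    (hδ1 : δ ≤ 1) (hY : 1 ≤ Y n c) (h1 : δ * ‖X n c j‖ ≤ (X n c j).re) (h2 : ‖X n c j‖ ≤ n)
    (h3 : 4 * Real.log n ≤ δ * ‖X n c j‖) : c ∉ NN n k := by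
  intro hc
  have hn' : (10:ℝ) ^ 6 ≤ n := by exact_mod_cast hn
  have hn0 : (0:ℝ) < n := by linarith
  have h4 := (alv' hn hc.1 (hc.2 1 le_rfl hk)).2.2 (j + 1)
  have h5 := grow (by omega) hδ hδ1 h1 h2
  have h6 : (n:ℝ) ^ 2 ≤ Real.exp (δ * ‖X n c j‖ / 2) := by
    calc (n:ℝ) ^ 2 = Real.exp (2 * Real.log n) := by
          rw [mul_comm, Real.exp_mul, Real.exp_log hn0]
          norm_num
      _ ≤ _ := by
          apply Real.exp_le_exp.2
          linarith
  nlinarith [Real.exp_pos (δ * ‖X n c j‖ / 2)]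

theorem poly_exp {δ : ℝ} (hδ : 0 < δ) (k : ℕ) : ∃ B : ℝ, 1 ≤ B ∧ ∀ s : ℝ, B ≤ s →
    s * (40 * (2 * s) ^ k) ≤ Real.exp (δ * s / 8) ∧ s ≤ Real.exp (δ * s / 2) ∧ 1 ≤ δ * s := by
  have h1 := (isLittleO_pow_exp_pos_mul_atTop (k := k + 1) (b := δ / 8) (by positivity)).bound
    (show (0:ℝ) < 1 / (40 * 2 ^ k) by positivity)
  have h2 := (isLittleO_pow_exp_pos_mul_atTop (k := 1) (b := δ / 2) (by positivity)).bound
    (show (0:ℝ) < 1 by norm_num)
  obtain ⟨B, hB⟩ := eventually_atTop.1 (h1.and h2)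
  refine ⟨max B (max 1 (1 / δ)), le_max_of_le_right (le_max_left _ _), fun s hs => ?_⟩
  obtain ⟨h3, h4⟩ := hB s ((le_max_left _ _).trans hs)
  have hs1 : 1 ≤ s := ((le_max_left _ _).trans (le_max_right _ _)).trans hs
  have hsδ : 1 / δ ≤ s := ((le_max_right _ _).trans (le_max_right _ _)).trans hs
  have hs0 : 0 < s := by linarith
  rw [Real.norm_of_nonneg (by positivity), Real.norm_of_nonneg (Real.exp_pos _).le] at h3 h4
  refine ⟨?_, ?_, ?_⟩
  · have e1 : s * (40 * (2 * s) ^ k) = (40 * 2 ^ k) * s ^ (k + 1) := by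
      rw [mul_pow, pow_succ]; ring
    rw [e1]
    calc (40 * 2 ^ k) * s ^ (k + 1) ≤ (40 * 2 ^ k) * (1 / (40 * 2 ^ k) * Real.exp (δ / 8 * s)) := by
          gcongr
      _ = Real.exp (δ / 8 * s) := by field_simp
      _ = _ := by congr 1; ring
  · rw [pow_one, one_mul] at h4
    refine h4.trans (le_of_eq ?_)
    congr 1
    ring
  · rw [div_le_iff₀ hδ] at hsδ
    linarith

/-- Moduli along an orbit in the sector. -/
theorem mono_chain {δ : ℝ} (hδ : 0 < δ) (hδ1 : δ ≤ 1) (k : ℕ) : ∃ B : ℝ, 1 ≤ B ∧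
    ∀ (n j : ℕ) (c : ℂ), 1 ≤ n → B ≤ Y n c →
      (∀ i, 1 ≤ i → i < j → δ * ‖X n c i‖ ≤ (X n c i).re ∧ ‖X n c i‖ ≤ n) →
      ∀ i, 1 ≤ i → i ≤ j → B ≤ ‖X n c i‖ ∧ ∀ l, 1 ≤ l → l ≤ i → ‖X n c l‖ ≤ ‖X n c i‖ := by
  obtain ⟨B, hB, hp⟩ := poly_exp hδ k
  refine ⟨B, hB, fun n j c hn hY hX i hi => ?_⟩
  induction i, hi using Nat.le_induction with
  | base =>
    intro _
    rw [norm_X1]
    refine ⟨hY, fun l h1 h2 => ?_⟩
    obtain rfl : l = 1 := by omega
    rw [norm_X1]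
  | succ i hi ih =>
    intro hij
    obtain ⟨h1, h2⟩ := ih (by omega)
    obtain ⟨h3, h4⟩ := hX i hi (by omega)
    have h5 := grow hn hδ hδ1 h3 h4
    have h6 := (hp _ h1).2.1
    have h7 : ‖X n c i‖ ≤ ‖X n c (i + 1)‖ := by
      have : 1 ≤ Y n c := hB.trans hY
      nlinarith [Real.exp_pos (δ * ‖X n c i‖ / 2)]
    refine ⟨h1.trans h7, fun l h8 h9 => ?_⟩
    rcases Nat.lt_or_ge i l with h10 | h10
    · obtain rfl : l = i + 1 := by omega
      exact le_rfl
    · exact (h2 l h8 h10).trans h7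

/-- Attracting cycles of exact period `j + 1`. -/
theorem attr {δ : ℝ} (hδ : 0 < δ) (hδ1 : δ ≤ 1) (k : ℕ) : ∃ B : ℝ, 1 ≤ B ∧
    ∀ (n j : ℕ) (c : ℂ), 2 ≤ n → 1 ≤ j → j ≤ k → B ≤ Y n c →
      (∀ i, 1 ≤ i → i < j → δ * ‖X n c i‖ ≤ (X n c i).re ∧ ‖X n c i‖ ≤ n) →
      (X n c j).re ≤ -(δ * ‖X n c j‖) → ‖X n c j‖ ≤ δ * n → c ∈ Ex n (j + 1) := by
  obtain ⟨B₁, hB₁, hch⟩ := mono_chain hδ hδ1 k
  obtain ⟨B₂, hB₂, hp⟩ := poly_exp hδ k
  refine ⟨max B₁ B₂, hB₁.trans (le_max_left _ _), fun n j c hn hj hjk hY hX hre hsn => ?_⟩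
  have hn1 : 1 ≤ n := by omega
  have hn2R : (2:ℝ) ≤ n := by exact_mod_cast hn
  have hn0 : (0:ℝ) < n := by linarith
  have hY1 : B₁ ≤ Y n c := (le_max_left _ _).trans hY
  have hY2 : B₂ ≤ Y n c := (le_max_right _ _).trans hY
  have hY0 : 1 ≤ Y n c := hB₁.trans hY1
  have hmono := hch n j c hn1 hY1 hX
  set s : ℝ := ‖X n c j‖ with hs
  obtain ⟨hsB, hsl⟩ := hmono j hj le_rfl
  have hYs : Y n c ≤ s := by
    have := hsl 1 le_rfl hj
    rwa [norm_X1] at this
  have hs1 : 1 ≤ s := hY0.trans hYs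
  have hs0 : 0 < s := by linarith
  obtain ⟨hp1, -, hp3⟩ := hp s (hY2.trans hYs)
  have hc0 : c ≠ 0 := by
    rintro rfl
    have : Y n 0 = 0 := by
      unfold Y
      rw [norm_zero, zero_pow (by omega), mul_zero]
    linarith
  -- derivative bounds
  have hA : ∀ i, 1 ≤ i → i < j → 4 / 5 ≤ ‖A n c i‖ := by
    intro i h1 h2
    have h3 := (hX i h1 h2).1
    have h4 : (A n c i).re = 1 + (X n c i).re / n := by
      unfold A
      rw [Complex.add_re, Complex.one_re, Complex.div_natCast_re]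
    have h5 : (A n c i).re ≤ ‖A n c i‖ := Complex.re_le_norm _
    have h6 : 0 ≤ (X n c i).re / n := by
      apply div_nonneg _ hn0.le
      exact le_trans (by positivity) h3
    linarith
  have hph : ∀ i, 1 ≤ i → i ≤ j → PhAt n c i ((2 * s) ^ i) := by
    intro i hi
    induction i, hi using Nat.le_induction with
    | base =>
      intro _
      have h1 := (Pool.Agent.W216.MB.BAS.main n hn c hY0).1
      have h2 : 0 < ‖L n c 1‖ := norm_pos_iff.2 h1.geo.L0
      have h3 := h1.ph c (mem_closedBall_self (by positivity))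
      rw [pow_one]
      exact PhAt.mono hn1 h3 (by linarith) (by linarith)
    | succ i hi ih =>
      intro hij
      have h1 := ih (by omega)
      have h2 := hsl (i + 1) (by omega) hij
      have h3 : 1 ≤ (2 * s) ^ i := one_le_pow₀ (by linarith)
      have h4 : (2 * s) ^ (i + 1) = (2 * s) * (2 * s) ^ i := by rw [pow_succ]; ring
      refine hPhs n hn c i _ _ hc0 h3 ?_ h1 (hA i hi (by omega)) ?_
      · rw [h4]; nlinarith
      · rw [h4]
        gcongr
        linarith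
  have hph' : ∀ i, 1 ≤ i → i ≤ j → PhAt n c i ((2 * s) ^ k) := by
    intro i h1 h2
    refine PhAt.mono hn1 (hph i h1 h2) (by positivity) ?_
    exact pow_le_pow_right₀ (by linarith) (h2.trans hjk)
  refine att_exact hn hj hY0 (one_le_pow₀ (by linarith)) hph' (fun i h1 h2 => ?_) ?_
  · exact hB₁.trans (hmono i h1 h2).1
  · -- the contraction
    set x : ℝ := δ * s / (2 * n) with hx
    have hx0 : 0 < x := by positivity
    have hx1 : x ≤ 1 / 2 := by
      rw [hx, div_le_div_iff₀ (by positivity) (by norm_num)]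
      nlinarith
    have hAj : ‖A n c j‖ ≤ 1 - x := by
      apply abs_le_of_sq_le_sq' _ (by linarith) |>.2
      have h1 : ‖A n c j‖ ^ 2 = 1 + 2 * (X n c j).re / n + s ^ 2 / n ^ 2 := by
        rw [← Complex.normSq_eq_norm_sq, Complex.normSq_apply]
        have e1 : (A n c j).re = 1 + (X n c j).re / n := by
          unfold A
          rw [Complex.add_re, Complex.one_re, Complex.div_natCast_re]
        have e2 : (A n c j).im = (X n c j).im / n := by
          unfold A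
          rw [Complex.add_im, Complex.one_im, Complex.div_natCast_im, zero_add]
        have e3 : s ^ 2 = (X n c j).re * (X n c j).re + (X n c j).im * (X n c j).im := by
          rw [hs, ← Complex.normSq_eq_norm_sq, Complex.normSq_apply]
        rw [e1, e2, e3]
        field_simp
        ring
      rw [h1]
      have h2 : 2 * (X n c j).re / n ≤ -(4 * x) := by
        rw [hx, div_le_iff₀ hn0]
        have : -(4 * (δ * s / (2 * n))) * n = -(2 * (δ * s)) := by field_simp; ring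
        rw [this]
        linarith
      have h3 : s ^ 2 / n ^ 2 ≤ 2 * x := by
        rw [hx, div_le_iff₀ (by positivity)]
        have : 2 * (δ * s / (2 * n)) * n ^ 2 = δ * n * s := by field_simp
        rw [this, sq]
        gcongr
      nlinarith
    have hcast : ((n - 1 : ℕ) : ℝ) = (n : ℝ) - 1 := by
      rw [Nat.cast_sub hn1, Nat.cast_one]
    have h4 : ‖A n c j‖ + 1 / (10 * n) ≤ Real.exp (-((δ * s / 2 - 1 / 10) / n)) := by
      have h5 := Real.add_one_le_exp (-((δ * s / 2 - 1 / 10) / n))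
      have h6 : x = δ * s / 2 / n := by rw [hx]; field_simp
      have h7 : 1 / (10 * (n:ℝ)) = 1 / 10 / n := by field_simp
      have h8 : (δ * s / 2 - 1 / 10) / n = δ * s / 2 / n - 1 / 10 / n := by rw [sub_div]
      rw [h7]
      rw [h8] at h5 ⊢
      rw [h6] at hAj
      linarith
    have h5 : (‖A n c j‖ + 1 / (10 * n)) ^ (n - 1) ≤ Real.exp (-(δ * s / 8)) := by
      calc (‖A n c j‖ + 1 / (10 * n)) ^ (n - 1)
          ≤ Real.exp (-((δ * s / 2 - 1 / 10) / n)) ^ (n - 1) :=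
            pow_le_pow_left₀ (by positivity) h4 _
        _ = Real.exp (((n:ℝ) - 1) * -((δ * s / 2 - 1 / 10) / n)) := by
            rw [← Real.exp_nat_mul, hcast]
        _ ≤ Real.exp (-(δ * s / 8)) := by
            apply Real.exp_le_exp.2
            have h6 : 1 / 2 ≤ ((n:ℝ) - 1) / n := by
              rw [div_le_div_iff₀ (by norm_num) hn0]; linarith
            have h7 : ((n:ℝ) - 1) * -((δ * s / 2 - 1 / 10) / n) =
                -((((n:ℝ) - 1) / n) * (δ * s / 2 - 1 / 10)) := by ring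
            rw [h7]
            have h8 : 0 ≤ δ * s / 2 - 1 / 10 := by linarith
            nlinarith
    rw [le_div_iff₀ (by positivity)]
    calc Y n c * (‖A n c j‖ + 1 / (10 * n)) ^ (n - 1) * (40 * (2 * s) ^ k)
        ≤ s * Real.exp (-(δ * s / 8)) * (40 * (2 * s) ^ k) := by gcongr
      _ = (s * (40 * (2 * s) ^ k)) * Real.exp (-(δ * s / 8)) := by ring
      _ ≤ Real.exp (δ * s / 8) * Real.exp (-(δ * s / 8)) := by gcongr
      _ = 1 := by rw [← Real.exp_add, add_neg_cancel, Real.exp_zero]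

/-- One step of growth in the sector. -/
noncomputable def Ed (δ R : ℝ) : ℝ := Real.exp (δ * R / 2)

theorem Ed_mono {δ : ℝ} (hδ : 0 < δ) : Monotone (Ed δ) := by
  intro a b h
  unfold Ed
  apply Real.exp_le_exp.2
  gcongr

/-- Lower bound for the moduli. -/
theorem X_lower {n : ℕ} (hn : 1 ≤ n) {c : ℂ} {j : ℕ} {δ a : ℝ} (hδ : 0 < δ) (hδ1 : δ ≤ 1)
    (ha : a ≤ Y n c) (hY : 1 ≤ Y n c)
    (hX : ∀ i, 1 ≤ i → i < j → δ * ‖X n c i‖ ≤ (X n c i).re ∧ ‖X n c i‖ ≤ n) :
    ∀ i, 1 ≤ i → i ≤ j → (Ed δ)^[i - 1] a ≤ ‖X n c i‖ := by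
  intro i hi
  induction i, hi using Nat.le_induction with
  | base =>
    intro _
    rw [norm_X1]
    exact ha
  | succ i hi ih =>
    intro hij
    have h1 := ih (by omega)
    obtain ⟨h3, h4⟩ := hX i hi (by omega)
    have h5 := grow hn hδ hδ1 h3 h4
    have h6 : i + 1 - 1 = (i - 1) + 1 := by omega
    rw [h6, Function.iterate_succ_apply']
    calc Ed δ ((Ed δ)^[i - 1] a) ≤ Ed δ ‖X n c i‖ := Ed_mono hδ h1
      _ = 1 * Real.exp (δ * ‖X n c i‖ / 2) := by unfold Ed; rw [one_mul]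
      _ ≤ Y n c * Real.exp (δ * ‖X n c i‖ / 2) := by gcongr
      _ ≤ _ := h5

theorem Ed_iter {δ : ℝ} (hδ : 0 < δ) (m : ℕ) : ∀ᶠ n : ℕ in atTop,
    (Real.log (n:ℝ)) ^ 2 ≤ (Ed δ)^[m] ((Real.log^[m + 1] (n:ℝ)) ^ 2) := by
  induction m with
  | zero => simp
  | succ m ih =>
    filter_upwards [ih, (tendsto_iterlog (m + 2)).eventually_ge_atTop (4 / δ),
      (tendsto_iterlog (m + 1)).eventually_gt_atTop 0] with n h1 h2 h3
    refine h1.trans ?_
    rw [Function.iterate_succ_apply (Ed δ)]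
    apply (Ed_mono hδ).iterate m
    have h4 : Real.log^[m + 2] (n:ℝ) = Real.log (Real.log^[m + 1] (n:ℝ)) :=
      Function.iterate_succ_apply' _ _ _
    have e : m + 1 + 1 = m + 2 := by ring
    rw [e, h4]
    rw [h4] at h2
    set u := Real.log^[m + 1] (n:ℝ) with hu
    unfold Ed
    calc u ^ 2 = Real.exp (2 * Real.log u) := by
          rw [mul_comm, Real.exp_mul, Real.exp_log h3]
          norm_num
      _ ≤ _ := by
          apply Real.exp_le_exp.2
          rw [div_le_iff₀ hδ] at h2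
          have h5 : 0 ≤ Real.log u := by nlinarith
          nlinarith

theorem E2_iter {ε : ℝ} (hε : 0 < ε) (hε1 : ε ≤ 1 / 4) (k : ℕ) : ∀ᶠ n : ℕ in atTop,
    E2^[k] (ε * Real.log^[k] (n:ℝ)) ≤ ε * n := by
  induction k with
  | zero => simp
  | succ k ih =>
    filter_upwards [ih, (tendsto_iterlog k).eventually_gt_atTop 0,
      (tendsto_iterlog (k + 1)).eventually_ge_atTop (-(2 * Real.log ε))] with n h1 h2 h3
    refine le_trans ?_ h1
    rw [Function.iterate_succ_apply E2]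
    apply E2_mono.iterate k
    rw [Function.iterate_succ_apply'] at h3 ⊢
    set u := Real.log^[k] (n:ℝ) with hu
    have hlε : Real.log ε ≤ 0 := Real.log_nonpos hε.le (by linarith)
    unfold E2
    rw [← Real.le_log_iff_exp_le (by positivity), Real.log_mul hε.ne' h2.ne']
    have : 0 ≤ Real.log u := by linarith
    nlinarith

end Pool.Agent.K3h79.MA
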