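import Mathlib
import Pool.Agent.K3h79.MA.Multi

/-! Arcs of directions. -/

set_option autoImplicit false
open Metric MeasureTheory Set Filter Topology

namespace Pool.Agent.K3h79.MA

/-- The open right half-plane. -/
def HP : Set ℂ := {z | 0 < z.re}

/-- The open left half-plane. -/
def HM : Set ℂ := {z | z.re < 0}

/-- The directions with argument between `α` and `β`, in the right half-plane. -/
def arc (α β : ℝ) : Set ℂ := {z | 0 < z.re ∧ α < z.arg ∧ z.arg < β}

/-- The opposite cone. -/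
def ngc (W : Set ℂ) : Set ℂ := {z | -z ∈ W}

theorem OC_HP : OC HP := by
  refine ⟨isOpen_lt continuous_const Complex.continuous_re, by simp [HP], ?_⟩
  intro z hz t ht
  have h1 : 0 < z.re := hz
  show 0 < ((t:ℂ) * z).re
  rw [Complex.re_ofReal_mul]
  positivity

theorem OC_ngc {W : Set ℂ} (h : OC W) : OC (ngc W) := by
  refine ⟨h.op.preimage continuous_neg, ?_, ?_⟩
  · intro h0
    apply h.nz
    have h1 : -(0:ℂ) ∈ W := h0
    rwa [neg_zero] at h1
  · intro z hz t ht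
    show -((t:ℂ) * z) ∈ W
    rw [← mul_neg]
    exact h.cone _ hz t ht

theorem HM_eq : HM = ngc HP := by
  ext z
  simp [HM, ngc, HP]

theorem OC_HM : OC HM := by
  rw [HM_eq]; exact OC_ngc OC_HP

theorem OC_arc (α β : ℝ) : OC (arc α β) := by
  refine ⟨?_, by simp [arc], ?_⟩
  · have h1 : arc α β = HP ∩ (Complex.arg ⁻¹' Ioo α β) := by
      ext z
      simp [arc, HP]
    rw [h1]
    refine ContinuousOn.isOpen_inter_preimage ?_ OC_HP.op isOpen_Ioo
    intro z hz
    exact (Complex.continuousAt_arg (Or.inl hz)).continuousWithinAt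
  · rintro z ⟨h1, h2, h3⟩ t ht
    refine ⟨?_, ?_, ?_⟩
    · rw [Complex.re_ofReal_mul]; positivity
    · rwa [Complex.arg_real_mul z ht]
    · rwa [Complex.arg_real_mul z ht]

theorem OC_union {V W : Set ℂ} (h1 : OC V) (h2 : OC W) : OC (V ∪ W) := by
  refine ⟨h1.op.union h2.op, ?_, ?_⟩
  · rintro (h | h)
    · exact h1.nz h
    · exact h2.nz h
  · rintro z (h | h) t ht
    · exact Or.inl (h1.cone z h t ht)
    · exact Or.inr (h2.cone z h t ht)

theorem ang_ngc {W : Set ℂ} (h : OC W) : ang (ngc W) = ang W := by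
  have h1 := ang_rot h.op.measurableSet h.cone (z := -1) (by norm_num)
  rw [← h1]
  unfold ang angS ngc
  congr 1
  ext θ
  simp

theorem angS_arc {α β : ℝ} (hα : -(Real.pi / 2) ≤ α) (hβ : β ≤ Real.pi / 2) :
    angS (arc α β) ∩ Ioc (-Real.pi) Real.pi = Ioo α β := by
  have hpi := Real.pi_pos
  ext θ
  constructor
  · rintro ⟨⟨h1, h2, h3⟩, h4⟩
    rw [Complex.arg_exp_mul_I, toIocMod_eq_self _ |>.2 (by
      rw [show -Real.pi + 2 * Real.pi = Real.pi by ring]; exact h4)] at h2 h3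
    exact ⟨h2, h3⟩
  · rintro ⟨h1, h2⟩
    have h4 : θ ∈ Ioc (-Real.pi) Real.pi := ⟨by linarith, by linarith⟩
    refine ⟨⟨?_, ?_, ?_⟩, h4⟩
    · rw [Complex.exp_ofReal_mul_I_re]
      exact Real.cos_pos_of_mem_Ioo ⟨by linarith, by linarith⟩
    · rw [Complex.arg_exp_mul_I, toIocMod_eq_self _ |>.2 (by
        rw [show -Real.pi + 2 * Real.pi = Real.pi by ring]; exact h4)]
      exact h1
    · rw [Complex.arg_exp_mul_I, toIocMod_eq_self _ |>.2 (by
        rw [show -Real.pi + 2 * Real.pi = Real.pi by ring]; exact h4)]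
      exact h2

theorem pr_arc {α β : ℝ} (hα : -(Real.pi / 2) ≤ α) (hαβ : α ≤ β) (hβ : β ≤ Real.pi / 2) :
    pr (arc α β) = (β - α) / (2 * Real.pi) := by
  unfold pr ang
  rw [angS_arc hα hβ, Real.volume_Ioo, ENNReal.toReal_ofReal (by linarith)]

theorem pr_ngc {W : Set ℂ} (h : OC W) : pr (ngc W) = pr W := by
  unfold pr
  rw [ang_ngc h]

theorem HP_eq : HP = arc (-(Real.pi / 2)) (Real.pi / 2) := by
  ext z
  constructor
  · intro hz
    have h1 : |z.arg| < Real.pi / 2 := Complex.abs_arg_lt_pi_div_two_iff.2 (Or.inl hz)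
    rw [abs_lt] at h1
    exact ⟨hz, h1.1, h1.2⟩
  · intro hz
    exact hz.1

theorem pr_HP : pr HP = 1 / 2 := by
  have hpi := Real.pi_pos
  rw [HP_eq, pr_arc le_rfl (by linarith) le_rfl]
  field_simp
  ring

theorem pr_HM : pr HM = 1 / 2 := by
  rw [HM_eq, pr_ngc OC_HP, pr_HP]

/-- The complementary arcs. -/
def carc (α β : ℝ) : Set ℂ := arc (-(Real.pi / 2)) α ∪ arc β (Real.pi / 2)

theorem OC_carc (α β : ℝ) : OC (carc α β) := OC_union (OC_arc _ _) (OC_arc _ _)

theorem pr_carc {α β : ℝ} (hα : -(Real.pi / 2) ≤ α) (hαβ : α ≤ β) (hβ : β ≤ Real.pi / 2) :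
    pr (arc α β) + pr (carc α β) = 1 / 2 := by
  have hpi := Real.pi_pos
  have h1 : angS (carc α β) ∩ Ioc (-Real.pi) Real.pi =
      Ioo (-(Real.pi / 2)) α ∪ Ioo β (Real.pi / 2) := by
    rw [← angS_arc le_rfl (hαβ.trans hβ), ← angS_arc (hα.trans hαβ) le_rfl, ← union_inter_distrib_right]
    rfl
  have h2 : pr (carc α β) = ((α + Real.pi / 2) + (Real.pi / 2 - β)) / (2 * Real.pi) := by
    unfold pr ang
    rw [h1, measure_union _ measurableSet_Ioo, Real.volume_Ioo, Real.volume_Ioo,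
      ← ENNReal.ofReal_add (by linarith) (by linarith), ENNReal.toReal_ofReal (by linarith)]
    · congr 1
      ring
    · rw [Set.disjoint_left]
      rintro x ⟨h3, h4⟩ ⟨h5, h6⟩
      linarith
  rw [h2, pr_arc hα hαβ hβ]
  field_simp
  ring

theorem arc_disj (α β : ℝ) : Disjoint (arc α β) (carc α β) := by
  rw [Set.disjoint_left]
  rintro z ⟨h1, h2, h3⟩ (⟨h4, h5, h6⟩ | ⟨h4, h5, h6⟩) <;> linarith

theorem arc_sub (α β : ℝ) : arc α β ⊆ HP := fun _ h => h.1

theorem carc_sub (α β : ℝ) : carc α β ⊆ HP := by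
  rintro z (h | h)
  · exact h.1
  · exact h.1

theorem ngc_mono {V W : Set ℂ} (h : V ⊆ W) : ngc V ⊆ ngc W := fun _ hz => h hz

/-- Points of a shrunk cone in the right half-plane lie in a sector. -/
theorem shr_HP {κ : ℝ} (hκ : 0 < κ) {V : Set ℂ} (hV : V ⊆ HP) {z : ℂ} (hz : z ∈ shr κ V) :
    κ * ‖z‖ ≤ z.re := by
  have h1 : z - ((κ * ‖z‖ : ℝ) : ℂ) ∈ V := by
    apply shr_sub hz
    rw [sub_sub_cancel_left, norm_neg, Complex.norm_real, Real.norm_eq_abs, abs_of_nonneg]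
    positivity
  have h2 : 0 < (z - ((κ * ‖z‖ : ℝ) : ℂ)).re := hV h1
  rw [Complex.sub_re, Complex.ofReal_re] at h2
  linarith

theorem shr_HM {κ : ℝ} (hκ : 0 < κ) {V : Set ℂ} (hV : V ⊆ HM) {z : ℂ} (hz : z ∈ shr κ V) :
    z.re ≤ -(κ * ‖z‖) := by
  have h1 : z + ((κ * ‖z‖ : ℝ) : ℂ) ∈ V := by
    apply shr_sub hz
    rw [add_sub_cancel_left, Complex.norm_real, Real.norm_eq_abs, abs_of_nonneg]
    positivity
  have h2 : (z + ((κ * ‖z‖ : ℝ) : ℂ)).re < 0 := hV h1
  rw [Complex.add_re, Complex.ofReal_re] at h2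
  linarith

end Pool.Agent.K3h79.MA
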