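import Mathlib
import Pool.Agent.K3h79.MA.Crit
import Pool.Agent.K3h79.MA.AnnS
import Pool.Agent.K3h79.MA.Dir

/-! The asymptotic lower and upper bounds. -/

set_option autoImplicit false
open Metric MeasureTheory Set Filter Topology

namespace Pool.Agent.K3h79.MA

open Pool.Agent.W747.MB Pool.Agent.TH363.CD

/-- The iterated logarithm. -/
noncomputable def Lk (k n : ℕ) : ℝ := Real.log^[k] (n:ℝ)

/-- The normalisation. -/
noncomputable def gk (k n : ℕ) : ℝ := 2 * Real.pi * Lk k n / n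

theorem tLk (k : ℕ) : Tendsto (Lk k) atTop atTop := tendsto_iterlog k

theorem gk_pos (k : ℕ) : ∀ᶠ n : ℕ in atTop, 0 < gk k n := by
  filter_upwards [(tLk k).eventually_gt_atTop 0, eventually_gt_atTop 0] with n h1 h2
  have h3 : (0:ℝ) < n := by exact_mod_cast h2
  have := Real.pi_pos
  unfold gk
  positivity

/-- Lower bound, by measurable subsets. -/
def LowM (k : ℕ) (S : ℕ → Set ℂ) (v : ℝ) : Prop := ∀ ε : ℝ, 0 < ε → ∀ᶠ n : ℕ in atTop,
  ∃ C : Set ℂ, MeasurableSet C ∧ C ⊆ S n ∧ volume C ≠ ⊤ ∧ (v - ε) * gk k n ≤ volume.real C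

/-- Upper bound. -/
def UpB (k : ℕ) (S : ℕ → Set ℂ) (v : ℝ) : Prop := ∀ ε : ℝ, 0 < ε → ∀ᶠ n : ℕ in atTop,
  volume (S n) ≤ ENNReal.ofReal ((v + ε) * gk k n)

theorem LowM.mono {k : ℕ} {S T : ℕ → Set ℂ} {v w : ℝ} (h : LowM k S v)
    (hST : ∀ᶠ n in atTop, S n ⊆ T n) (hw : w ≤ v) : LowM k T w := by
  intro ε hε
  filter_upwards [h ε hε, hST, gk_pos k] with n ⟨C, h1, h2, h3, h4⟩ h5 h6
  refine ⟨C, h1, h2.trans h5, h3, le_trans ?_ h4⟩
  gcongr

theorem UpB.mono {k : ℕ} {S T : ℕ → Set ℂ} {v w : ℝ} (h : UpB k S v)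
    (hST : ∀ᶠ n in atTop, T n ⊆ S n) (hw : v ≤ w) : UpB k T w := by
  intro ε hε
  filter_upwards [h ε hε, hST, gk_pos k] with n h1 h5 h6
  refine (measure_mono h5).trans (h1.trans (ENNReal.ofReal_le_ofReal ?_))
  gcongr

theorem UpB.diff {k : ℕ} {A B S : ℕ → Set ℂ} {v w : ℝ} (hB : UpB k B v) (hS : LowM k S w)
    (h : ∀ᶠ n in atTop, A n ⊆ B n ∧ S n ⊆ B n ∧ Disjoint (A n) (S n)) : UpB k A (v - w) := by
  intro ε hε
  filter_upwards [hB (ε / 2) (by positivity), hS (ε / 2) (by positivity), h, gk_pos k] with n h1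
    ⟨C, c1, c2, c3, c4⟩ ⟨h2, h3, h4⟩ h5
  have hBfin : volume (B n) ≠ ⊤ := ne_top_of_le_ne_top ENNReal.ofReal_ne_top h1
  have h6 : A n ⊆ B n \ C := fun z hz => ⟨h2 hz, fun hc => Set.disjoint_left.1 h4 hz (c2 hc)⟩
  have h7 : volume (B n \ C) + volume C = volume (B n) := by
    have := measure_sdiff_add_inter (μ := volume) (B n) c1
    rwa [inter_eq_right.2 (c2.trans h3)] at this
  have h8 : volume.real (B n \ C) + volume.real C = volume.real (B n) := by
    rw [measureReal_def, measureReal_def, measureReal_def, ← h7, ENNReal.toReal_add _ c3]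
    exact ne_top_of_le_ne_top hBfin (measure_mono sdiff_subset)
  have h9 : volume.real (B n) ≤ max 0 ((v + ε / 2) * gk k n) := by
    rw [measureReal_def]
    apply ENNReal.toReal_le_of_le_ofReal (le_max_left _ _)
    refine h1.trans (ENNReal.ofReal_le_ofReal (le_max_right _ _))
  have hfin2 : volume (B n \ C) ≠ ⊤ := ne_top_of_le_ne_top hBfin (measure_mono sdiff_subset)
  refine (measure_mono h6).trans ?_
  rw [← ENNReal.ofReal_toReal hfin2]
  rcases le_or_gt 0 ((v + ε / 2) * gk k n) with h10 | h10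
  · apply ENNReal.ofReal_le_ofReal
    rw [max_eq_right h10] at h9
    have h11 : (volume (B n \ C)).toReal = volume.real (B n \ C) := rfl
    rw [h11]
    have e : (v - w + ε) * gk k n = (v + ε / 2) * gk k n - (w - ε / 2) * gk k n := by ring
    rw [e]
    linarith
  · rw [max_eq_left h10.le] at h9
    have h11 : (volume (B n \ C)).toReal = volume.real (B n \ C) := rfl
    have h12 : 0 ≤ volume.real C := measureReal_nonneg
    rw [h11, ENNReal.ofReal_of_nonpos (by linarith)]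
    exact zero_le

theorem UpB.union {k : ℕ} {A B E : ℕ → Set ℂ} {v w : ℝ} (hv : 0 ≤ v) (hw : 0 ≤ w)
    (hA : UpB k A v) (hB : UpB k B w) (h : ∀ᶠ n in atTop, E n ⊆ A n ∪ B n) :
    UpB k E (v + w) := by
  intro ε hε
  filter_upwards [hA (ε / 2) (by positivity), hB (ε / 2) (by positivity), h, gk_pos k] with n h1
    h2 h3 h4
  refine (measure_mono h3).trans ((measure_union_le _ _).trans ((add_le_add h1 h2).trans ?_))
  rw [← ENNReal.ofReal_add (by positivity) (by positivity)]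
  apply ENNReal.ofReal_le_ofReal
  apply le_of_eq
  ring

theorem LowM.union {k : ℕ} {S T E : ℕ → Set ℂ} {v w : ℝ} (hS : LowM k S v) (hT : LowM k T w)
    (h : ∀ᶠ n in atTop, Disjoint (S n) (T n) ∧ S n ∪ T n ⊆ E n) : LowM k E (v + w) := by
  intro ε hε
  filter_upwards [hS (ε / 2) (by positivity), hT (ε / 2) (by positivity), h] with n
    ⟨C, c1, c2, c3, c4⟩ ⟨D, d1, d2, d3, d4⟩ ⟨h1, h2⟩
  have hdis : Disjoint C D := h1.mono c2 d2
  refine ⟨C ∪ D, c1.union d1, (union_subset_union c2 d2).trans h2, ?_, ?_⟩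
  · rw [measure_union hdis d1]
    exact ENNReal.add_ne_top.2 ⟨c3, d3⟩
  · rw [measureReal_union hdis d1 c3 d3]
    calc (v + w - ε) * gk k n = (v - ε / 2) * gk k n + (w - ε / 2) * gk k n := by ring
      _ ≤ _ := add_le_add c4 d4

/-- `log` is small against the identity along the iterated logarithms. -/
theorem log_small_Lk (k : ℕ) {c : ℝ} (hc : 0 < c) (K : ℝ) : ∀ᶠ n : ℕ in atTop,
    2 * Real.log (Lk k n) + K ≤ c * Lk k n := by
  have h1 := (Real.isLittleO_log_id_atTop.bound (show (0:ℝ) < c / 4 by positivity))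
  have h2 := (tLk k).eventually h1
  filter_upwards [h2, (tLk k).eventually_ge_atTop (2 * |K| / c), (tLk k).eventually_gt_atTop 0]
    with n h3 h4 h5
  rw [Real.norm_eq_abs, id, Real.norm_of_nonneg h5.le] at h3
  rw [div_le_iff₀ hc] at h4
  have h6 := le_abs_self K
  have h7 := le_abs_self (Real.log (Lk k n))
  nlinarith

/-- The upper radius lies below the previous iterated logarithm. -/
theorem radius_le {k : ℕ} (hk : 1 ≤ k) {s : ℝ} (hs1 : s ≤ 1) : ∀ᶠ n : ℕ in atTop,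
    Real.exp (s * Lk k n) ≤ Lk (k - 1) n := by
  obtain ⟨m, rfl⟩ : ∃ m, k = m + 1 := ⟨k - 1, by omega⟩
  filter_upwards [(tLk m).eventually_gt_atTop 0, (tLk (m + 1)).eventually_gt_atTop 0] with n h1 h2
  have e : Lk (m + 1) n = Real.log (Lk m n) := Function.iterate_succ_apply' _ _ _
  have e2 : m + 1 - 1 = m := by omega
  rw [e2]
  calc Real.exp (s * Lk (m + 1) n) ≤ Real.exp (Lk (m + 1) n) := by
        apply Real.exp_le_exp.2
        nlinarith
    _ = Lk m n := by rw [e, Real.exp_log h1]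

theorem iter_le_iter {i m : ℕ} (h : i ≤ m) (x : ℝ) : E2^[i] x ≤ E2^[m] x := by
  obtain ⟨d, rfl⟩ := Nat.exists_eq_add_of_le h
  rw [Nat.add_comm, Function.iterate_add_apply]
  exact le_iter d _

/-- All moduli up to level `k` are at most `ε n`. -/
theorem E2_small {k : ℕ} (hk : 1 ≤ k) {s ε : ℝ} (hs1 : s ≤ 1) (hε : 0 < ε) (hε1 : ε ≤ 1 / 4) :
    ∀ᶠ n : ℕ in atTop, ∀ i < k, E2^[i] (ε * Real.exp (s * Lk k n)) ≤ ε * n := by
  filter_upwards [radius_le hk hs1, E2_iter hε hε1 (k - 1)] with n h1 h2 i hi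
  refine (iter_le_iter (show i ≤ k - 1 by omega) _).trans (le_trans ?_ h2)
  apply E2_mono.iterate
  gcongr
  exact h1

/-- The basic lower bound. -/
theorem low_GG {k j : ℕ} (hk : 1 ≤ k) (hjk : j ≤ k) {V : ℕ → Set ℂ} (hV : ∀ i, OC (V i))
    (hre : ∀ i, 1 ≤ i → i < j → ∀ z ∈ V i, 0 ≤ z.re) {s ε₀ : ℝ} (hs0 : 0 ≤ s) (hs1 : s ≤ 1)
    (hε₀ : 0 < ε₀) (hε₁ : ε₀ ≤ 1 / 10) :
    LowM k (fun n => GG n V j (Lk k n ^ 2) (ε₀ * Real.exp (s * Lk k n)))
      (s * ∏ i ∈ Finset.Icc 1 j, pr (V i)) := by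
  intro ε hε
  set p := ∏ i ∈ Finset.Icc 1 j, pr (V i) with hp
  have hp0 : 0 ≤ p := Finset.prod_nonneg fun i _ => pr_nonneg _
  have hp1 : p ≤ 1 := Finset.prod_le_one (fun i _ => pr_nonneg _) fun i _ => pr_le_one _
  have hm : ∀ n, MeasurableSet (GG n V j (Lk k n ^ 2) (ε₀ * Real.exp (s * Lk k n))) := fun n =>
    measurableSet_GG (fun i => (hV i).op.measurableSet) _ _ _
  have hfin : ∀ n, 2 ≤ n → volume (GG n V j (Lk k n ^ 2) (ε₀ * Real.exp (s * Lk k n))) ≠ ⊤ :=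
    fun n hn => ne_top_of_le_ne_top (ann_finite hn _ _) (measure_mono (GG_sub_ann _ _ _ _ _))
  rcases hs0.eq_or_lt with rfl | hs0
  · filter_upwards [eventually_ge_atTop 2, gk_pos k] with n hn hg
    refine ⟨_, hm n, subset_rfl, hfin n hn, ?_⟩
    have : 0 ≤ volume.real (GG n V j (Lk k n ^ 2) (ε₀ * Real.exp (0 * Lk k n))) :=
      measureReal_nonneg
    nlinarith
  set η : ℝ := min (ε / 3) (min s 1) with hη
  have hη0 : 0 < η := lt_min (by positivity) (lt_min hs0 one_pos)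
  have hηε : η ≤ ε / 3 := min_le_left _ _
  have hηs : η ≤ s := (min_le_right _ _).trans (min_le_left _ _)
  have hη1 : η ≤ 1 := (min_le_right _ _).trans (min_le_right _ _)
  obtain ⟨B, Q, hB, hQ, hmul⟩ := multi j V hV hre η hη0
  have hpi := Real.pi_pos
  filter_upwards [eventually_ge_atTop 2, gk_pos k, (tLk k).eventually_ge_atTop (max 1 B),
    tendsto_natCast_atTop_atTop.eventually_ge_atTop B, ann_lower η hη0,
    log_small_Lk k hη0 (2 * Real.log Q - Real.log ε₀), E2_small hk hs1 hε₀ (by linarith)]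
    with n hn hg hL hnB hann hlog hE
  refine ⟨_, hm n, subset_rfl, hfin n hn, ?_⟩
  have hn2 : (2:ℝ) ≤ n := by exact_mod_cast hn
  have hn0 : (0:ℝ) < n := by linarith
  set L := Lk k n with hLdef
  have hL1 : 1 ≤ L := (le_max_left _ _).trans hL
  have hLB : B ≤ L := (le_max_right _ _).trans hL
  have hL2 : L ≤ L ^ 2 := by nlinarith
  have h1 := hmul n (L ^ 2) (ε₀ * Real.exp (s * L)) hnB (hLB.trans hL2) (fun i hi =>
    (hE i (by omega)).trans (by nlinarith))
  have hG0 : 0 ≤ volume.real (GG n V j (L ^ 2) (ε₀ * Real.exp (s * L))) := measureReal_nonneg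
  rcases le_or_gt p η with h2 | h2
  · have : s * p - ε ≤ 0 := by nlinarith
    nlinarith
  refine le_trans ?_ h1
  have hQ0 : 0 < Q := by linarith
  set R : ℝ := ε₀ * Real.exp (s * L) / Q / (Q * L ^ 2) with hR
  have hR0 : 0 < R := by positivity
  have hlR : (s - η) * L ≤ Real.log R := by
    have e : Real.log R = Real.log ε₀ + s * L - 2 * Real.log Q - 2 * Real.log L := by
      rw [hR, Real.log_div (by positivity) (by positivity), Real.log_div (by positivity) hQ0.ne',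
        Real.log_mul hε₀.ne' (Real.exp_pos _).ne', Real.log_exp,
        Real.log_mul hQ0.ne' (by positivity), Real.log_pow]
      push_cast
      ring
    rw [e]
    linarith
  have hR1 : 1 ≤ R := by
    by_contra h
    push Not at h
    have h3 := Real.log_neg hR0 h
    have h4 : 0 ≤ (s - η) * L := mul_nonneg (by linarith) (by linarith)
    linarith
  have h3 := hann (Q * L ^ 2) (ε₀ * Real.exp (s * L) / Q) (by nlinarith) (by
    rwa [hR, le_div_iff₀ (by positivity), one_mul] at hR1)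
  rw [← hR] at h3
  have h4 : (1 - η) * ((s - η) * gk k n) ≤ volume.real (ann n (Q * L ^ 2)
      (ε₀ * Real.exp (s * L) / Q)) := by
    refine le_trans ?_ h3
    have e : (s - η) * gk k n = 2 * Real.pi * ((s - η) * L) / n := by
      unfold gk; ring
    rw [e]
    have : 0 ≤ 1 - η := by linarith
    gcongr
  calc (s * p - ε) * gk k n ≤ ((p - η) * ((1 - η) * (s - η))) * gk k n := by
        gcongr
        have e1 : (p - η) * (s - η) = p * s - η * (p + s) + η ^ 2 := by ring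
        have e2 : p * s - 2 * η ≤ (p - η) * (s - η) := by nlinarith
        have e3 : (p - η) * (s - η) ≤ 1 := by
          calc (p - η) * (s - η) ≤ 1 * 1 := by
                apply mul_le_mul (by linarith) (by linarith) (by linarith) zero_le_one
            _ = 1 := one_mul 1
        have e4 : (p - η) * ((1 - η) * (s - η)) = (p - η) * (s - η) - η * ((p - η) * (s - η)) := by
          ring
        rw [e4]
        nlinarith
    _ = (p - η) * ((1 - η) * ((s - η) * gk k n)) := by ring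
    _ ≤ _ := by
        apply mul_le_mul_of_nonneg_left h4 (by linarith)

/-- The disc of radius `exp (s L)`. -/
def Rad (k : ℕ) (s : ℝ) (n : ℕ) : Set ℂ := {c | Y n c ≤ Real.exp (s * Lk k n)}

/-- The region outside the disc of radius `L ^ 2`. -/
def Out (k n : ℕ) : Set ℂ := {c | Lk k n ^ 2 ≤ Y n c}

/-- The directions of `X 1, ..., X j`. -/
def XV (V : ℕ → Set ℂ) (j n : ℕ) : Set ℂ := {c | ∀ i, 1 ≤ i → i ≤ j → X n c i ∈ V i}

theorem GG_sub {k j n : ℕ} {V W : ℕ → Set ℂ} {s ε₀ : ℝ} (hε₁ : ε₀ ≤ 1)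
    (hVW : ∀ i, V i ⊆ W i) :
    GG n V j (Lk k n ^ 2) (ε₀ * Real.exp (s * Lk k n)) ⊆ Rad k s n ∩ (Out k n ∩ XV W j n) := by
  rintro c ⟨h1, h2, h3⟩
  refine ⟨?_, h1, fun i h4 h5 => hVW i (h3 i h4 h5)⟩
  show Y n c ≤ _
  have := Real.exp_pos (s * Lk k n)
  nlinarith

/-- Attracting cycles of exact period `j + 1`: lower bound. -/
theorem low_Ex {k j : ℕ} (hj : 1 ≤ j) (hjk : j ≤ k) {V : ℕ → Set ℂ} (hV : ∀ i, OC (V i))
    (hre : ∀ i, 1 ≤ i → i < j → V i ⊆ HP) (hre' : V j ⊆ HM) {s : ℝ} (hs0 : 0 ≤ s)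
    (hs1 : s ≤ 1) :
    LowM k (fun n => Ex n (j + 1) ∩ (Rad k s n ∩ (Out k n ∩ XV V j n)))
      (s * ∏ i ∈ Finset.Icc 1 j, pr (V i)) := by
  intro ε hε
  obtain ⟨κ₁, hκ0, hκ1, hκ⟩ := pr_shr_prod hV j (η := ε / 2) (by positivity)
  -- the shrunk cones
  set V' : ℕ → Set ℂ := fun i => shr κ₁ (V i) with hV'
  have hOC : ∀ i, OC (V' i) := fun i => shr_OC (hV i)
  set δ : ℝ := min κ₁ (1 / 10) with hδ
  have hδ0 : 0 < δ := lt_min hκ0 (by norm_num)
  have hδ1 : δ ≤ 1 / 10 := min_le_right _ _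
  have hδκ : δ ≤ κ₁ := min_le_left _ _
  have hlow := low_GG (k := k) (j := j) (by omega) hjk hOC (fun i h1 h2 z hz =>
    (show 0 < z.re from hre i h1 h2 (shr_self_sub hκ0 hz)).le) hs0 hs1 hδ0 hδ1 (ε / 2)
    (by positivity)
  obtain ⟨B, hB, hatt⟩ := attr hδ0 (by linarith) k
  filter_upwards [hlow, eventually_ge_atTop 2, (tLk k).eventually_ge_atTop (max 1 B), gk_pos k,
    E2_small (show 1 ≤ k by omega) hs1 hδ0 (by linarith)] with n ⟨C, c1, c2, c3, c4⟩ hn hL hg hE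
  refine ⟨C, c1, ?_, c3, ?_⟩
  · intro c hc
    have hc' := c2 hc
    refine ⟨?_, GG_sub (by linarith) (fun i => shr_self_sub hκ0) hc'⟩
    have hn1 : 1 ≤ n := by omega
    have hn0 : (0:ℝ) < n := by exact_mod_cast hn1
    have hXb := X_bounds hn1 (fun i h1 h2 z hz =>
      (show 0 < z.re from hre i h1 h2 (shr_self_sub hκ0 hz)).le) hc'
    obtain ⟨g1, g2, g3⟩ := hc'
    have hL1 : 1 ≤ Lk k n := (le_max_left _ _).trans hL
    have hLB : B ≤ Lk k n := (le_max_right _ _).trans hL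
    have hXn : ∀ i, 1 ≤ i → i ≤ j → ‖X n c i‖ ≤ δ * n := fun i h1 h2 =>
      (hXb i h1 h2).2.2.trans (hE _ (by omega))
    refine hatt n j c hn hj hjk (by nlinarith) (fun i h1 h2 => ⟨?_, ?_⟩) ?_ (hXn j hj le_rfl)
    · have h3 := shr_HP hκ0 (hre i h1 h2) (g3 i h1 (by omega))
      have := norm_nonneg (X n c i)
      nlinarith
    · refine (hXn i h1 (by omega)).trans ?_
      nlinarith
    · have h3 := shr_HM hκ0 hre' (g3 j hj le_rfl)
      have := norm_nonneg (X n c j)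
      nlinarith
  · refine le_trans ?_ c4
    apply mul_le_mul_of_nonneg_right _ hg.le
    have h1 : s * ∏ i ∈ Finset.Icc 1 j, pr (V i) - s * (ε / 2) ≤
        s * ∏ i ∈ Finset.Icc 1 j, pr (V' i) := by
      rw [← mul_sub]
      gcongr
    nlinarith

/-- Escape: lower bound. -/
theorem low_Esc {k : ℕ} (hk : 1 ≤ k) {V : ℕ → Set ℂ} (hV : ∀ i, OC (V i))
    (hre : ∀ i, 1 ≤ i → i ≤ k → V i ⊆ HP) {s : ℝ} (hs0 : 0 ≤ s)
    (hs1 : s ≤ 1) :
    LowM k (fun n => (NN n k)ᶜ ∩ (Rad k s n ∩ (Out k n ∩ XV V k n)))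
      (s * ∏ i ∈ Finset.Icc 1 k, pr (V i)) := by
  intro ε hε
  obtain ⟨κ₁, hκ0, hκ1, hκ⟩ := pr_shr_prod hV k (η := ε / 2) (by positivity)
  -- the shrunk cones
  set V' : ℕ → Set ℂ := fun i => shr κ₁ (V i) with hV'
  have hOC : ∀ i, OC (V' i) := fun i => shr_OC (hV i)
  set δ : ℝ := min κ₁ (1 / 10) with hδ
  have hδ0 : 0 < δ := lt_min hκ0 (by norm_num)
  have hδ1 : δ ≤ 1 / 10 := min_le_right _ _
  have hδκ : δ ≤ κ₁ := min_le_left _ _
  have hlow := low_GG (k := k) (j := k) (by omega) le_rfl hOC (fun i h1 h2 z hz =>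
    (show 0 < z.re from hre i h1 h2.le (shr_self_sub hκ0 hz)).le) hs0 hs1 hδ0 hδ1 (ε / 2)
    (by positivity)
  have hln : Tendsto (fun n : ℕ => Real.log (n:ℝ)) atTop atTop :=
    Real.tendsto_log_atTop.comp tendsto_natCast_atTop_atTop
  filter_upwards [hlow, eventually_ge_atTop (10 ^ 6), (tLk k).eventually_ge_atTop 1, gk_pos k,
    E2_small (show 1 ≤ k by omega) hs1 hδ0 (by linarith), Ed_iter hδ0 (k - 1),
    hln.eventually_ge_atTop (4 / δ)] with n ⟨C, c1, c2, c3, c4⟩ hn hL hg hE hEd hl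
  refine ⟨C, c1, ?_, c3, ?_⟩
  · intro c hc
    have hc' := c2 hc
    refine ⟨?_, GG_sub (by linarith) (fun i => shr_self_sub hκ0) hc'⟩
    have hn1 : 1 ≤ n := by omega
    have hn0 : (0:ℝ) < n := by exact_mod_cast hn1
    have hXb := X_bounds hn1 (fun i h1 h2 z hz =>
      (show 0 < z.re from hre i h1 h2.le (shr_self_sub hκ0 hz)).le) hc'
    obtain ⟨g1, g2, g3⟩ := hc'
    have hXn : ∀ i, 1 ≤ i → i ≤ k → ‖X n c i‖ ≤ δ * n := fun i h1 h2 =>
      (hXb i h1 h2).2.2.trans (hE _ (by omega))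
    have hXn' : ∀ i, 1 ≤ i → i ≤ k → ‖X n c i‖ ≤ n := fun i h1 h2 => by
      refine (hXn i h1 h2).trans ?_
      nlinarith
    have hY1 : 1 ≤ Y n c := by nlinarith
    have hsec : ∀ i, 1 ≤ i → i ≤ k → δ * ‖X n c i‖ ≤ (X n c i).re := by
      intro i h1 h2
      have h3 := shr_HP hκ0 (hre i h1 h2) (g3 i h1 h2)
      have := norm_nonneg (X n c i)
      nlinarith
    have hlw := X_lower hn1 (j := k) hδ0 (by linarith) g1 hY1
      (fun i h1 h2 => ⟨hsec i h1 h2.le, hXn' i h1 h2.le⟩) k hk le_rfl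
    have e : k - 1 + 1 = k := by omega
    rw [e] at hEd
    have h5 : Real.log (n:ℝ) ^ 2 ≤ ‖X n c k‖ := hEd.trans hlw
    refine escape hn hk hδ0 (by linarith) hY1 (hsec k hk le_rfl) (hXn' k hk le_rfl) ?_
    rw [div_le_iff₀ hδ0] at hl
    have hl0 : 0 ≤ Real.log (n:ℝ) := Real.log_natCast_nonneg n
    calc 4 * Real.log (n:ℝ) ≤ (Real.log (n:ℝ) * δ) * Real.log (n:ℝ) := by gcongr
      _ = δ * Real.log (n:ℝ) ^ 2 := by ring
      _ ≤ _ := by gcongr
  · refine le_trans ?_ c4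
    apply mul_le_mul_of_nonneg_right _ hg.le
    have h1 : s * ∏ i ∈ Finset.Icc 1 k, pr (V i) - s * (ε / 2) ≤
        s * ∏ i ∈ Finset.Icc 1 k, pr (V' i) := by
      rw [← mul_sub]
      gcongr
    nlinarith

end Pool.Agent.K3h79.MA
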