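import Mathlib
import Pool.Agent.K3h79.MA.Main

/-! The asymptotic upper bounds. -/

set_option autoImplicit false
open Metric MeasureTheory Set Filter Topology

namespace Pool.Agent.K3h79.MA

open Pool.Agent.W747.MB Pool.Agent.TH363.CD

theorem Lk_le (m : ℕ) : ∀ᶠ n : ℕ in atTop, Lk m n ≤ n := by
  induction m with
  | zero => exact Eventually.of_forall fun n => le_refl _
  | succ m ih =>
    filter_upwards [ih, (tLk m).eventually_gt_atTop 0] with n h1 h2
    have e : Lk (m + 1) n = Real.log (Lk m n) := Function.iterate_succ_apply' _ _ _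
    rw [e]
    have := Real.log_le_sub_one_of_pos h2
    linarith

theorem small_const (k : ℕ) (K : ℝ) {ε : ℝ} (hε : 0 < ε) : ∀ᶠ n : ℕ in atTop,
    K / n ≤ ε * gk k n := by
  filter_upwards [(tLk k).eventually_ge_atTop (|K| / ε), eventually_gt_atTop 0,
    (tLk k).eventually_ge_atTop 0] with n h1 h2 h4
  have h3 : (0:ℝ) < n := by exact_mod_cast h2
  rw [div_le_iff₀ hε] at h1
  have hpi := Real.pi_gt_three
  have e : ε * gk k n = (ε * (2 * Real.pi * Lk k n)) / n := by unfold gk; ring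
  rw [e]
  gcongr
  have := le_abs_self K
  have h5 : 0 ≤ ε * Lk k n := by positivity
  nlinarith

/-- Upper bound for the whole annulus. -/
theorem up_ann {k : ℕ} (hk : 1 ≤ k) {s : ℝ} (hs1 : s ≤ 1) :
    UpB k (fun n => Rad k s n ∩ Out k n) s := by
  intro ε hε
  have hpi := Real.pi_pos
  filter_upwards [ann_upper ε hε, radius_le hk hs1, Lk_le (k - 1), (tLk k).eventually_ge_atTop 1,
    gk_pos k, eventually_ge_atTop 2] with n h1 h2 h3 h4 h5 h6
  have hn0 : (0:ℝ) < n := by
    have : 0 < n := by omega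
    exact_mod_cast this
  set L := Lk k n with hL
  have h7 : Rad k s n ∩ Out k n = ann n (L ^ 2) (Real.exp (s * L)) := by
    ext c
    constructor
    · rintro ⟨g1, g2⟩
      exact ⟨g2, g1⟩
    · rintro ⟨g1, g2⟩
      exact ⟨g2, g1⟩
  show volume (Rad k s n ∩ Out k n) ≤ _
  rw [h7]
  rcases le_or_gt (L ^ 2) (Real.exp (s * L)) with h8 | h8
  · have h9 := h1 (L ^ 2) (Real.exp (s * L)) (by positivity) h8 (h2.trans h3)
    rw [← ENNReal.ofReal_toReal (ann_finite h6 _ _)]
    apply ENNReal.ofReal_le_ofReal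
    refine h9.trans ?_
    have h10 : Real.log (Real.exp (s * L) / L ^ 2) ≤ s * L := by
      rw [Real.log_div (Real.exp_pos _).ne' (by positivity), Real.log_exp, Real.log_pow]
      have : 0 ≤ Real.log L := Real.log_nonneg h4
      push_cast
      linarith
    calc (1 + ε) * (2 * Real.pi * Real.log (Real.exp (s * L) / L ^ 2) / n)
        ≤ (1 + ε) * (2 * Real.pi * (s * L) / n) := by gcongr
      _ = (s + s * ε) * gk k n := by unfold gk; ring
      _ ≤ (s + ε) * gk k n := by
          gcongr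
          nlinarith
  · have h9 : ann n (L ^ 2) (Real.exp (s * L)) = ∅ := by
      rw [eq_empty_iff_forall_notMem]
      rintro c ⟨g1, g2⟩
      linarith
    rw [h9, measure_empty]
    exact zero_le

/-- Signs: right half-plane before `m`, left half-plane from `m` on. -/
def sg (m : ℕ) : ℕ → Set ℂ := fun i => if i < m then HP else HM

theorem OC_sg (m i : ℕ) : OC (sg m i) := by
  unfold sg
  split_ifs
  · exact OC_HP
  · exact OC_HM

theorem pr_sg (m i : ℕ) : pr (sg m i) = 1 / 2 := by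
  unfold sg
  split_ifs
  · exact pr_HP
  · exact pr_HM

theorem HP_HM {z : ℂ} (h1 : z ∈ HP) (h2 : z ∈ HM) : False := by
  have h3 : 0 < z.re := h1
  have h4 : z.re < 0 := h2
  linarith

theorem low_sg {k j : ℕ} (hj : 1 ≤ j) (hjk : j ≤ k) {s : ℝ} (hs0 : 0 ≤ s) (hs1 : s ≤ 1) :
    LowM k (fun n => Ex n (j + 1) ∩ (Rad k s n ∩ (Out k n ∩ XV (sg j) j n))) (s / 2 ^ j) := by
  have h := low_Ex hj hjk (OC_sg j) (fun i h1 h2 => by simp [sg, h2]) (by simp [sg]) hs0 hs1
  refine h.mono (Eventually.of_forall fun n => subset_rfl) (le_of_eq ?_)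
  simp only [pr_sg, Finset.prod_const, Nat.card_Icc, Nat.add_sub_cancel]
  rw [one_div, inv_pow, div_eq_mul_inv]

/-- Upper bound for the sets given by directions in the right half-plane. -/
theorem up_Q {k : ℕ} (hk : 1 ≤ k) {s : ℝ} (hs0 : 0 ≤ s) (hs1 : s ≤ 1) (m : ℕ) (hm : m ≤ k) :
    UpB k (fun n => Rad k s n ∩ (Out k n ∩ XV (fun _ => HP) m n)) (s / 2 ^ m) := by
  induction m with
  | zero =>
    refine (up_ann hk hs1).mono (Eventually.of_forall fun n c hc => ?_) (by simp)
    exact ⟨hc.1, hc.2.1⟩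
  | succ m ih =>
    have h1 := ih (by omega)
    have h2 := low_sg (k := k) (j := m + 1) (by omega) hm hs0 hs1
    refine (h1.diff h2 (Eventually.of_forall fun n => ⟨?_, ?_, ?_⟩)).mono
      (Eventually.of_forall fun n => subset_rfl) (le_of_eq ?_)
    · rintro c ⟨g1, g2, g3⟩
      exact ⟨g1, g2, fun i e1 e2 => g3 i e1 (by omega)⟩
    · rintro c ⟨-, g1, g2, g3⟩
      refine ⟨g1, g2, fun i e1 e2 => ?_⟩
      have := g3 i e1 (by omega)
      simpa [sg, show i < m + 1 by omega] using this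
    · rw [Set.disjoint_left]
      rintro c ⟨g1, g2, g3⟩ ⟨-, -, -, g4⟩
      have e1 := g3 (m + 1) (by omega) le_rfl
      have e2 := g4 (m + 1) (by omega) le_rfl
      simp only [sg, lt_irrefl, if_false] at e2
      exact HP_HM e1 e2
    · rw [pow_succ]; field_simp; ring

theorem low_HP {k j : ℕ} (hk : 1 ≤ k) (hjk : j ≤ k) {s : ℝ} (hs0 : 0 ≤ s) (hs1 : s ≤ 1) :
    LowM k (fun n => Rad k s n ∩ (Out k n ∩ XV (fun _ => HP) j n)) (s / 2 ^ j) := by
  have h := low_GG (k := k) (j := j) hk hjk (V := fun _ => HP) (fun _ => OC_HP)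
    (fun i _ _ z hz => (show 0 < z.re from hz).le) hs0 hs1 (ε₀ := 1 / 10) (by norm_num) le_rfl
  refine h.mono (Eventually.of_forall fun n => GG_sub (by norm_num) fun i => subset_rfl)
    (le_of_eq ?_)
  simp only [pr_HP, Finset.prod_const, Nat.card_Icc, Nat.add_sub_cancel]
  rw [one_div, inv_pow, div_eq_mul_inv]

theorem Ex_disj_NN {n j k : ℕ} (hj : j ≤ k) (hj1 : 1 ≤ j) : Disjoint (NN n k) (Ex n j) := by
  rw [Set.disjoint_left]
  rintro c h1 ⟨z, h2, h3⟩
  exact h1.2 j hj1 hj ⟨z, h2⟩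

/-- The part of `NN` with the first `m` directions in the right half-plane. -/
def Rm (k : ℕ) (s : ℝ) (m n : ℕ) : Set ℂ :=
  NN n k ∩ (Rad k s n ∩ (Out k n ∩ XV (fun _ => HP) m n))

theorem up_Z {k : ℕ} (hk : 1 ≤ k) {s : ℝ} (hs0 : 0 ≤ s) (hs1 : s ≤ 1) (m : ℕ)
    (hm : m + 1 < k) :
    UpB k (fun n => Rm k s m n \ XV (fun _ => HP) (m + 1) n) 0 := by
  have h1 := up_Q hk hs0 hs1 m (by omega)
  have h2 := low_sg (k := k) (j := m + 1) (by omega) (by omega) hs0 hs1
  have h3 := low_HP (k := k) (j := m + 1) hk (by omega) hs0 hs1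
  have h4 := h2.union h3 (E := fun n => (Ex n (m + 1 + 1) ∩ (Rad k s n ∩ (Out k n ∩
      XV (sg (m + 1)) (m + 1) n))) ∪ (Rad k s n ∩ (Out k n ∩ XV (fun _ => HP) (m + 1) n)))
    (Eventually.of_forall fun n => ⟨?_, subset_rfl⟩)
  · refine (h1.diff h4 (Eventually.of_forall fun n => ⟨?_, ?_, ?_⟩)).mono
      (Eventually.of_forall fun n => subset_rfl) (le_of_eq ?_)
    · rintro c ⟨⟨-, g⟩, -⟩
      exact g
    · rintro c (⟨-, g1, g2, g3⟩ | ⟨g1, g2, g3⟩)
      · refine ⟨g1, g2, fun i e1 e2 => ?_⟩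
        have := g3 i e1 (by omega)
        simpa [sg, show i < m + 1 by omega] using this
      · exact ⟨g1, g2, fun i e1 e2 => g3 i e1 (by omega)⟩
    · rw [Set.disjoint_left]
      rintro c ⟨⟨g1, g2⟩, g3⟩ (⟨g4, -⟩ | ⟨-, -, g4⟩)
      · exact Set.disjoint_left.1 (Ex_disj_NN (by omega) (by omega)) g1 g4
      · exact g3 g4
    · rw [pow_succ]; field_simp; ring
  · rw [Set.disjoint_left]
    rintro c ⟨-, -, -, g4⟩ ⟨g1, g2, g3⟩
    have e1 := g3 (m + 1) (by omega) le_rfl
    have e2 := g4 (m + 1) (by omega) le_rfl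
    simp only [sg, lt_irrefl, if_false] at e2
    exact HP_HM e1 e2

theorem up_R {k : ℕ} (hk : 1 ≤ k) {s : ℝ} (hs0 : 0 ≤ s) (hs1 : s ≤ 1) (d : ℕ) (hd : d + 1 ≤ k) :
    UpB k (Rm k s (k - 1 - d)) (s / 2 ^ k) := by
  induction d with
  | zero =>
    have h1 := up_Q hk hs0 hs1 (k - 1) (by omega)
    have h2 := low_Esc hk (V := fun _ => HP) (fun _ => OC_HP) (fun _ _ _ => subset_rfl) hs0 hs1
    refine (h1.diff h2 (Eventually.of_forall fun n => ⟨?_, ?_, ?_⟩)).mono
      (Eventually.of_forall fun n => subset_rfl) (le_of_eq ?_)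
    · rintro c ⟨-, g⟩
      exact g
    · rintro c ⟨-, g1, g2, g3⟩
      exact ⟨g1, g2, fun i e1 e2 => g3 i e1 (by omega)⟩
    · rw [Set.disjoint_left]
      rintro c ⟨g1, -⟩ ⟨g2, -⟩
      exact g2 g1
    · simp only [pr_HP, Finset.prod_const, Nat.card_Icc, Nat.add_sub_cancel]
      obtain ⟨m, rfl⟩ : ∃ m, k = m + 1 := ⟨k - 1, by omega⟩
      rw [Nat.add_sub_cancel, pow_succ, pow_succ]
      have : (0:ℝ) < 2 ^ m := by positivity
      rw [one_div, inv_pow]
      field_simp
      ring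
  | succ d ih =>
    have h1 := ih (by omega)
    have e : k - 1 - d = (k - 1 - (d + 1)) + 1 := by omega
    rw [e] at h1
    have h2 := up_Z hk hs0 hs1 (k - 1 - (d + 1)) (by omega)
    have h3 := UpB.union (E := Rm k s (k - 1 - (d + 1))) le_rfl (by positivity) h2 h1
      (Eventually.of_forall fun n => ?_)
    · rwa [zero_add] at h3
    · rintro c hc
      by_cases h4 : c ∈ XV (fun _ => HP) (k - 1 - (d + 1) + 1) n
      · right
        exact ⟨hc.1, hc.2.1, hc.2.2.1, h4⟩
      · left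
        exact ⟨hc, h4⟩

/-- The inner part. -/
theorem up_in {k : ℕ} (hk : 1 ≤ k) : UpB k (fun n => NN n k \ Out k n) 0 := by
  intro ε hε
  have hpi := Real.pi_pos
  filter_upwards [ann_upper 1 one_pos, log_small_Lk k (show (0:ℝ) < min 1 (ε / 2) by positivity)
    (Real.log 3), radius_le hk (le_refl (1:ℝ)), Lk_le (k - 1), (tLk k).eventually_ge_atTop 1,
    gk_pos k, eventually_ge_atTop (10 ^ 6)] with n h1 h2 h3 h4 h5 h6 h7
  set L := Lk k n with hL
  have hn0 : (0:ℝ) < n := by
    have : 0 < n := by omega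
    exact_mod_cast this
  have hlL : 0 ≤ Real.log L := Real.log_nonneg h5
  have hl3 : 0 ≤ Real.log 3 := Real.log_nonneg (by norm_num)
  have hsub : NN n k \ Out k n ⊆ ann n (1 / 3) (L ^ 2) := by
    rintro c ⟨g1, g2⟩
    have h8 := (alv' h7 g1.1 (g1.2 1 le_rfl hk)).1
    refine ⟨h8, ?_⟩
    have h9 : ¬ (L ^ 2 ≤ Y n c) := g2
    linarith
  refine (measure_mono hsub).trans ?_
  have hLn : L ^ 2 ≤ n := by
    have e1 : L ^ 2 = Real.exp (2 * Real.log L) := by
      rw [mul_comm, Real.exp_mul, Real.exp_log (by linarith)]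
      norm_num
    rw [e1]
    refine le_trans ?_ (h3.trans h4)
    apply Real.exp_le_exp.2
    have := min_le_left (1:ℝ) (ε / 2)
    nlinarith
  have h8 := h1 (1 / 3) (L ^ 2) (by norm_num) (by nlinarith) hLn
  rw [← ENNReal.ofReal_toReal (ann_finite (by omega) _ _)]
  apply ENNReal.ofReal_le_ofReal
  refine h8.trans ?_
  have h9 : Real.log (L ^ 2 / (1 / 3)) = 2 * Real.log L + Real.log 3 := by
    rw [div_div_eq_mul_div, div_one, Real.log_mul (by positivity) (by norm_num), Real.log_pow]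
    push_cast
    ring
  rw [h9, zero_add]
  calc (1 + 1) * (2 * Real.pi * (2 * Real.log L + Real.log 3) / n)
      ≤ (1 + 1) * (2 * Real.pi * (ε / 2 * L) / n) := by
        gcongr
        refine h2.trans ?_
        gcongr
        exact min_le_right _ _
    _ = ε * gk k n := by unfold gk; ring

/-- The parameters without attracting cycle of period at most `k`, in the disc. -/
theorem up_rad {k : ℕ} (hk : 1 ≤ k) {s : ℝ} (hs0 : 0 ≤ s) (hs1 : s ≤ 1) :
    UpB k (fun n => NN n k ∩ Rad k s n) (s / 2 ^ k) := by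
  have h1 := up_R hk hs0 hs1 (k - 1) (by omega)
  have e : k - 1 - (k - 1) = 0 := by omega
  rw [e] at h1
  have h2 := UpB.union (E := fun n => NN n k ∩ Rad k s n) le_rfl (by positivity) (up_in hk) h1
    (Eventually.of_forall fun n => ?_)
  · rwa [zero_add] at h2
  · rintro c ⟨g1, g2⟩
    by_cases h3 : c ∈ Out k n
    · right
      exact ⟨g1, g2, h3, fun i e1 e2 => by omega⟩
    · left
      exact ⟨g1, h3⟩

/-- The outer part. -/
theorem up_out {k : ℕ} (hk : 1 ≤ k) : UpB k (fun n => NN n k \ Rad k 1 n) 0 := by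
  obtain ⟨i, rfl⟩ : ∃ i, k = i + 1 := ⟨k - 1, by omega⟩
  obtain ⟨C, hC, hU⟩ := UU_all i
  obtain ⟨C', hC', hLam⟩ := Lam_le i
  intro ε hε
  filter_upwards [small_const (i + 1) (2000 * Real.log (10 ^ 20 * C')) (half_pos hε),
    small_const (i + 1) (600000 * C * 2) (half_pos hε), hLam,
    eventually_ge_atTop (10 ^ 6), (tLk i).eventually_ge_atTop 1, gk_pos (i + 1), Lk_le i]
    with n h1 h2 h3 hn h5 h6 hLn
  have hn2 : 2 ≤ n := by omega
  have hnR : (10 : ℝ) ^ 6 ≤ n := by exact_mod_cast hn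
  have hn0 : (0 : ℝ) < n := by linarith
  have hL1 : 1 ≤ Lam i n := one_le_Lam (by linarith) i
  set b : ℝ := 10 ^ 20 * Lam i n with hb
  have hb20 : 10 ^ 20 ≤ b := by rw [hb]; nlinarith
  have hb0 : 0 < b := lt_of_lt_of_le (by norm_num) hb20
  obtain ⟨K, hK⟩ : ∃ K : ℕ, 2 * (n : ℝ) < 2 ^ K * b := by
    obtain ⟨K, hK⟩ := pow_unbounded_of_one_lt (2 * (n : ℝ) / b) (show (1 : ℝ) < 2 by norm_num)
    exact ⟨K, by rwa [div_lt_iff₀ hb0] at hK⟩
  have t1 := tailN hC hU hn K b hb20 hK
  set Λ := Lk i n with hΛ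
  have hΛ' : Real.log^[i] (n:ℝ) = Λ := rfl
  rw [hΛ'] at h3
  have e1 : Lk (i + 1) n = Real.log Λ := Function.iterate_succ_apply' _ _ _
  have e2 : Real.exp (1 * Lk (i + 1) n) = Λ := by
    rw [e1, one_mul, Real.exp_log (by linarith)]
  set b' : ℝ := min b (2 * n) with hb'
  have hΛ0 : 0 < Λ := by linarith
  have hsub : NN n (i + 1) \ Rad (i + 1) 1 n ⊆ {c : ℂ | Λ ≤ Y n c ∧ Y n c ≤ b'} ∪
      (NN n (i + 1) ∩ {c | b ≤ Y n c}) := by
    rintro c ⟨g1, g2⟩
    have g3 : ¬ (Y n c ≤ Real.exp (1 * Lk (i + 1) n)) := g2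
    rw [e2, not_le] at g3
    rcases le_total b (Y n c) with h | h
    · exact Or.inr ⟨g1, h⟩
    · exact Or.inl ⟨g3.le, le_min h (NN_two hn2 g1)⟩
  have hA : volume {c : ℂ | Λ ≤ Y n c ∧ Y n c ≤ b'} ≤
      ENNReal.ofReal (2000 * Real.log (10 ^ 20 * C') / n) := by
    rcases le_or_gt Λ b' with h | h
    · have h7 := Pool.Agent.W216.MB.ANN.main n hn2 Λ b' hΛ0 h
        ((min_le_right _ _).trans (by linarith))
      refine h7.trans (ENNReal.ofReal_le_ofReal ?_)
      gcongr
      rw [div_le_iff₀ hΛ0]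
      calc b' ≤ b := min_le_left _ _
        _ ≤ 10 ^ 20 * (C' * Λ) := by rw [hb]; gcongr
        _ = _ := by ring
    · have h8 : {c : ℂ | Λ ≤ Y n c ∧ Y n c ≤ b'} = ∅ := by
        rw [eq_empty_iff_forall_notMem]
        rintro c ⟨g1, g2⟩
        linarith
      rw [h8, measure_empty]
      exact zero_le
  have hT : 600000 * C * (Lam i n + 2 + Real.log b) / (n * b) ≤ 600000 * C * 2 / n := by
    have hlb : Real.log b = Real.log (10 ^ 20) + Real.log (Lam i n) := by
      rw [hb, Real.log_mul (by norm_num) (by linarith)]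
    rw [div_le_div_iff₀ (by positivity) hn0]
    have hl10 := log10
    have h6 : Real.log b ≤ 62 + Lam i n := by
      rw [hlb]
      have := Real.log_le_sub_one_of_pos (show 0 < Lam i n by linarith)
      linarith
    have h7 : Lam i n + 2 + Real.log b ≤ 2 * b := by
      rw [hb]; nlinarith
    have h8 : 600000 * C * (Lam i n + 2 + Real.log b) ≤ 600000 * C * (2 * b) := by
      gcongr
    nlinarith
  refine (measure_mono hsub).trans ((measure_union_le _ _).trans ((add_le_add hA
    (t1.trans (ENNReal.ofReal_le_ofReal hT))).trans ?_))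
  have hlC : 0 ≤ 2000 * Real.log (10 ^ 20 * C') / n := by
    have : 0 ≤ Real.log (10 ^ 20 * C') := Real.log_nonneg (by nlinarith)
    positivity
  rw [← ENNReal.ofReal_add hlC (by positivity)]
  apply ENNReal.ofReal_le_ofReal
  calc 2000 * Real.log (10 ^ 20 * C') / n + 600000 * C * 2 / n
      ≤ ε / 2 * gk (i + 1) n + ε / 2 * gk (i + 1) n := add_le_add h1 h2
    _ = (0 + ε) * gk (i + 1) n := by ring

/-- All the parameters without attracting cycle of period at most `k`. -/
theorem up_tot {k : ℕ} (hk : 1 ≤ k) : UpB k (fun n => NN n k) (1 / 2 ^ k) := by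
  have h := UpB.union (E := fun n => NN n k) (by positivity) le_rfl
    (up_rad hk zero_le_one (le_refl (1:ℝ))) (up_out hk) (Eventually.of_forall fun n c hc => ?_)
  · rwa [add_zero] at h
  · by_cases h1 : c ∈ Rad k 1 n
    · exact Or.inl ⟨hc, h1⟩
    · exact Or.inr ⟨hc, h1⟩

/-- The cones of a directional law: the first `m` are prescribed. -/
def mix (V : ℕ → Set ℂ) (k m : ℕ) : ℕ → Set ℂ := fun i => if i ≤ m then V i else sg k i

/-- The upper bound in the directional law. -/
theorem up_dir {k : ℕ} (hk : 1 ≤ k) {s : ℝ} (hs0 : 0 ≤ s) (hs1 : s ≤ 1) {V V' : ℕ → Set ℂ}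
    (hV : ∀ i, OC (V i)) (hV' : ∀ i, OC (V' i)) (hsub : ∀ i, V i ⊆ sg k i)
    (hsub' : ∀ i, V' i ⊆ sg k i) (hdis : ∀ i, Disjoint (V i) (V' i))
    (hpr : ∀ i, pr (V i) + pr (V' i) = 1 / 2) (m : ℕ) (hm : m ≤ k) :
    UpB k (fun n => NN n k ∩ (Rad k s n ∩ XV (mix V k m) k n))
      (s * ((∏ i ∈ Finset.Icc 1 m, pr (V i)) / 2 ^ (k - m))) := by
  induction m with
  | zero =>
    refine (up_rad hk hs0 hs1).mono (Eventually.of_forall fun n c hc => ⟨hc.1, hc.2.1⟩)
      (le_of_eq ?_)
    simp [div_eq_mul_inv]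
  | succ m ih =>
    have h1 := ih (by omega)
    -- the complementary piece
    set W : ℕ → Set ℂ := fun i => if i ≤ m then V i else if i = m + 1 then V' i else sg k i
      with hW
    have hWOC : ∀ i, OC (W i) := by
      intro i
      simp only [hW]
      split_ifs
      · exact hV i
      · exact hV' i
      · exact OC_sg k i
    have hWsub : ∀ i, W i ⊆ sg k i := by
      intro i
      simp only [hW]
      split_ifs
      · exact hsub i
      · exact hsub' i
      · exact subset_rfl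
    have h2 := low_Ex (k := k) (j := k) (V := W) hk le_rfl hWOC (fun i e1 e2 => by
      have := hWsub i
      simpa [sg, e2] using this) (by
      have := hWsub k
      simpa [sg] using this) hs0 hs1
    have hprod : ∏ i ∈ Finset.Icc 1 k, pr (W i) =
        (∏ i ∈ Finset.Icc 1 m, pr (V i)) * pr (V' (m + 1)) / 2 ^ (k - (m + 1)) := by
      have e1 : Finset.Icc 1 k = Finset.Icc 1 (m + 1) ∪ Finset.Icc (m + 2) k := by
        ext i
        simp only [Finset.mem_Icc, Finset.mem_union]
        omega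
      have e2 : Disjoint (Finset.Icc 1 (m + 1)) (Finset.Icc (m + 2) k) := by
        rw [Finset.disjoint_left]
        intro i h3 h4
        simp only [Finset.mem_Icc] at h3 h4
        omega
      rw [e1, Finset.prod_union e2, Finset.prod_Icc_succ_top (by omega)]
      have e3 : ∏ i ∈ Finset.Icc 1 m, pr (W i) = ∏ i ∈ Finset.Icc 1 m, pr (V i) := by
        refine Finset.prod_congr rfl fun i hi => ?_
        simp only [Finset.mem_Icc] at hi
        simp only [hW, hi.2, if_true]
      have e4 : pr (W (m + 1)) = pr (V' (m + 1)) := by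
        simp [hW]
      have e5 : ∏ i ∈ Finset.Icc (m + 2) k, pr (W i) = 1 / 2 ^ (k - (m + 1)) := by
        have : ∀ i ∈ Finset.Icc (m + 2) k, pr (W i) = 1 / 2 := by
          intro i hi
          simp only [Finset.mem_Icc] at hi
          have e6 : ¬ i ≤ m := by omega
          have e7 : ¬ i = m + 1 := by omega
          simp only [hW, e6, e7, if_false, pr_sg]
        rw [Finset.prod_congr rfl this, Finset.prod_const, Nat.card_Icc, one_div, inv_pow, one_div]
        congr 2
        omega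
      rw [e3, e4, e5]
      ring
    refine (h1.diff h2 ((eventually_ge_atTop 2).mono fun n hn => ⟨?_, ?_, ?_⟩)).mono
      (Eventually.of_forall fun n => subset_rfl) (le_of_eq ?_)
    · rintro c ⟨g1, g2, g3⟩
      refine ⟨g1, g2, fun i e1 e2 => ?_⟩
      have h3 := g3 i e1 e2
      simp only [mix] at h3 ⊢
      by_cases h4 : i ≤ m
      · simpa [h4, show i ≤ m + 1 by omega] using h3
      · by_cases h5 : i ≤ m + 1
        · simp only [h5, if_true] at h3
          simp only [h4, if_false]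
          exact hsub i h3
        · simpa [h4, h5] using h3
    · rintro c ⟨g1, g2, -, g3⟩
      refine ⟨Ex_sub_NN hn k g1, g2, fun i e1 e2 => ?_⟩
      have h3 := g3 i e1 e2
      simp only [mix]
      by_cases h4 : i ≤ m
      · simpa [hW, h4] using h3
      · simp only [h4, if_false]
        exact hWsub i h3
    · rw [Set.disjoint_left]
      rintro c ⟨-, -, g3⟩ ⟨-, -, -, g4⟩
      have e1 := g3 (m + 1) (by omega) hm
      have e2 := g4 (m + 1) (by omega) hm
      simp only [mix, le_refl, if_true] at e1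
      have e3 : ¬ (m + 1 ≤ m) := by omega
      simp only [hW, e3, if_false, if_true] at e2
      exact Set.disjoint_left.1 (hdis (m + 1)) e1 e2
    · rw [hprod, Finset.prod_Icc_succ_top (by omega)]
      have e1 : k - m = k - (m + 1) + 1 := by omega
      rw [e1, pow_succ]
      have e2 := hpr (m + 1)
      have e3 : pr (V (m + 1)) = 1 / 2 - pr (V' (m + 1)) := by linarith
      rw [e3]
      field_simp

end Pool.Agent.K3h79.MA
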