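import Mathlib
import Pool.Agent.K3h79.MA.Up

/-! The limits. -/

set_option autoImplicit false
open Metric MeasureTheory Set Filter Topology

namespace Pool.Agent.K3h79.MA

open Pool.Agent.W747.MB Pool.Agent.TH363.CD

/-- From the two bounds to the limit. -/
theorem tendsto_of {k : ℕ} {S : ℕ → Set ℂ} {v : ℝ} (hv : 0 ≤ v) (h1 : LowM k S v)
    (h2 : UpB k S v) :
    Tendsto (fun n : ℕ => volume.real (S n) * n / Real.log^[k] (n:ℝ)) atTop
      (𝓝 (2 * Real.pi * v)) := by
  have hpi := Real.pi_gt_three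
  rw [Metric.tendsto_nhds]
  intro ε hε
  have hε' : 0 < ε / (4 * Real.pi) := by positivity
  filter_upwards [h1 _ hε', h2 _ hε', gk_pos k, (tLk k).eventually_gt_atTop 0,
    eventually_gt_atTop 0] with n ⟨C, c1, c2, c3, c4⟩ h3 h4 h5 h6
  have hn0 : (0:ℝ) < n := by exact_mod_cast h6
  have hfin : volume (S n) ≠ ⊤ := ne_top_of_le_ne_top ENNReal.ofReal_ne_top h3
  have h7 : (v - ε / (4 * Real.pi)) * gk k n ≤ volume.real (S n) :=
    c4.trans (measureReal_mono c2 hfin)
  have h8 : volume.real (S n) ≤ (v + ε / (4 * Real.pi)) * gk k n := by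
    rw [measureReal_def]
    exact ENNReal.toReal_le_of_le_ofReal (by positivity) h3
  have e : gk k n = 2 * Real.pi * Lk k n / n := rfl
  have e' : Real.log^[k] (n:ℝ) = Lk k n := rfl
  rw [e']
  rw [e] at h7 h8
  rw [Real.dist_eq, abs_lt]
  have e1 : (v - ε / (4 * Real.pi)) * (2 * Real.pi) = 2 * Real.pi * v - ε / 2 := by
    field_simp
    ring
  have e2 : (v + ε / (4 * Real.pi)) * (2 * Real.pi) = 2 * Real.pi * v + ε / 2 := by
    field_simp
    ring
  constructor
  · have h9 : 2 * Real.pi * v - ε / 2 ≤ volume.real (S n) * n / Lk k n := by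
      rw [le_div_iff₀ h5, ← e1]
      calc (v - ε / (4 * Real.pi)) * (2 * Real.pi) * Lk k n =
          ((v - ε / (4 * Real.pi)) * (2 * Real.pi * Lk k n / n)) * n := by field_simp
        _ ≤ _ := by gcongr
    linarith
  · have h9 : volume.real (S n) * n / Lk k n ≤ 2 * Real.pi * v + ε / 2 := by
      rw [div_le_iff₀ h5, ← e2]
      calc volume.real (S n) * n ≤
          ((v + ε / (4 * Real.pi)) * (2 * Real.pi * Lk k n / n)) * n := by gcongr
        _ = _ := by field_simp
    linarith

/-- A parameter with an attracting fixed point. -/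
theorem Y_le_three {n : ℕ} (hn : 2 ≤ n) {c : ℂ}
    (h : ∃ z, N62a1eb23.IsAttractingCycle (f n c) 1 z) : Y n c ≤ 3 := by
  obtain ⟨z, -, hper, -, hd⟩ := h
  have hn2 : (2:ℝ) ≤ n := by exact_mod_cast hn
  have hn0 : (0:ℝ) < n := by linarith
  have hn1 : (0:ℝ) < (n:ℝ) - 1 := by linarith
  have hdd : deriv (f n c) z = n * z ^ (n - 1) :=
    (Pool.Agent.H749R2.Hyp.hasDerivAt_f n c z).deriv
  rw [Function.iterate_one, hdd, norm_mul, norm_pow, Complex.norm_natCast] at hd
  have hfix : z ^ n + c = z := hper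
  have hc : c = z * (1 - z ^ (n - 1)) := by
    have h1 : z ^ n = z * z ^ (n - 1) := by
      rw [← pow_succ']
      congr 1
      omega
    rw [h1] at hfix
    linear_combination hfix
  set r : ℝ := ‖z‖ ^ (n - 1) with hr
  have hr0 : 0 ≤ r := by positivity
  have hr1 : r ≤ 1 / n := by
    rw [le_div_iff₀ hn0, mul_comm]
    exact hd.le
  have h2 : ‖1 - z ^ (n - 1)‖ ≤ 1 + 1 / n := by
    refine (norm_sub_le _ _).trans ?_
    rw [norm_one, norm_pow]
    linarith
  have hcast : ((n - 1 : ℕ) : ℝ) = (n : ℝ) - 1 := by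
    rw [Nat.cast_sub (by omega), Nat.cast_one]
  have h3 : (1 + 1 / (n:ℝ)) ^ (n - 1) ≤ 3 := by
    calc (1 + 1 / (n:ℝ)) ^ (n - 1) ≤ Real.exp (1 / n) ^ (n - 1) := by
          apply pow_le_pow_left₀ (by positivity)
          have := Real.add_one_le_exp (1 / (n:ℝ))
          linarith
      _ = Real.exp (((n:ℝ) - 1) * (1 / n)) := by rw [← Real.exp_nat_mul, hcast]
      _ ≤ Real.exp 1 := by
          apply Real.exp_le_exp.2
          rw [mul_one_div, div_le_one hn0]
          linarith
      _ ≤ 3 := by linarith [Real.exp_one_lt_d9]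
  have h4 : Y n c = n * ‖c‖ ^ (n - 1) := rfl
  rw [h4, hc, norm_mul, mul_pow, ← hr]
  calc (n:ℝ) * (r * ‖1 - z ^ (n - 1)‖ ^ (n - 1)) ≤ n * (1 / n * (1 + 1 / n) ^ (n - 1)) := by
        gcongr
    _ = (1 + 1 / (n:ℝ)) ^ (n - 1) := by field_simp
    _ ≤ 3 := h3

/-- The area of the disc `Y ≤ t`, as `n` tends to infinity. -/
theorem disc_lim {t : ℝ} (ht : 0 < t) :
    Tendsto (fun n : ℕ => (Real.pi - volume.real {c : ℂ | Y n c ≤ t}) * n / Real.log n) atTop
      (𝓝 (2 * Real.pi)) := by
  have hlogn : Tendsto (fun n : ℕ => Real.log (n:ℝ)) atTop atTop :=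
    Real.tendsto_log_atTop.comp tendsto_natCast_atTop_atTop
  have hlogdiv : Tendsto (fun n : ℕ => Real.log (n:ℝ) / n) atTop (𝓝 0) := by
    have h1 : Tendsto (fun x : ℝ => Real.log x / x) atTop (𝓝 0) := by
      have := Real.isLittleO_log_id_atTop.tendsto_div_nhds_zero
      simpa using this
    exact h1.comp tendsto_natCast_atTop_atTop
  have hinv : Tendsto (fun n : ℕ => (n:ℝ)⁻¹) atTop (𝓝 0) :=
    tendsto_inv_atTop_zero.comp tendsto_natCast_atTop_atTop
  have hlinv : Tendsto (fun n : ℕ => (Real.log (n:ℝ))⁻¹) atTop (𝓝 0) :=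
    tendsto_inv_atTop_zero.comp hlogn
  -- `x n = 2 (log n - log t) / (n - 1)`
  set x : ℕ → ℝ := fun n => 2 * (Real.log n - Real.log t) / ((n:ℝ) - 1) with hx
  set y : ℕ → ℝ := fun n => x n * n / Real.log n with hy
  have hylim : Tendsto y atTop (𝓝 2) := by
    have h1 : Tendsto (fun n : ℕ => 2 * (1 - Real.log t * (Real.log (n:ℝ))⁻¹) *
        (1 - (n:ℝ)⁻¹)⁻¹) atTop (𝓝 (2 * (1 - Real.log t * 0) * (1 - 0)⁻¹)) := by
      refine Tendsto.mul (Tendsto.const_mul 2 (tendsto_const_nhds.sub (hlinv.const_mul _))) ?_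
      exact (tendsto_const_nhds.sub hinv).inv₀ (by norm_num)
    have e : (2 * (1 - Real.log t * 0) * (1 - 0)⁻¹ : ℝ) = 2 := by norm_num
    rw [e] at h1
    refine h1.congr' ?_
    filter_upwards [hlogn.eventually_gt_atTop 0, eventually_ge_atTop 2] with n h2 h3
    have hn2 : (2:ℝ) ≤ n := by exact_mod_cast h3
    have hn0 : (n:ℝ) ≠ 0 := by linarith
    have hn1 : (n:ℝ) - 1 ≠ 0 := by linarith
    have hl : Real.log (n:ℝ) ≠ 0 := h2.ne'
    have e2 : (1 - (n:ℝ)⁻¹)⁻¹ = n / ((n:ℝ) - 1) := by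
      rw [inv_eq_iff_eq_inv, inv_div]
      field_simp
    rw [e2, hy, hx]
    field_simp
  have hxlim : Tendsto x atTop (𝓝 0) := by
    have h1 : Tendsto (fun n => y n * (Real.log (n:ℝ) / n)) atTop (𝓝 (2 * 0)) :=
      hylim.mul hlogdiv
    rw [mul_zero] at h1
    refine h1.congr' ?_
    filter_upwards [hlogn.eventually_gt_atTop 0, eventually_ge_atTop 2] with n h2 h3
    have hn2 : (2:ℝ) ≤ n := by exact_mod_cast h3
    have hn0 : (n:ℝ) ≠ 0 := by linarith
    have hl : Real.log (n:ℝ) ≠ 0 := h2.ne'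
    rw [hy]
    field_simp
  have hxpos : ∀ᶠ n in atTop, 0 ≤ x n := by
    filter_upwards [hlogn.eventually_ge_atTop (Real.log t), eventually_ge_atTop 2] with n h2 h3
    have hn2 : (2:ℝ) ≤ n := by exact_mod_cast h3
    have hn1 : 0 < (n:ℝ) - 1 := by linarith
    rw [hx]
    apply div_nonneg (by linarith) hn1.le
  have hmain : Tendsto (fun n => y n * (1 - x n)) atTop (𝓝 (2 * (1 - 0))) :=
    hylim.mul (tendsto_const_nhds.sub hxlim)
  rw [sub_zero, mul_one] at hmain
  have hsq : Tendsto (fun n : ℕ => (1 - Real.exp (-(x n))) * n / Real.log n) atTop (𝓝 2) := by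
    refine tendsto_of_tendsto_of_tendsto_of_le_of_le' hmain hylim ?_ ?_
    · filter_upwards [hxpos, hxlim.eventually (gt_mem_nhds (show (0:ℝ) < 1 by norm_num)),
        hlogn.eventually_gt_atTop 0, eventually_ge_atTop 2] with n h1 h2 h3 h4
      have hn2 : (2:ℝ) ≤ n := by exact_mod_cast h4
      have hn0 : (0:ℝ) < n := by linarith
      have h5 : x n * (1 - x n) ≤ 1 - Real.exp (-(x n)) := by
        have h6 : Real.exp (-(x n)) ≤ 1 / (1 + x n) := by
          rw [Real.exp_neg, ← one_div]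
          apply one_div_le_one_div_of_le (by linarith)
          have := Real.add_one_le_exp (x n)
          linarith
        have h7 : 1 / (1 + x n) ≤ 1 - x n + x n ^ 2 := by
          rw [div_le_iff₀ (by linarith)]
          nlinarith [pow_nonneg h1 3]
        nlinarith
      rw [hy]
      simp only
      rw [div_mul_eq_mul_div]
      apply div_le_div_of_nonneg_right _ h3.le
      calc x n * n * (1 - x n) = (x n * (1 - x n)) * n := by ring
        _ ≤ _ := mul_le_mul_of_nonneg_right h5 hn0.le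
    · filter_upwards [hxpos, hlogn.eventually_gt_atTop 0, eventually_ge_atTop 2] with n h1 h3 h4
      have hn2 : (2:ℝ) ≤ n := by exact_mod_cast h4
      have hn0 : (0:ℝ) < n := by linarith
      have h5 : 1 - Real.exp (-(x n)) ≤ x n := by
        have := Real.add_one_le_exp (-(x n))
        linarith
      rw [hy]
      simp only
      gcongr
  have h1 := hsq.const_mul Real.pi
  rw [mul_comm Real.pi 2] at h1
  refine h1.congr' ?_
  filter_upwards [eventually_ge_atTop 2] with n hn
  have hn2 : (2:ℝ) ≤ n := by exact_mod_cast hn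
  have hn0 : (0:ℝ) < n := by linarith
  rw [(disc_vol hn ht).1]
  have e : 2 * Real.log (t / n) / ((n:ℝ) - 1) = -(x n) := by
    rw [hx, Real.log_div ht.ne' hn0.ne']
    ring
  rw [e]
  ring

/-- The area of the Multibrot set. -/
theorem area_M : Tendsto (fun n : ℕ =>
    (Real.pi - volume.real (N62a1eb23.multibrotSet n)) * n / Real.log n) atTop (𝓝 Real.pi) := by
  have hlogn : Tendsto (fun n : ℕ => Real.log (n:ℝ)) atTop atTop :=
    Real.tendsto_log_atTop.comp tendsto_natCast_atTop_atTop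
  have hup : UpB 1 (fun n => NN n 1) (1 / 2 ^ 1) := up_tot le_rfl
  have hlow : LowM 1 (fun n => NN n 1) (1 / 2 ^ 1) := by
    refine (low_sg (k := 1) (j := 1) le_rfl le_rfl zero_le_one (le_refl (1:ℝ))).mono ?_ le_rfl
    filter_upwards [eventually_ge_atTop 2] with n hn c hc
    exact Ex_sub_NN hn 1 hc.1
  have hN := tendsto_of (by positivity) hlow hup
  have e0 : 2 * Real.pi * (1 / 2 ^ 1) = Real.pi := by ring
  rw [e0] at hN
  simp only [Function.iterate_one] at hN
  have h3 := (disc_lim (t := 3) (by norm_num)).sub hN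
  have h4 := (disc_lim (t := 1 / 4) (by norm_num)).sub hN
  have e1 : 2 * Real.pi - Real.pi = Real.pi := by ring
  rw [e1] at h3 h4
  have hfin : ∀ᶠ n : ℕ in atTop, volume (NN n 1) ≠ ⊤ := by
    filter_upwards [hup 1 one_pos] with n h
    exact ne_top_of_le_ne_top ENNReal.ofReal_ne_top h
  have hdiscfin : ∀ t : ℝ, 0 < t → ∀ᶠ n : ℕ in atTop, volume {c : ℂ | Y n c ≤ t} ≠ ⊤ := by
    intro t ht
    filter_upwards [eventually_ge_atTop 2] with n hn
    rw [(disc_eq hn ht).1]
    exact measure_closedBall_lt_top.ne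
  refine tendsto_of_tendsto_of_tendsto_of_le_of_le' h3 h4 ?_ ?_
  · -- upper bound for the area of `M`
    filter_upwards [hfin, hdiscfin 3 (by norm_num), eventually_ge_atTop 2,
      hlogn.eventually_gt_atTop 0] with n f1 f2 hn hl
    have hn2 : (2:ℝ) ≤ n := by exact_mod_cast hn
    have hn0 : (0:ℝ) < n := by linarith
    have hsub : N62a1eb23.multibrotSet n ⊆ NN n 1 ∪ {c : ℂ | Y n c ≤ 3} := by
      intro c hc
      by_cases h : ∃ z, N62a1eb23.IsAttractingCycle (f n c) 1 z
      · exact Or.inr (Y_le_three hn h)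
      · left
        refine ⟨hc, fun m h1 h2 => ?_⟩
        obtain rfl : m = 1 := by omega
        exact h
    have h5 : volume.real (N62a1eb23.multibrotSet n) ≤ volume.real (NN n 1) +
        volume.real {c : ℂ | Y n c ≤ 3} := by
      refine (measureReal_mono hsub ?_).trans (measureReal_union_le _ _)
      exact (measure_union_lt_top f1.lt_top f2.lt_top).ne
    rw [← sub_div, ← sub_mul]
    apply div_le_div_of_nonneg_right _ hl.le
    apply mul_le_mul_of_nonneg_right _ hn0.le
    linarith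
  · filter_upwards [hfin, hdiscfin (1 / 4) (by norm_num), eventually_ge_atTop (10 ^ 6),
      hlogn.eventually_gt_atTop 0, hdiscfin 3 (by norm_num)] with n f1 f2 hn hl f3
    have hn2 : 2 ≤ n := by omega
    have hn2' : (2:ℝ) ≤ n := by exact_mod_cast hn2
    have hn0 : (0:ℝ) < n := by linarith
    have hMfin : volume (N62a1eb23.multibrotSet n) ≠ ⊤ := by
      have hsub : N62a1eb23.multibrotSet n ⊆ NN n 1 ∪ {c : ℂ | Y n c ≤ 3} := by
        intro c hc
        by_cases h : ∃ z, N62a1eb23.IsAttractingCycle (f n c) 1 z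
        · exact Or.inr (Y_le_three hn2 h)
        · left
          refine ⟨hc, fun m h1 h2 => ?_⟩
          obtain rfl : m = 1 := by omega
          exact h
      exact ne_top_of_le_ne_top (measure_union_lt_top f1.lt_top f3.lt_top).ne (measure_mono hsub)
    have hsub : NN n 1 ∪ {c : ℂ | Y n c ≤ 1 / 4} ⊆ N62a1eb23.multibrotSet n := by
      rintro c (h | h)
      · exact h.1
      · have h1 : Y n c ≤ 1 / 4 := h
        obtain ⟨z, hz⟩ := Pool.Agent.H749R2.Hyp.P1 hn2 (c := c) (by
          have h2 : (n : ℝ) * ‖c‖ ^ (n - 1) ≤ 1 / 4 := h1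
          have h3 : Real.exp 1 ≤ 3 := by linarith [Real.exp_one_lt_d9]
          have h4 : (0 : ℝ) ≤ n * ‖c‖ ^ (n - 1) := by positivity
          nlinarith [Real.exp_pos 1])
        exact mem_multibrot (z := z) (m := 1) hn2 hz
    have hdis : Disjoint (NN n 1) {c : ℂ | Y n c ≤ 1 / 4} := by
      rw [Set.disjoint_left]
      intro c h1 h2
      have h3 := (alv' hn h1.1 (h1.2 1 le_rfl le_rfl)).1
      have h4 : Y n c ≤ 1 / 4 := h2
      linarith
    have hm : MeasurableSet {c : ℂ | Y n c ≤ 1 / 4} := by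
      rw [(disc_eq hn2 (by norm_num)).1]; exact measurableSet_closedBall
    have h5 : volume.real (NN n 1) + volume.real {c : ℂ | Y n c ≤ 1 / 4} ≤
        volume.real (N62a1eb23.multibrotSet n) := by
      rw [← measureReal_union hdis hm f1 f2]
      exact measureReal_mono hsub hMfin
    rw [← sub_div, ← sub_mul]
    apply div_le_div_of_nonneg_right _ hl.le
    apply mul_le_mul_of_nonneg_right _ hn0.le
    linarith

end Pool.Agent.K3h79.MA
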