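import Mathlib
import Pool.Agent.K3h79.MA.Up

/-! The law of the exact period in an annulus which grows slowly with the degree. -/

set_option autoImplicit false
open Metric MeasureTheory Set Filter Topology

namespace Pool.Agent.K3h79.MA

open Pool.Agent.W747.MB Pool.Agent.TH363.CD

theorem Ex_disj {n p q : ℕ} (hn : 2 ≤ n) (h : p ≠ q) : Disjoint (Ex n p) (Ex n q) := by
  rw [Set.disjoint_left]
  rintro c ⟨z, hz, hp⟩ ⟨w, hw, hq⟩
  apply h
  rw [← hp, ← hq]
  exact (period_unique hn hz hw).symm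

/-- One period: measurable subsets of large measure. -/
theorem per_low (j : ℕ) (hj : 1 ≤ j) {ε : ℝ} (hε : 0 < ε) (m : ℕ) (hm : j ≤ m) :
    ∃ A : ℝ, 1 ≤ A ∧ ∀ᶠ n : ℕ in atTop, ∀ a b : ℝ, A ≤ a → A * a ≤ b →
      A * b ≤ Lk m n → ∃ C : Set ℂ, MeasurableSet C ∧ C ⊆ Ex n (j + 1) ∩ ann n a b ∧
        ((1 / 2) ^ j - ε) * volume.real (ann n a b) ≤ volume.real C := by
  -- reduce to small `ε`
  suffices H : ∀ ε : ℝ, 0 < ε → ε ≤ 1 → ∃ A : ℝ, 1 ≤ A ∧ ∀ᶠ n : ℕ in atTop, ∀ a b : ℝ,
      A ≤ a → A * a ≤ b → A * b ≤ Lk m n → ∃ C : Set ℂ, MeasurableSet C ∧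
        C ⊆ Ex n (j + 1) ∩ ann n a b ∧
        ((1 / 2) ^ j - ε) * volume.real (ann n a b) ≤ volume.real C by
    obtain ⟨A, hA, h⟩ := H (min ε 1) (lt_min hε one_pos) (min_le_right _ _)
    refine ⟨A, hA, h.mono fun n hn a b h1 h2 h3 => ?_⟩
    obtain ⟨C, c1, c2, c3⟩ := hn a b h1 h2 h3
    refine ⟨C, c1, c2, le_trans ?_ c3⟩
    apply mul_le_mul_of_nonneg_right _ measureReal_nonneg
    linarith [min_le_left ε 1]
  clear hε ε
  intro ε hε hε1
  set V : ℕ → Set ℂ := sg j with hV
  obtain ⟨κ₁, hκ0, hκ1, hκ⟩ := pr_shr_prod (OC_sg j) j (η := ε / 8) (by positivity)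
  set V' : ℕ → Set ℂ := fun i => shr κ₁ (V i) with hV'
  have hOC : ∀ i, OC (V' i) := fun i => shr_OC (OC_sg j i)
  set δ : ℝ := min κ₁ (1 / 10) with hδ
  have hδ0 : 0 < δ := lt_min hκ0 (by norm_num)
  have hδ1 : δ ≤ 1 / 10 := min_le_right _ _
  have hδκ : δ ≤ κ₁ := min_le_left _ _
  have hHP : ∀ i, 1 ≤ i → i < j → V i ⊆ HP := fun i _ h => by simp [hV, sg, h]
  have hHM : V j ⊆ HM := by simp [hV, sg]
  obtain ⟨B, Q, hB, hQ, hmul⟩ := multi j V' hOC (fun i h1 h2 z hz =>
    (show 0 < z.re from hHP i h1 h2 (shr_self_sub hκ0 hz)).le) (ε / 8) (by positivity)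
  obtain ⟨B₂, hB₂, hatt⟩ := attr hδ0 (by linarith) m
  have hQ0 : 0 < Q := by linarith
  set A : ℝ := max (max B B₂) (max (1 / δ) (Real.exp (16 * Real.log Q / ε + 2 * Real.log Q)))
    with hA
  have hAB : B ≤ A := (le_max_left _ _).trans (le_max_left _ _)
  have hAB₂ : B₂ ≤ A := (le_max_right _ _).trans (le_max_left _ _)
  have hAδ : 1 / δ ≤ A := (le_max_left _ _).trans (le_max_right _ _)
  have hAe : Real.exp (16 * Real.log Q / ε + 2 * Real.log Q) ≤ A :=
    (le_max_right _ _).trans (le_max_right _ _)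
  have hA1 : 1 ≤ A := hB.trans hAB
  have hpi := Real.pi_pos
  refine ⟨A, hA1, ?_⟩
  filter_upwards [E2_iter hδ0 (by linarith) m, eventually_ge_atTop 2,
    tendsto_natCast_atTop_atTop.eventually_ge_atTop B, ann_lower (ε / 8) (by positivity),
    ann_upper (ε / 8) (by positivity), Lk_le m] with n hE hn hnB hlo hup hLn
  intro a b ha hab hb
  have hn0 : (0:ℝ) < n := by
    have : 0 < n := by omega
    exact_mod_cast this
  have hn1 : 1 ≤ n := by omega
  have ha1 : 1 ≤ a := hA1.trans ha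
  have ha0 : 0 < a := by linarith
  have hab' : a ≤ b := by nlinarith
  have hb0 : 0 < b := by linarith
  have hbL : b ≤ δ * Lk m n := by
    have h1 : 1 ≤ δ * A := by
      rw [div_le_iff₀ hδ0] at hAδ
      linarith
    calc b ≤ (δ * A) * b := by nlinarith
      _ = δ * (A * b) := by ring
      _ ≤ δ * Lk m n := by gcongr
  have hEi : ∀ i ≤ m, E2^[i] b ≤ δ * n := fun i hi =>
    (iter_le_iter hi b).trans ((E2_mono.iterate m hbL).trans hE)
  have hbn : b ≤ n := by
    have h1 : 0 ≤ Lk m n := by nlinarith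
    nlinarith
  have hsubV : ∀ i, V' i ⊆ V i := fun i => shr_self_sub hκ0
  refine ⟨GG n V' j a b, measurableSet_GG (fun i => (hOC i).op.measurableSet) _ _ _, ?_, ?_⟩
  · intro c hc
    refine ⟨?_, GG_sub_ann _ _ _ _ _ hc⟩
    have hXb := X_bounds hn1 (fun i h1 h2 z hz =>
      (show 0 < z.re from hHP i h1 h2 (hsubV i hz)).le) hc
    obtain ⟨g1, g2, g3⟩ := hc
    have hXn : ∀ i, 1 ≤ i → i ≤ j → ‖X n c i‖ ≤ δ * n := fun i h1 h2 =>
      (hXb i h1 h2).2.2.trans (hEi _ (by omega))
    refine hatt n j c hn hj hm (hAB₂.trans (ha.trans g1)) (fun i h1 h2 => ⟨?_, ?_⟩) ?_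
      (hXn j hj le_rfl)
    · have h3 := shr_HP hκ0 (hHP i h1 h2) (g3 i h1 (by omega))
      have := norm_nonneg (X n c i)
      nlinarith
    · refine (hXn i h1 (by omega)).trans ?_
      nlinarith
    · have h3 := shr_HM hκ0 hHM (g3 j hj le_rfl)
      have := norm_nonneg (X n c j)
      nlinarith
  · have h1 := hmul n a b hnB (hAB.trans ha) (fun i hi => (hEi i (by omega)).trans (by
      nlinarith))
    have hp : (1 / 2 : ℝ) ^ j - ε / 8 ≤ ∏ i ∈ Finset.Icc 1 j, pr (V' i) := by
      have e1 : ∏ i ∈ Finset.Icc 1 j, pr (sg j i) = (1 / 2 : ℝ) ^ j := by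
        simp only [pr_sg, Finset.prod_const, Nat.card_Icc, Nat.add_sub_cancel]
      rw [← e1]
      exact hκ
    set ℓ : ℝ := Real.log (b / a) with hℓ
    have hℓA : 16 * Real.log Q / ε + 2 * Real.log Q ≤ ℓ := by
      rw [hℓ, Real.le_log_iff_exp_le (by positivity)]
      refine hAe.trans ?_
      rw [le_div_iff₀ ha0]
      exact hab
    have hlQ : 0 ≤ Real.log Q := Real.log_nonneg hQ
    have hℓ0 : 0 ≤ ℓ := by
      have : 0 ≤ 16 * Real.log Q / ε := by positivity
      linarith
    have hlog2 : Real.log (b / Q / (Q * a)) = ℓ - 2 * Real.log Q := by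
      rw [hℓ, Real.log_div (by positivity) (by positivity), Real.log_div hb0.ne' hQ0.ne',
        Real.log_mul hQ0.ne' ha0.ne', Real.log_div hb0.ne' ha0.ne']
      ring
    have hQab : Q * a ≤ b / Q := by
      have h2 : 0 ≤ Real.log (b / Q / (Q * a)) := by
        rw [hlog2]
        have : 0 ≤ 16 * Real.log Q / ε := by positivity
        linarith
      have h3 : 1 ≤ b / Q / (Q * a) := by
        by_contra h
        push Not at h
        have := Real.log_neg (by positivity) h
        linarith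
      rwa [le_div_iff₀ (by positivity), one_mul] at h3
    have h2 := hlo (Q * a) (b / Q) (by nlinarith) hQab
    rw [hlog2] at h2
    have h3 := hup a b ha0 hab' hbn
    rw [← hℓ] at h3
    -- `ann (Q a) (b / Q)` against `ann a b`
    set g : ℝ := 2 * Real.pi * ℓ / n with hg
    have hg0 : 0 ≤ g := by positivity
    have h4 : (1 - ε / 8) * ((1 - ε / 8) * g) ≤ volume.real (ann n (Q * a) (b / Q)) := by
      refine le_trans ?_ h2
      have h5 : (1 - ε / 8) * ℓ ≤ ℓ - 2 * Real.log Q := by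
        have h6 : 2 * Real.log Q ≤ ε / 8 * ℓ := by
          calc 2 * Real.log Q = ε / 8 * (16 * Real.log Q / ε) := by
                field_simp
                ring
            _ ≤ ε / 8 * ℓ := by
                gcongr
                linarith
        linarith
      have e : (1 - ε / 8) * g = 2 * Real.pi * ((1 - ε / 8) * ℓ) / n := by rw [hg]; ring
      rw [e]
      have : 0 ≤ 1 - ε / 8 := by linarith
      gcongr
    set v := volume.real (ann n a b) with hv
    have hv0 : 0 ≤ v := measureReal_nonneg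
    have h5 : (1 - ε / 2) * v ≤ volume.real (ann n (Q * a) (b / Q)) := by
      refine le_trans ?_ h4
      calc (1 - ε / 2) * v ≤ (1 - ε / 2) * ((1 + ε / 8) * g) := by
            apply mul_le_mul_of_nonneg_left h3 (by linarith)
        _ = ((1 - ε / 2) * (1 + ε / 8)) * g := by ring
        _ ≤ ((1 - ε / 8) * (1 - ε / 8)) * g := by
            apply mul_le_mul_of_nonneg_right _ hg0
            nlinarith
        _ = (1 - ε / 8) * ((1 - ε / 8) * g) := by ring
    have h6 : (1 / 2 : ℝ) ^ j - ε / 4 ≤ ∏ i ∈ Finset.Icc 1 j, pr (V' i) - ε / 8 := by linarith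
    have hpow1 : (1 / 2 : ℝ) ^ j ≤ 1 := pow_le_one₀ (by norm_num) (by norm_num)
    refine le_trans ?_ h1
    rcases le_or_gt ((1 / 2 : ℝ) ^ j) ε with h7 | h7
    · have h8 : ((1 / 2 : ℝ) ^ j - ε) * v ≤ 0 := mul_nonpos_of_nonpos_of_nonneg (by linarith) hv0
      rcases le_or_gt 0 (∏ i ∈ Finset.Icc 1 j, pr (V' i) - ε / 8) with h9 | h9
      · exact h8.trans (mul_nonneg h9 measureReal_nonneg)
      · -- the product is nonnegative
        have h10 : (1 / 2 : ℝ) ^ j - ε / 4 < 0 := by linarith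
        have h11 : ∏ i ∈ Finset.Icc 1 j, pr (V' i) - ε / 8 ≥ -(ε / 8) := by
          have : 0 ≤ ∏ i ∈ Finset.Icc 1 j, pr (V' i) := Finset.prod_nonneg fun i _ => pr_nonneg _
          linarith
        have h12 : volume.real (ann n (Q * a) (b / Q)) ≤ v := by
          apply measureReal_mono _ (ann_finite hn _ _)
          rintro c ⟨e1, e2⟩
          refine ⟨by nlinarith, e2.trans (div_le_self hb0.le hQ)⟩
        have h13 : 0 ≤ volume.real (ann n (Q * a) (b / Q)) := measureReal_nonneg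
        have h14 : (∏ i ∈ Finset.Icc 1 j, pr (V' i) - ε / 8) *
            volume.real (ann n (Q * a) (b / Q)) ≥ -(ε / 8) * v := by
          nlinarith
        have h15 : ((1 / 2 : ℝ) ^ j - ε) * v ≤ -(ε / 8) * v := by
          apply mul_le_mul_of_nonneg_right _ hv0
          linarith
        linarith
    · calc ((1 / 2 : ℝ) ^ j - ε) * v ≤ (((1 / 2 : ℝ) ^ j - ε / 4) * (1 - ε / 2)) * v := by
            apply mul_le_mul_of_nonneg_right _ hv0
            nlinarith
        _ = ((1 / 2 : ℝ) ^ j - ε / 4) * ((1 - ε / 2) * v) := by ring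
        _ ≤ ((1 / 2 : ℝ) ^ j - ε / 4) * volume.real (ann n (Q * a) (b / Q)) := by
            apply mul_le_mul_of_nonneg_left h5
            linarith
        _ ≤ _ := mul_le_mul_of_nonneg_right h6 measureReal_nonneg

theorem geom_half (N : ℕ) : ∑ j ∈ Finset.Icc 1 N, (1 / 2 : ℝ) ^ j = 1 - (1 / 2) ^ N := by
  induction N with
  | zero => simp
  | succ N ih =>
    rw [Finset.sum_Icc_succ_top (by omega), ih, pow_succ]
    ring

/-- The law of the period. -/
theorem per_law (K : ℕ) {ε : ℝ} (hε : 0 < ε) :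
    ∃ (A : ℝ) (m : ℕ), 1 ≤ A ∧ ∀ᶠ n : ℕ in atTop, ∀ a b : ℝ, A ≤ a → A * a ≤ b →
      A * b ≤ Real.log^[m] (n:ℝ) → ∀ k, 1 ≤ k → k ≤ K →
        |volume.real (Ex n (k + 1) ∩ ann n a b) - (1 / 2) ^ k * volume.real (ann n a b)| ≤
          ε * volume.real (ann n a b) := by
  obtain ⟨N, hN⟩ := exists_pow_lt_of_lt_one (half_pos hε) (show (1 / 2 : ℝ) < 1 by norm_num)
  set M := max K (max N 1) with hM
  have hKM : K ≤ M := le_max_left _ _
  have hNM : N ≤ M := (le_max_left _ _).trans (le_max_right _ _)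
  have hM1 : 1 ≤ M := (le_max_right _ _).trans (le_max_right _ _)
  have hM0 : (0:ℝ) < M := by exact_mod_cast hM1
  set ε' : ℝ := ε / (2 * M) with hε'
  have hε'0 : 0 < ε' := by positivity
  choose A hA1 hA using fun j : ℕ => per_low (max j 1) (le_max_right _ _) hε'0 (max j M)
    (max_le_max le_rfl hM1)
  obtain ⟨A₀, hA₀⟩ : ∃ A₀ : ℝ, ∀ j ∈ Finset.Icc 1 M, A j ≤ A₀ := by
    refine ⟨∑ j ∈ Finset.Icc 1 M, A j, fun j hj => ?_⟩
    exact Finset.single_le_sum (f := A) (fun i _ => by linarith [hA1 i]) hj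
  have hA₀1 : 1 ≤ A₀ := (hA1 1).trans (hA₀ 1 (by simp [hM1]))
  refine ⟨A₀, M, hA₀1, ?_⟩
  have hev : ∀ᶠ n : ℕ in atTop, ∀ j ∈ Finset.Icc 1 M, ∀ a b : ℝ, A j ≤ a → A j * a ≤ b →
      A j * b ≤ Lk M n → ∃ C : Set ℂ, MeasurableSet C ∧ C ⊆ Ex n (j + 1) ∩ ann n a b ∧
        ((1 / 2) ^ j - ε') * volume.real (ann n a b) ≤ volume.real C := by
    rw [eventually_all_finset]
    intro j hj
    rw [Finset.mem_Icc] at hj
    have h1 := hA j
    rwa [max_eq_left hj.1, max_eq_right hj.2] at h1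
  filter_upwards [hev, eventually_ge_atTop 2] with n h1 hn a b ha hab hb k hk1 hkK
  have ha0 : 0 < a := by linarith
  have hb0 : 0 < b := by nlinarith
  have hC : ∀ j ∈ Finset.Icc 1 M, ∃ C : Set ℂ, MeasurableSet C ∧ C ⊆ Ex n (j + 1) ∩ ann n a b ∧
        ((1 / 2) ^ j - ε') * volume.real (ann n a b) ≤ volume.real C := by
    intro j hj
    have h2 := hA₀ j hj
    refine h1 j hj a b (h2.trans ha) (le_trans ?_ hab) (le_trans ?_ hb)
    · gcongr
    · gcongr
  choose! C hCm hCs hCv using hC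
  set v := volume.real (ann n a b) with hv
  have hv0 : 0 ≤ v := measureReal_nonneg
  have hfin : volume (ann n a b) ≠ ⊤ := ann_finite hn _ _
  have hkM : k ∈ Finset.Icc 1 M := Finset.mem_Icc.2 ⟨hk1, hkK.trans hKM⟩
  have hε'M : M * ε' = ε / 2 := by rw [hε']; field_simp
  have hε'ε : ε' ≤ ε / 2 := by
    have : (1:ℝ) ≤ M := by exact_mod_cast hM1
    nlinarith
  rw [abs_le]
  constructor
  · -- lower bound
    have h2 : volume.real (C k) ≤ volume.real (Ex n (k + 1) ∩ ann n a b) :=
      measureReal_mono (hCs k hkM) (ne_top_of_le_ne_top hfin (measure_mono inter_subset_right))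
    have h3 := hCv k hkM
    nlinarith
  · -- upper bound
    set F := (Finset.Icc 1 M).erase k with hF
    set U := ⋃ j ∈ F, C j with hU
    have hFm : ∀ j ∈ F, j ∈ Finset.Icc 1 M := fun j hj => Finset.mem_of_mem_erase hj
    have hUm : MeasurableSet U := F.measurableSet_biUnion fun j hj => hCm j (hFm j hj)
    have hUs : U ⊆ ann n a b := by
      intro c hc
      rw [hU, mem_iUnion₂] at hc
      obtain ⟨j, hj, hc⟩ := hc
      exact (hCs j (hFm j hj) hc).2
    have hdisj : Disjoint (Ex n (k + 1) ∩ ann n a b) U := by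
      rw [Set.disjoint_left]
      rintro c ⟨hc, -⟩ hcU
      rw [hU, mem_iUnion₂] at hcU
      obtain ⟨j, hj, hc2⟩ := hcU
      have hne : k + 1 ≠ j + 1 := by
        have := Finset.ne_of_mem_erase hj
        omega
      exact Set.disjoint_left.1 (Ex_disj hn hne) hc (hCs j (hFm j hj) hc2).1
    have hUv : volume.real U = ∑ j ∈ F, volume.real (C j) := by
      rw [hU]
      apply measureReal_biUnion_finset
      · intro i hi j hj hij
        have hne : i + 1 ≠ j + 1 := by omega
        exact (Ex_disj hn hne).mono (fun c hc => (hCs i (hFm i hi) hc).1)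
          (fun c hc => (hCs j (hFm j hj) hc).1)
      · exact fun j hj => hCm j (hFm j hj)
      · exact fun j hj => ne_top_of_le_ne_top hfin
          (measure_mono fun c hc => (hCs j (hFm j hj) hc).2)
    have h2 : volume.real (Ex n (k + 1) ∩ ann n a b) + volume.real U ≤ v := by
      rw [← measureReal_union hdisj hUm (ne_top_of_le_ne_top hfin (measure_mono inter_subset_right))
        (ne_top_of_le_ne_top hfin (measure_mono hUs))]
      exact measureReal_mono (union_subset inter_subset_right hUs) hfin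
    have h3 : (1 - (1 / 2 : ℝ) ^ M - (1 / 2) ^ k - ε / 2) * v ≤ volume.real U := by
      rw [hUv]
      have h4 : ∑ j ∈ F, ((1 / 2 : ℝ) ^ j - ε') * v ≤ ∑ j ∈ F, volume.real (C j) :=
        Finset.sum_le_sum fun j hj => hCv j (hFm j hj)
      refine le_trans ?_ h4
      rw [← Finset.sum_mul, Finset.sum_sub_distrib]
      have h5 : ∑ j ∈ F, (1 / 2 : ℝ) ^ j = 1 - (1 / 2) ^ M - (1 / 2) ^ k := by
        have := Finset.sum_erase_add (Finset.Icc 1 M) (fun j => (1 / 2 : ℝ) ^ j) hkM
        rw [geom_half] at this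
        linarith
      have h6 : ∑ _j ∈ F, ε' ≤ ε / 2 := by
        rw [Finset.sum_const, nsmul_eq_mul, ← hε'M]
        have h7 : (F.card : ℝ) ≤ M := by
          have : F.card ≤ M := by
            refine (Finset.card_erase_le).trans ?_
            simp
          exact_mod_cast this
        gcongr
      rw [h5]
      apply mul_le_mul_of_nonneg_right _ hv0
      linarith
    have h4 : (1 / 2 : ℝ) ^ M ≤ ε / 2 := by
      refine le_trans ?_ hN.le
      exact pow_le_pow_of_le_one (by norm_num) (by norm_num) hNM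
    nlinarith

end Pool.Agent.K3h79.MA
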