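import Mathlib
import Pool.Prelude.Def_F_c31e40fa
import Pool.Agent.K3h79.MA.Fin

/-!
# The area of the Multibrot sets of large degree

The area of `M_n` is `π - (π + o(1)) * log n / n` as `n → ∞`.
-/

set_option autoImplicit false
open MeasureTheory Filter Topology

namespace Pool.Agent.K3h79.MA.TotalArea

theorem result :
    Tendsto (fun n : ℕ => (Real.pi - volume.real (N62a1eb23.multibrotSet n)) * n / Real.log n)
      atTop (𝓝 Real.pi) :=
  Pool.Agent.K3h79.MA.area_M

end Pool.Agent.K3h79.MA.TotalArea
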